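import Pool.Agent.E8helper42.TG.Lie
import Pool.Agent.H463R3.PSLn

/-!
# Groups generated by pseudo-reflections of order three along a chain
-/

set_option autoImplicit false
set_option linter.unusedSectionVars false
set_option linter.unusedSimpArgs false

open Matrix Polynomial

namespace Pool.Agent.E8helper42.TG

open Pool.Agent.Y119.PLM Pool.Agent.Y119.HY

/-- neighbours -/
noncomputable def tt (i j : ℕ) : ℂ := if i ≤ j + 1 ∧ j ≤ i + 1 then 1 else 0

lemma tt_comm (i j : ℕ) : tt i j = tt j i := by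
  unfold tt
  simp only [and_comm]

lemma tt_self (i : ℕ) : tt i i = 1 := by
  unfold tt
  rw [if_pos ⟨by omega, by omega⟩]

lemma tt_succ (i : ℕ) : tt i (i + 1) = 1 := by
  unfold tt
  rw [if_pos ⟨by omega, by omega⟩]

lemma tt_succ' (i : ℕ) : tt (i + 1) i = 1 := by
  unfold tt
  rw [if_pos ⟨by omega, by omega⟩]

lemma tt_far {i j : ℕ} (h : i + 1 < j) : tt i j = 0 := by
  unfold tt
  rw [if_neg (by omega)]

lemma tt_far' {i j : ℕ} (h : j + 1 < i) : tt i j = 0 := by
  unfold tt
  rw [if_neg (by omega)]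

/-- the matrices `e i ⊗ φ j` -/
noncomputable def B (n i j : ℕ) : Matrix (Fin n) (Fin n) ℂ := Matrix.of fun a b => if (a : ℕ) = i then tt j b else 0

lemma BB {n k : ℕ} (i j l : ℕ) (hk : k < n) : B n i j * B n k l = tt j k • B n i l := by
  ext a b
  rw [Matrix.mul_apply, Matrix.smul_apply, smul_eq_mul]
  unfold B
  simp only [Matrix.of_apply]
  rw [Finset.sum_eq_single (⟨k, hk⟩ : Fin n)]
  · rw [if_pos (show ((⟨k, hk⟩ : Fin n) : ℕ) = k from rfl)]
    split_ifs <;> ring
  · intro c _ hc
    rw [if_neg (fun h => hc (Fin.ext h)), mul_zero]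
  · intro h
    exact absurd (Finset.mem_univ _) h

section ops

variable {n : ℕ} (L : Submodule ℂ (Matrix (Fin n) (Fin n) ℂ))
  (h1 : ∀ m < n, ∀ T ∈ L, B n m m * T - B n m m * T * B n m m ∈ L)
  (h2 : ∀ m < n, ∀ T ∈ L, T * B n m m - B n m m * T * B n m m ∈ L)

include h1 h2 in
/-- the chain -/
theorem chain (hn : 3 ≤ n) {q : ℂ} (hq : q ^ 2 + q + 1 = 0)
    (h0 : (q - 1) • B n 0 0 + (q ^ 2 - 1) • B n 1 1 + (3 : ℂ) • B n 0 1 + (3 / 2 : ℂ) • (B n 0 0 - B n 0 1 - B n 1 0 +
      B n 1 1) ∈ L) : ∀ i < n, ∀ j < n, B n i j - tt i j • B n 0 0 ∈ L := by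
  have hN0 : 0 < n := by omega
  have hN1 : 1 < n := by omega
  have hN2 : 2 < n := by omega
  have t01 : tt 0 1 = 1 := tt_succ 0
  have t10 : tt 1 0 = 1 := tt_succ' 0
  have t12 : tt 1 2 = 1 := tt_succ 1
  have t21 : tt 2 1 = 1 := tt_succ' 1
  have t02 : tt 0 2 = 0 := tt_far (by omega)
  have t20 : tt 2 0 = 0 := tt_far' (by omega)
  have q2 : q ^ 2 + 2 ≠ 0 := by
    intro h
    have h3 : q = 1 := by linear_combination hq - h
    rw [h3] at hq
    norm_num at hq
  have q3 : q ^ 2 + 1 / 2 ≠ 0 := by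
    intro h
    have h3 : q = -1 / 2 := by linear_combination hq - h
    rw [h3] at hq
    norm_num at hq
  have A1 : (3 / 2 : ℂ) • B n 0 2 + (q ^ 2 + 1 / 2) • (B n 1 2 - B n 2 2) ∈ L := by
    have h3 := h2 2 hN2 _ h0
    convert h3 using 1
    simp only [add_mul, sub_mul, mul_add, mul_sub, smul_mul_assoc, mul_smul_comm, BB _ _ _ hN0, BB _ _ _ hN1,
      BB _ _ _ hN2, smul_smul, t01, t10, t12, t21, t02, t20, tt_self]
    module
  have A2 : B n 0 2 ∈ L := by
    have h3 := h1 0 hN0 _ A1
    have h4 : B n 0 2 = (q ^ 2 + 2)⁻¹ • (B n 0 0 * ((3 / 2 : ℂ) • B n 0 2 + (q ^ 2 + 1 / 2) • (B n 1 2 - B n 2 2)) -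
        B n 0 0 * ((3 / 2 : ℂ) • B n 0 2 + (q ^ 2 + 1 / 2) • (B n 1 2 - B n 2 2)) * B n 0 0) := by
      simp only [add_mul, sub_mul, mul_add, mul_sub, smul_mul_assoc, mul_smul_comm, BB _ _ _ hN0, BB _ _ _ hN1,
        BB _ _ _ hN2, smul_smul, t01, t10, t12, t21, t02, t20, tt_self]
      match_scalars <;> field_simp <;> ring
    rw [h4]
    exact L.smul_mem _ h3
  have A3 : B n 1 2 - B n 2 2 ∈ L := by
    have h4 : B n 1 2 - B n 2 2 = (q ^ 2 + 1 / 2)⁻¹ • (((3 / 2 : ℂ) • B n 0 2 + (q ^ 2 + 1 / 2) • (B n 1 2 - B n 2 2)) -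
        (3 / 2 : ℂ) • B n 0 2) := by
      rw [add_sub_cancel_left, smul_smul, inv_mul_cancel₀ q3, one_smul]
    rw [h4]
    exact L.smul_mem _ (L.sub_mem A1 (L.smul_mem _ A2))
  have A4 : B n 2 1 - B n 1 1 ∈ L := by
    have h3 := L.neg_mem (h2 1 hN1 _ A3)
    convert h3 using 1
    simp only [add_mul, sub_mul, mul_add, mul_sub, smul_mul_assoc, mul_smul_comm, BB _ _ _ hN0, BB _ _ _ hN1,
      BB _ _ _ hN2, smul_smul, t01, t10, t12, t21, t02, t20, tt_self]
    module
  have A5 : B n 0 1 - B n 0 0 ∈ L := by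
    have h3 := L.neg_mem (h1 0 hN0 _ A4)
    convert h3 using 1
    simp only [add_mul, sub_mul, mul_add, mul_sub, smul_mul_assoc, mul_smul_comm, BB _ _ _ hN0, BB _ _ _ hN1,
      BB _ _ _ hN2, smul_smul, t01, t10, t12, t21, t02, t20, tt_self]
    module
  have A6 : B n 2 0 - B n 1 0 + B n 0 0 ∈ L := by
    have h3 := h2 0 hN0 _ A4
    convert h3 using 1
    simp only [add_mul, sub_mul, mul_add, mul_sub, smul_mul_assoc, mul_smul_comm, BB _ _ _ hN0, BB _ _ _ hN1,
      BB _ _ _ hN2, smul_smul, t01, t10, t12, t21, t02, t20, tt_self]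
    module
  have A7 : B n 1 0 - B n 1 1 ∈ L := by
    have h3 := L.neg_mem (h1 1 hN1 _ A5)
    convert h3 using 1
    simp only [add_mul, sub_mul, mul_add, mul_sub, smul_mul_assoc, mul_smul_comm, BB _ _ _ hN0, BB _ _ _ hN1,
      BB _ _ _ hN2, smul_smul, t01, t10, t12, t21, t02, t20, tt_self]
    module
  have A8 : B n 2 0 - B n 2 1 + B n 2 2 ∈ L := by
    have h3 := h1 2 hN2 _ A7
    convert h3 using 1
    simp only [add_mul, sub_mul, mul_add, mul_sub, smul_mul_assoc, mul_smul_comm, BB _ _ _ hN0, BB _ _ _ hN1,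
      BB _ _ _ hN2, smul_smul, t01, t10, t12, t21, t02, t20, tt_self]
    module
  have A9 : B n 2 1 - B n 1 1 + (B n 0 1 - B n 1 1) ∈ L := by
    have h3 := h2 1 hN1 _ A6
    convert h3 using 1
    simp only [add_mul, sub_mul, mul_add, mul_sub, smul_mul_assoc, mul_smul_comm, BB _ _ _ hN0, BB _ _ _ hN1,
      BB _ _ _ hN2, smul_smul, t01, t10, t12, t21, t02, t20, tt_self]
    module
  -- the first block
  have C11 : B n 1 1 - B n 0 0 ∈ L := by
    have h3 := L.sub_mem A5 (L.sub_mem A9 A4)
    convert h3 using 1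
    module
  have C01 : B n 0 1 - B n 0 0 ∈ L := A5
  have C10 : B n 1 0 - B n 0 0 ∈ L := by
    have h3 := L.add_mem A7 C11
    convert h3 using 1
    module
  have C20 : B n 2 0 ∈ L := by
    have h3 := L.add_mem A6 C10
    convert h3 using 1
    module
  have C21 : B n 2 1 - B n 0 0 ∈ L := by
    have h3 := L.add_mem A4 C11
    convert h3 using 1
    module
  have C22 : B n 2 2 - B n 0 0 ∈ L := by
    have h3 := L.add_mem (L.sub_mem A8 C20) C21
    convert h3 using 1
    module
  have C12 : B n 1 2 - B n 0 0 ∈ L := by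
    have h3 := L.add_mem A3 C22
    convert h3 using 1
    module
  have hbase : ∀ i ≤ 2, ∀ j ≤ 2, B n i j - tt i j • B n 0 0 ∈ L := by
    intro i hi j hj
    interval_cases i <;> interval_cases j
    · rw [tt_self, one_smul, sub_self]; exact L.zero_mem
    · rw [t01, one_smul]; exact C01
    · rw [t02, zero_smul, sub_zero]; exact A2
    · rw [t10, one_smul]; exact C10
    · rw [tt_self, one_smul]; exact C11
    · rw [t12, one_smul]; exact C12
    · rw [t20, zero_smul, sub_zero]; exact C20
    · rw [t21, one_smul]; exact C21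
    · rw [tt_self, one_smul]; exact C22
  -- induction
  have hind : ∀ m, 2 ≤ m → m < n → ∀ i ≤ m, ∀ j ≤ m, B n i j - tt i j • B n 0 0 ∈ L := by
    intro m hm
    induction m, hm using Nat.le_induction with
    | base => exact fun _ => hbase
    | succ m hm ih =>
      intro hmn
      have ih' := ih (by omega)
      have hm1 : m < n := by omega
      have t0 : tt (m + 1) 0 = 0 := tt_far' (by omega)
      have t0' : tt 0 (m + 1) = 0 := tt_far (by omega)
      have e1 : ∀ i ≤ m, B n i (m + 1) - tt i (m + 1) • B n (m + 1) (m + 1) ∈ L := by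
        intro i hi
        have h3 := h2 (m + 1) hmn _ (ih' i hi m le_rfl)
        convert h3 using 1
        simp only [sub_mul, mul_sub, smul_mul_assoc, mul_smul_comm, BB _ _ _ hN0, BB _ _ _ hmn,
          BB _ _ _ (lt_of_le_of_lt hi hm1), smul_smul, t0', tt_succ, tt_comm (m + 1) i]
        module
      have e2 : ∀ j ≤ m, B n (m + 1) j - tt (m + 1) j • B n (m + 1) (m + 1) ∈ L := by
        intro j hj
        have h3 := h1 (m + 1) hmn _ (ih' m le_rfl j hj)
        convert h3 using 1
        simp only [sub_mul, mul_sub, smul_mul_assoc, mul_smul_comm, BB _ _ _ hN0, BB _ _ _ hmn,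
          BB _ _ _ hm1, smul_smul, t0, tt_succ', tt_comm j (m + 1)]
        module
      have e3 : B n (m + 1) m - B n m m ∈ L := by
        have h3 := L.neg_mem (h2 m hm1 _ (e1 m le_rfl))
        convert h3 using 1
        simp only [sub_mul, mul_sub, smul_mul_assoc, mul_smul_comm, BB _ _ _ hmn, BB _ _ _ hm1, smul_smul,
          tt_succ', tt_succ, tt_self]
        module
      have e4 : B n (m + 1) (m + 1) - B n 0 0 ∈ L := by
        have h3 := L.add_mem (L.sub_mem e3 (e2 m le_rfl)) (ih' m le_rfl m le_rfl)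
        rw [tt_succ', tt_self] at h3
        convert h3 using 1
        module
      intro i hi j hj
      rcases Nat.lt_or_ge m i with hi' | hi'
      · obtain rfl : i = m + 1 := by omega
        rcases Nat.lt_or_ge m j with hj' | hj'
        · obtain rfl : j = m + 1 := by omega
          rw [tt_self, one_smul]
          exact e4
        · have h3 := L.add_mem (e2 j hj') (L.smul_mem (tt (m + 1) j) e4)
          convert h3 using 1
          module
      · rcases Nat.lt_or_ge m j with hj' | hj'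
        · obtain rfl : j = m + 1 := by omega
          have h3 := L.add_mem (e1 i hi') (L.smul_mem (tt i (m + 1)) e4)
          convert h3 using 1
          module
        · exact ih' i hi' j hj'
  intro i hi j hj
  exact hind (n - 1) (by omega) (by omega) i (by omega) j (by omega)

end ops

/-! ### the matrix `tt` is invertible -/

/-- the solution of the recursion -/
def sq : ℕ → ℤ
  | 0 => 1
  | 1 => -1
  | k + 2 => -sq (k + 1) - sq k

lemma sq_add_three (k : ℕ) : sq (k + 3) = sq k := by
  have h1 : sq (k + 3) = -sq (k + 2) - sq (k + 1) := rfl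
  have h2 : sq (k + 2) = -sq (k + 1) - sq k := rfl
  rw [h1, h2]
  ring

lemma sq_ne {k : ℕ} (h : ¬ 3 ∣ k + 1) : sq k ≠ 0 := by
  induction k using Nat.strong_induction_on with
  | _ k ih =>
    match k, h, ih with
    | 0, _, _ => decide
    | 1, _, _ => decide
    | 2, h, _ => exact absurd (by norm_num : 3 ∣ 2 + 1) h
    | k + 3, h, ih =>
      rw [sq_add_three]
      exact ih k (by omega) fun hk => h (by omega)

/-- the rows -/
lemma row_sum {n : ℕ} (x : ℕ → ℂ) (hx : ∀ k, n ≤ k → x k = 0) (l : ℕ) (hl : l < n) :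
    ∑ m ∈ Finset.range n, tt l m * x m = (if l = 0 then 0 else x (l - 1)) + x l + x (l + 1) := by
  have h1 : ∑ m ∈ Finset.range n, tt l m * x m = ∑ m ∈ Finset.range (n + 2), tt l m * x m := by
    refine Finset.sum_subset (fun m hm => ?_) (fun m _ hm => ?_)
    · rw [Finset.mem_range] at hm ⊢
      omega
    · rw [Finset.mem_range, not_lt] at hm
      rw [hx m hm, mul_zero]
  rw [h1]
  have h2 : ∀ m, tt l m * x m ≠ 0 → m = l - 1 ∨ m = l ∨ m = l + 1 := by
    intro m hm
    by_contra hcon
    apply hm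
    unfold tt
    rw [if_neg (by omega), zero_mul]
  rcases Nat.eq_zero_or_pos l with rfl | hl0
  · rw [if_pos rfl, zero_add]
    have h3 : ∑ m ∈ Finset.range (n + 2), tt 0 m * x m = ∑ m ∈ ({0, 1} : Finset ℕ), tt 0 m * x m := by
      symm
      refine Finset.sum_subset (fun m hm => ?_) (fun m _ hm => ?_)
      · simp only [Finset.mem_insert, Finset.mem_singleton] at hm
        rw [Finset.mem_range]
        omega
      · by_contra h0
        have := h2 m h0
        simp only [Finset.mem_insert, Finset.mem_singleton] at hm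
        omega
    rw [h3, Finset.sum_pair (by omega), tt_self, tt_succ 0, one_mul, one_mul]
  · rw [if_neg (by omega)]
    have h3 : ∑ m ∈ Finset.range (n + 2), tt l m * x m = ∑ m ∈ ({l - 1, l, l + 1} : Finset ℕ), tt l m * x m := by
      symm
      refine Finset.sum_subset (fun m hm => ?_) (fun m _ hm => ?_)
      · simp only [Finset.mem_insert, Finset.mem_singleton] at hm
        rw [Finset.mem_range]
        omega
      · by_contra h0
        have := h2 m h0
        simp only [Finset.mem_insert, Finset.mem_singleton] at hm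
        omega
    obtain ⟨k, rfl⟩ : ∃ k, l = k + 1 := ⟨l - 1, by omega⟩
    rw [h3, Finset.sum_insert (by simp; omega), Finset.sum_pair (by omega), Nat.add_sub_cancel, tt_succ' k,
      tt_self, tt_succ, one_mul, one_mul, one_mul]
    ring

/-- the matrix -/
noncomputable def Tm (n : ℕ) : Matrix (Fin n) (Fin n) ℂ := Matrix.of fun j b => tt j b

lemma Tm_det {n : ℕ} (hn : ¬ 3 ∣ n + 1) : (Tm n).det ≠ 0 := by
  intro h0
  obtain ⟨v, hv, hv0⟩ := Matrix.exists_mulVec_eq_zero_iff.2 h0
  set x : ℕ → ℂ := fun k => if h : k < n then v ⟨k, h⟩ else 0 with hx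
  have hxn : ∀ k, n ≤ k → x k = 0 := by
    intro k hk
    rw [hx]
    simp only
    rw [dif_neg (by omega)]
  have hrow : ∀ l < n, (if l = 0 then 0 else x (l - 1)) + x l + x (l + 1) = 0 := by
    intro l hl
    rw [← row_sum x hxn l hl]
    have h1 := congrFun hv0 ⟨l, hl⟩
    rw [Matrix.mulVec, dotProduct, Pi.zero_apply] at h1
    rw [← h1, ← Fin.sum_univ_eq_sum_range (fun m => tt l m * x m) n]
    refine Finset.sum_congr rfl fun m _ => ?_
    rw [Tm, Matrix.of_apply]
    congr 1
    rw [hx]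
    simp only
    rw [dif_pos m.2]
  have hrec : ∀ k ≤ n, x k = sq k * x 0 := by
    intro k
    induction k using Nat.strong_induction_on with
    | _ k ih =>
      intro hk
      match k, ih, hk with
      | 0, _, _ => simp [sq]
      | 1, _, hk =>
        have h1 := hrow 0 (by omega)
        rw [if_pos rfl, zero_add] at h1
        simp only [sq]
        push_cast
        linear_combination h1
      | k + 2, ih, hk =>
        have h1 := hrow (k + 1) (by omega)
        rw [if_neg (by omega), Nat.add_sub_cancel] at h1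
        have h2 := ih (k + 1) (by omega) (by omega)
        have h3 := ih k (by omega) (by omega)
        have h4 : sq (k + 2) = -sq (k + 1) - sq k := rfl
        rw [h4]
        push_cast
        linear_combination h1 - h2 - h3
  have h1 := hrec n le_rfl
  rw [hxn n le_rfl] at h1
  have h2 : ((sq n : ℤ) : ℂ) ≠ 0 := by exact_mod_cast sq_ne hn
  have h3 : x 0 = 0 := (mul_eq_zero.1 h1.symm).resolve_left h2
  apply hv
  funext a
  have h4 := hrec a a.2.le
  rw [h3, mul_zero, hx] at h4
  simp only at h4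
  rw [dif_pos a.2] at h4
  exact h4

/-- elementary matrices -/
lemma single_mem {n : ℕ} (hn : ¬ 3 ∣ n + 1) (L : Submodule ℂ (Matrix (Fin n) (Fin n) ℂ))
    (h : ∀ i < n, ∀ j < n, B n i j - tt i j • B n 0 0 ∈ L) {a b : Fin n} (hab : a ≠ b) :
    Matrix.single a b (1 : ℂ) ∈ L := by
  have hT : (Tm n)⁻¹ * Tm n = 1 := nonsing_inv_mul _ (Ne.isUnit (Tm_det hn))
  have hC : ∀ b' : Fin n, ∑ j, (Tm n)⁻¹ b j * tt j b' = if b = b' then 1 else 0 := by
    intro b'
    have h1 := congrFun (congrFun hT b) b'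
    rw [Matrix.mul_apply, Matrix.one_apply] at h1
    exact h1
  have h1 : Matrix.single a b (1 : ℂ) = ∑ j : Fin n, (Tm n)⁻¹ b j • (B n a j - tt a j • B n 0 0) := by
    have h2 : ∑ j : Fin n, (Tm n)⁻¹ b j • (B n a j - tt a j • B n 0 0) =
        ∑ j : Fin n, (Tm n)⁻¹ b j • B n a j - (∑ j : Fin n, (Tm n)⁻¹ b j * tt j a) • B n 0 0 := by
      rw [Finset.sum_smul, ← Finset.sum_sub_distrib]
      refine Finset.sum_congr rfl fun j _ => ?_
      rw [smul_sub, smul_smul, tt_comm]
    rw [h2, hC, if_neg (Ne.symm hab), zero_smul, sub_zero]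
    ext a' b'
    rw [Matrix.sum_apply, Matrix.single_apply]
    simp only [Matrix.smul_apply, smul_eq_mul, B, Matrix.of_apply]
    by_cases h3 : a = a'
    · subst h3
      simp only [if_true]
      rw [hC]
      simp
    · rw [if_neg (fun h => h3 h.1)]
      symm
      refine Finset.sum_eq_zero fun j _ => ?_
      rw [if_neg (fun h => h3 (Fin.ext h).symm), mul_zero]
  rw [h1]
  exact Submodule.sum_mem _ fun j _ => L.smul_mem _ (h a a.2 j j.2)

end Pool.Agent.E8helper42.TG
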