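import Pool.Agent.E8helper42.TG.Alg

/-!
# The group is the special linear group
-/

set_option autoImplicit false
set_option linter.unusedSectionVars false
set_option linter.unusedSimpArgs false

open Matrix Polynomial

namespace Pool.Agent.E8helper42.TG

open Pool.Agent.Y119.PLM Pool.Agent.Y119.HY

variable {X : Type} [Fintype X] {n : ℕ}

/-- tuples with one member -/
def c1 (n : ℕ) : Matrix (Fin n) (Fin n) ℂ →ₗ[ℂ] MT (fun _ : Unit => n) where
  toFun A := fun _ => A
  map_add' _ _ := rfl
  map_smul' _ _ := rfl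

lemma c1_mul (A A' : Matrix (Fin n) (Fin n) ℂ) : c1 n A * c1 n A' = c1 n (A * A') := rfl

lemma c1_one : c1 n 1 = 1 := rfl

/-- the pseudo-reflections -/
noncomputable def Mr (n : ℕ) (q : ℂ) (l : ℕ) : Matrix (Fin n) (Fin n) ℂ := 1 + (q - 1) • B n l l

lemma Mr_mul {q q' : ℂ} {l : ℕ} (hl : l < n) : Mr n q l * Mr n q' l = Mr n (q * q') l := by
  unfold Mr
  have h1 : B n l l * B n l l = B n l l := by rw [BB l l l hl, tt_self, one_smul]
  simp only [mul_add, add_mul, mul_one, one_mul, smul_mul_assoc, mul_smul_comm, h1, smul_smul]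
  module

lemma Mr_one (l : ℕ) : Mr n 1 l = 1 := by
  unfold Mr
  rw [sub_self, zero_smul, add_zero]

/-- the quadratic polynomial curve -/
noncomputable def cur (N N2 : Matrix (Fin n) (Fin n) ℂ) : Matrix (Fin n) (Fin n) ℂ[X] :=
  Matrix.of fun a b => C ((1 : Matrix (Fin n) (Fin n) ℂ) a b) + Polynomial.X * C (N a b) +
    (Polynomial.X ^ 2 - Polynomial.X) * C (1 / 2 * N2 a b)

lemma cur_eval (N N2 : Matrix (Fin n) (Fin n) ℂ) (c : ℂ) : (cur N N2).map (Polynomial.eval c) =
    1 + c • N + ((c ^ 2 - c) / 2) • N2 := by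
  ext a b
  unfold cur
  simp only [Matrix.map_apply, Matrix.of_apply, Matrix.add_apply, Matrix.smul_apply, smul_eq_mul]
  simp
  ring

lemma cur_deriv (N N2 : Matrix (Fin n) (Fin n) ℂ) : ((cur N N2).map fun p => (derivative p).eval 0) =
    N - (1 / 2 : ℂ) • N2 := by
  ext a b
  unfold cur
  simp only [Matrix.map_apply, Matrix.of_apply, Matrix.sub_apply, Matrix.smul_apply, smul_eq_mul]
  simp
  ring

lemma pow_cur {N : Matrix (Fin n) (Fin n) ℂ} (h3 : N * N * N = 0) (m : ℕ) :
    (1 + N) ^ m = 1 + (m : ℂ) • N + (((m : ℂ) ^ 2 - m) / 2) • (N * N) := by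
  induction m with
  | zero => simp
  | succ m ih =>
    rw [pow_succ, ih]
    push_cast
    simp only [mul_add, add_mul, mul_one, one_mul, smul_mul_assoc, h3, smul_zero, add_zero]
    module

/-- the monoid homomorphism -/
def c1h (n : ℕ) : Matrix (Fin n) (Fin n) ℂ →* MT (fun _ : Unit => n) where
  toFun A := fun _ => A
  map_one' := rfl
  map_mul' _ _ := rfl

lemma sl_of_trans [Nontrivial (Fin n)] (S : Submonoid (Matrix (Fin n) (Fin n) ℂ))
    (h : ∀ a b : Fin n, a ≠ b → ∀ c : ℂ, Matrix.transvection a b c ∈ S) (A : Matrix (Fin n) (Fin n) ℂ)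
    (hA : A.det = 1) : A ∈ S := by
  have key : ∀ A : SpecialLinearGroup (Fin n) ℂ, A.1 ∈ S := by
    intro A
    induction A using Pool.Agent.H463R3.PSLn.transvection_induction with
    | htransvec a b hab c => exact h a b hab c
    | hmul A A' hA hA' => exact S.mul_mem hA hA'
  exact key ⟨A, hA⟩

theorem sl_gal {U : Set (X → ℂ)} {Y : (X → ℂ) → MT (fun _ : Unit => n)} (hn : ¬ 3 ∣ n + 1) {q : ℂ}
    (hq : q ^ 2 + q + 1 = 0) (hM : ∀ l < n, c1 n (Mr n q l) ∈ GalT U Y) :
    ∀ g : MT (fun _ : Unit => n), (∀ j, (g j).det = 1) → g ∈ GalT U Y := by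
  have hq3 : q * q ^ 2 = 1 := by linear_combination (q - 1) * hq
  have hM2 : ∀ l < n, c1 n (Mr n (q ^ 2) l) ∈ GalT U Y := by
    intro l hl
    have h1 := (GalT U Y).mul_mem (hM l hl) (hM l hl)
    rwa [c1_mul, Mr_mul hl, ← pow_two] at h1
  have e12 : ∀ l < n, c1 n (Mr n q l) * c1 n (Mr n (q ^ 2) l) = 1 := by
    intro l hl
    rw [c1_mul, Mr_mul hl, hq3, Mr_one, c1_one]
  have e21 : ∀ l < n, c1 n (Mr n (q ^ 2) l) * c1 n (Mr n q l) = 1 := by
    intro l hl
    rw [c1_mul, Mr_mul hl, mul_comm, hq3, Mr_one, c1_one]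
  rcases Nat.lt_or_ge n 3 with hn3 | hn3
  · -- small cases
    intro g hg
    have hg1 : g = 1 := by
      funext j
      have h1 := hg j
      interval_cases n
      · ext a
        exact a.elim0
      · ext a b
        rw [Matrix.det_fin_one] at h1
        obtain rfl : a = 0 := Subsingleton.elim _ _
        obtain rfl : b = 0 := Subsingleton.elim _ _
        rw [h1]
        rfl
      · exact absurd (by norm_num : 3 ∣ 2 + 1) hn
    rw [hg1]
    exact (GalT U Y).one_mem
  · have hN0 : 0 < n := by omega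
    have hN1 : 1 < n := by omega
    have t01 : tt 0 1 = 1 := tt_succ 0
    have t10 : tt 1 0 = 1 := tt_succ' 0
    set L : Submodule ℂ (Matrix (Fin n) (Fin n) ℂ) := (LieT U Y).comap (c1 n) with hL
    have hA1 : ∀ l < n, ∀ T ∈ L, Mr n q l * T * Mr n (q ^ 2) l ∈ L := by
      intro l hl T hT
      exact conj_mem (hM2 l hl) (hM l hl) (e21 l hl) (e12 l hl) hT
    have hA2 : ∀ l < n, ∀ T ∈ L, Mr n (q ^ 2) l * T * Mr n q l ∈ L := by
      intro l hl T hT
      exact conj_mem (hM l hl) (hM2 l hl) (e12 l hl) (e21 l hl) hT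
    have f1 : ∀ (E T : Matrix (Fin n) (Fin n) ℂ), (1 + (q - 1) • E) * T * (1 + (q ^ 2 - 1) • E) =
        T + (q - 1) • (E * T) + (q ^ 2 - 1) • (T * E) + (3 : ℂ) • (E * T * E) := by
      intro E T
      have h1 : (q - 1) * (q ^ 2 - 1) = 3 := by linear_combination (q - 2) * hq
      rw [← h1]
      simp only [mul_add, add_mul, mul_one, one_mul, smul_mul_assoc, mul_smul_comm, smul_smul]
      module
    have f2 : ∀ (E T : Matrix (Fin n) (Fin n) ℂ), (1 + (q ^ 2 - 1) • E) * T * (1 + (q - 1) • E) =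
        T + (q ^ 2 - 1) • (E * T) + (q - 1) • (T * E) + (3 : ℂ) • (E * T * E) := by
      intro E T
      have h1 : (q - 1) * (q ^ 2 - 1) = 3 := by linear_combination (q - 2) * hq
      rw [← h1]
      simp only [mul_add, add_mul, mul_one, one_mul, smul_mul_assoc, mul_smul_comm, smul_smul]
      module
    have hq4 : q ^ 2 = -q - 1 := by linear_combination hq
    have h1 : ∀ m < n, ∀ T ∈ L, B n m m * T - B n m m * T * B n m m ∈ L := by
      intro m hm T hT
      have h3 := L.add_mem (L.add_mem (L.smul_mem (q ^ 2 / 3) (hA1 m hm T hT)) (L.smul_mem (q / 3) (hA2 m hm T hT)))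
        (L.smul_mem (1 / 3) hT)
      convert h3 using 1
      unfold Mr
      rw [f1, f2]
      match_scalars
      · linear_combination (1 / 3 : ℂ) * (3 - 2 * q) * hq
      · linear_combination (1 / 3 : ℂ) * (-3) * hq
      · linear_combination (-1 / 3 : ℂ) * hq
      · linear_combination (-1 / 3 : ℂ) * (q ^ 2 - q) * hq
    have h2 : ∀ m < n, ∀ T ∈ L, T * B n m m - B n m m * T * B n m m ∈ L := by
      intro m hm T hT
      have h3 := L.add_mem (L.add_mem (L.smul_mem (q / 3) (hA1 m hm T hT)) (L.smul_mem (q ^ 2 / 3) (hA2 m hm T hT)))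
        (L.smul_mem (1 / 3) hT)
      convert h3 using 1
      unfold Mr
      rw [f1, f2]
      match_scalars
      · linear_combination (1 / 3 : ℂ) * (3 - 2 * q) * hq
      · linear_combination (1 / 3 : ℂ) * (-3) * hq
      · linear_combination (-1 / 3 : ℂ) * hq
      · linear_combination (-1 / 3 : ℂ) * (q ^ 2 - q) * hq
    -- the unipotent element
    set N : Matrix (Fin n) (Fin n) ℂ := (q - 1) • B n 0 0 + (q ^ 2 - 1) • B n 1 1 + (3 : ℂ) • B n 0 1 with hN
    have hab : (q - 1) * (q ^ 2 - 1) = 3 := by linear_combination (q - 2) * hq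
    have hNM : 1 + N = Mr n q 0 * Mr n (q ^ 2) 1 := by
      rw [hN]
      unfold Mr
      rw [← hab]
      simp only [mul_add, add_mul, mul_one, one_mul, smul_mul_assoc, mul_smul_comm, smul_smul, BB _ _ _ hN1, t01]
      module
    have hN2 : N * N = (-3 : ℂ) • (B n 0 0 - B n 0 1 - B n 1 0 + B n 1 1) := by
      rw [hN]
      simp only [mul_add, add_mul, smul_mul_assoc, mul_smul_comm, smul_smul, BB _ _ _ hN1, BB _ _ _ hN0, t01, t10,
        tt_self]
      match_scalars
      · linear_combination hq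
      · linear_combination (q - 2) * hq
      · linear_combination (q + 1) * hq
      · linear_combination (q ^ 2 - q + 1) * hq
    have hN3 : N * N * N = 0 := by
      rw [hN2, hN]
      simp only [mul_add, add_mul, sub_mul, mul_sub, smul_mul_assoc, mul_smul_comm, smul_smul, BB _ _ _ hN1,
        BB _ _ _ hN0, t01, t10, tt_self]
      match_scalars <;> linear_combination (0 : ℂ) * hq
    have h0 : (q - 1) • B n 0 0 + (q ^ 2 - 1) • B n 1 1 + (3 : ℂ) • B n 0 1 + (3 / 2 : ℂ) • (B n 0 0 - B n 0 1 -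
        B n 1 0 + B n 1 1) ∈ L := by
      have h3 := lie_of_curve (U := U) (Y := Y) (fun _ : Unit => cur N (N * N)) (fun m => by
        have h4 : (fun _ : Unit => (cur N (N * N)).map (Polynomial.eval (m : ℂ)) : MT (fun _ : Unit => n)) =
            (c1 n (Mr n q 0) * c1 n (Mr n (q ^ 2) 1)) ^ m := by
          funext j
          rw [cur_eval, c1_mul, ← hNM]
          show _ = (1 + N) ^ m
          rw [pow_cur hN3]
        rw [h4]
        exact (GalT U Y).pow_mem ((GalT U Y).mul_mem (hM 0 hN0) (hM2 1 hN1)) m) (by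
        funext j
        rw [cur_eval]
        simp)
      have h5 : N - (1 / 2 : ℂ) • (N * N) ∈ L := by
        rw [hL, Submodule.mem_comap]
        convert h3 using 1
        funext j
        exact (cur_deriv _ _).symm
      rw [hN2] at h5
      convert h5 using 1
      rw [hN]
      module
    have hch := chain L h1 h2 hn3 hq h0
    have hs : ∀ a b : Fin n, a ≠ b → ∀ c : ℂ, c1 n (Matrix.transvection a b c) ∈ GalT U Y := by
      intro a b hab c
      have h3 : c1 n (Matrix.single a b 1) ∈ LieT U Y := single_mem hn L hch hab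
      have h4 : c1 n (Matrix.single a b (1 : ℂ)) * c1 n (Matrix.single a b 1) = 0 := by
        rw [c1_mul, Matrix.single_mul_single_of_ne _ _ _ _ hab.symm, map_zero]
      have h5 := exp_mem h3 h4 c
      convert h5 using 1
      rw [← c1_one, ← map_smul, ← map_add]
      congr 1
      rw [Matrix.transvection, Matrix.smul_single, smul_eq_mul, mul_one]
    have : Nontrivial (Fin n) := ⟨⟨⟨0, hN0⟩, ⟨1, hN1⟩, by simp⟩⟩
    intro g hg
    exact sl_of_trans ((GalT U Y).comap (c1h n)) (fun a b hab c => hs a b hab c) (g ()) (hg ())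

end Pool.Agent.E8helper42.TG
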