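import Pool.Agent.E8helper42.TG.Tor

/-!
# The determinants; the final form
-/

set_option autoImplicit false
set_option linter.unusedSectionVars false

open NumberField Filter

namespace Pool.Agent.E8helper42.TG

open Pool.Agent.Y890.HE (Ord Ord_open Ord_convex Ord_real Ord_nonempty real_zero)
open Pool.Agent.Y119.PLM (MT Ix vt GalT pe UGen IsRelT IsMon mon_mem)
open Pool.Agent.Y890.MV (InnerM omega_gen)
open Pool.Agent.Y124 (Cov)
open Pool.Agent.E8helper42.GF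
open Pool.Agent

/-- the products of the differences -/
lemma VV_vdm (N : ℕ) : ∃ s : ℂ, s ≠ 0 ∧ ∀ e : Fin (N + 1) → ℂ,
    VV e = s * (∏ i, ∏ k ∈ Finset.Ioi i, (e k - e i)) ^ 2 := by
  refine ⟨∏ i : Fin (N + 1), ∏ _k ∈ Finset.Ioi i, (-1 : ℂ), ?_, fun e => ?_⟩
  · exact Finset.prod_ne_zero_iff.2 fun i _ => Finset.prod_ne_zero_iff.2 fun _ _ => by norm_num
  · have h1 : ∀ i : Fin (N + 1), ∏ k ∈ Finset.univ.erase i, (e i - e k) =
        (∏ k ∈ Finset.Iio i, (e i - e k)) * ∏ k ∈ Finset.Ioi i, (e i - e k) := by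
      intro i
      rw [← Finset.prod_union]
      · refine Finset.prod_congr ?_ fun _ _ => rfl
        ext k
        simp only [Finset.mem_erase, Finset.mem_univ, Finset.mem_union, Finset.mem_Iio, Finset.mem_Ioi, and_true]
        exact lt_or_lt_iff_ne.symm
      · rw [Finset.disjoint_left]
        intro k h2 h3
        exact lt_asymm (Finset.mem_Iio.1 h2) (Finset.mem_Ioi.1 h3)
    have h2 : ∏ i : Fin (N + 1), ∏ k ∈ Finset.Iio i, (e i - e k) = ∏ i, ∏ k ∈ Finset.Ioi i, (e k - e i) := by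
      refine Finset.prod_comm' fun i k => ?_
      simp
    have h3 : ∀ i : Fin (N + 1), ∏ k ∈ Finset.Ioi i, (e i - e k) =
        (∏ _k ∈ Finset.Ioi i, (-1 : ℂ)) * ∏ k ∈ Finset.Ioi i, (e k - e i) := by
      intro i
      rw [← Finset.prod_mul_distrib]
      refine Finset.prod_congr rfl fun k _ => ?_
      ring
    unfold VV
    rw [Finset.prod_congr rfl fun i _ => h1 i, Finset.prod_mul_distrib, h2, Finset.prod_congr rfl fun i _ => h3 i,
      Finset.prod_mul_distrib]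
    ring

/-- **the determinant of the periods** -/
theorem det_cube (N : ℕ) : ∃ c : ℂ, c ≠ 0 ∧ ∀ e ∈ Ord N, (Pm e).det ^ 3 =
    c * ∏ i, ∏ k ∈ Finset.Ioi i, (e k - e i) := by
  obtain ⟨c, hc⟩ := Pm_det (n := N)
  obtain ⟨s, hs, hV⟩ := VV_vdm N
  have key : ∀ e ∈ Ord N, (Pm e).det ^ 3 = c / s * ∏ i, ∏ k ∈ Finset.Ioi i, (e k - e i) := by
    intro e he
    have h1 := hc e he
    have h2 : (∏ i, ∏ k ∈ Finset.Ioi i, (e k - e i)) ≠ 0 := by
      intro h3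
      have h4 := VV_ne he
      rw [hV, h3] at h4
      simp at h4
    rw [hV, Matrix.det_vandermonde] at h1
    have h5 : (∏ i, ∏ k ∈ Finset.Ioi i, (e k - e i)) ^ 2 * (s * (Pm e).det ^ 3) =
        (∏ i, ∏ k ∈ Finset.Ioi i, (e k - e i)) ^ 2 * (c * ∏ i, ∏ k ∈ Finset.Ioi i, (e k - e i)) := by
      linear_combination h1
    have h6 := mul_left_cancel₀ (pow_ne_zero 2 h2) h5
    rw [div_mul_eq_mul_div, eq_div_iff hs, ← h6]
    ring
  refine ⟨c / s, ?_, key⟩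
  intro h0
  obtain ⟨e, he, hd⟩ := det_ne (n := N)
  have h1 := key e he
  rw [h0, zero_mul] at h1
  exact hd (pow_eq_zero_iff (by norm_num) |>.1 h1)

section final

variable {κ : Type} [Fintype κ] [DecidableEq κ] {n : κ → ℕ}

/-- all relations come from the determinants -/
def Good (K : Type) [Field K] [NumberField K] (io : K →+* ℂ) (k : ℕ) (T : ℝ) {r : ℕ}
    (C : Matrix (Fin r) (Fin r) ℂ) (P : MT n) : Prop :=
  (∀ F : MvPolynomial (Vr r n) K, Sm k T F → vl io F (C, P) = 0 →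
    ∀ A : MT n, (∀ j, (A j).det = (P j).det) → vl io F (C, A) = 0) ∧
  ∀ S : Set (Pt r n), SubT io k T S → (C, P) ∈ S → ∀ y ∈ S, ∀ A : MT n, (∀ j, (A j).det = (y.2 j).det) → (y.1, A) ∈ S

lemma good_of {K : Type} [Field K] [NumberField K] {io : K →+* ℂ} {k : ℕ} {T : ℝ} {r : ℕ}
    {C : Matrix (Fin r) (Fin r) ℂ} {P : MT n} (hP : ∀ j, (P j).det ≠ 0)
    (h : ∀ F : MvPolynomial (Vr r n) K, Sm k T F → vl io F (C, P) = 0 →
      ∀ g : MT n, (∀ j, (g j).det = 1) → vl io F (C, P * g) = 0) : Good K io k T C P := by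
  have hfac : ∀ (Q A : MT n), (∀ j, (Q j).det ≠ 0) → (∀ j, (A j).det = (Q j).det) →
      ∃ g : MT n, (∀ j, (g j).det = 1) ∧ Q * g = A := by
    intro Q A hQ hA
    refine ⟨fun j => (Q j)⁻¹ * A j, fun j => ?_, ?_⟩
    · rw [Matrix.det_mul, Matrix.det_nonsing_inv, Ring.inverse_eq_inv', hA j]
      exact inv_mul_cancel₀ (hQ j)
    · funext j
      rw [Pi.mul_apply, ← Matrix.mul_assoc, Matrix.mul_nonsing_inv _ (Ne.isUnit (hQ j)), Matrix.one_mul]
  refine ⟨fun F hF h0 A hA => ?_, fun S hS hCP y hy A hA => ?_⟩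
  · obtain ⟨g, hg, rfl⟩ := hfac P A hP hA
    exact h F hF h0 g hg
  · have hyu := hS.unit y hy
    have hyd : ∀ j, (y.2 j).det ≠ 0 := fun j => ((Matrix.isUnit_iff_isUnit_det _).1 ((unit_iff.1 hyu).2 j)).ne_zero
    obtain ⟨g, hg, rfl⟩ := hfac y.2 A hyd hA
    have hCPu := hS.unit _ hCP
    have hgu : IsUnit ((C, P * g) : Pt r n) := by
      refine unit_iff.2 ⟨(unit_iff.1 hCPu).1, fun j => ?_⟩
      rw [Matrix.isUnit_iff_isUnit_det]
      show IsUnit (P j * g j).det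
      rw [Matrix.det_mul, hg j, mul_one]
      exact (hP j).isUnit
    have h1 : ((C, P * g) : Pt r n) ∈ S := by
      obtain ⟨Φ, hΦ, hS'⟩ := hS.eqs
      rw [hS' _ hgu]
      intro F hF
      exact h F (hΦ F hF) ((hS' _ hCPu).1 hCP F hF) g hg
    have h2 := hS.tor y hy (C, P) hCP _ h1
    have h3 : y * (C, P)⁻¹ * ((C, P * g) : Pt r n) = (y.1, y.2 * g) := by
      have h4 : ((C, P * g) : Pt r n) = (C, P) * (1, g) := Prod.ext (mul_one C).symm rfl
      rw [h4, mul_assoc, ← mul_assoc (C, P)⁻¹, mul_inv_pt hCPu, one_mul]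
      exact Prod.ext (mul_one y.1) rfl
    rw [h3] at h2
    exact h2

variable [Nonempty κ]

instance : Nonempty (XX n) := ⟨⟨Classical.arbitrary κ, 0⟩⟩

/-- the exceptional points -/
def ExcS (k : ℕ) (K : Type) [Field K] [NumberField K] (io : K →+* ℂ)
    (M : Σ r : Fin (k + 1), Matrix (Fin r) (Fin r) ℂ) (T : ℝ) : Set (XX n → K) :=
  {s | (∀ i, Y120.HtLe K T (s i)) ∧ (fun i => io (s i)) ∈ InnerM (UU n) k ∧
    ¬ Good K io k T M.2 (YY fun i => io (s i))}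

theorem hyp_YY (hn : ∀ j, ¬ 3 ∣ n j + 1) : Hyp (UU n) YY (fun x => dg (YY x)) (SLT n) :=
  hyp_SL UU_convex.isPreconnected UU_open UU_nonempty YY_an YY_alg YY_det (prod_gal hn)

lemma YY_det_ne {x : XX n → ℂ} (hx : x ∈ UU n) (j : κ) : (YY x j).det ≠ 0 := by
  obtain ⟨c, hc, h⟩ := det_cube (n j)
  have h1 := h _ (hx j)
  intro h0
  have h2 : (Pm (br x j)).det = 0 := h0
  rw [h2] at h1
  have h3 : c * ∏ i, ∏ k ∈ Finset.Ioi i, (br x j k - br x j i) ≠ 0 := by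
    refine mul_ne_zero hc (Finset.prod_ne_zero_iff.2 fun i _ => Finset.prod_ne_zero_iff.2 fun k hk => ?_)
    exact Ord_ne (hx j) (Finset.mem_Ioi.1 hk).ne'
  apply h3
  rw [← h1]
  norm_num

theorem cov_excS (hn : ∀ j, ¬ 3 ∣ n j + 1) (k : ℕ) (ε : ℝ) (hε : 0 < ε) :
    ∃ (D : ℕ) (C T₀ : ℝ), 0 ≤ C ∧ 2 ≤ T₀ ∧
      ∀ (K : Type) [Field K] [NumberField K], Module.finrank ℚ K ≤ k → ∀ (io : K →+* ℂ)
        (M : Σ r : Fin (k + 1), Matrix (Fin r) (Fin r) ℂ) (T : ℝ), T₀ ≤ T → Cov D ⌊C * T ^ ε⌋₊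
          ((fun (s : XX n → K) j => io (s j)) '' ExcS k K io M T) := by
  rcases Nat.eq_zero_or_pos k with rfl | hk
  · refine ⟨0, 0, 2, le_rfl, le_rfl, fun K _ _ hK => ?_⟩
    have h1 : 0 < Module.finrank ℚ K := Module.finrank_pos
    omega
  obtain ⟨D, C, T₀, hC, hT₀, H⟩ := cov_excR (hyp_YY hn) k ε hε
  refine ⟨D, C, T₀, hC, hT₀, fun K _ _ hK io M T hT => (H K hK io M T hT).mono le_rfl le_rfl (Set.image_mono ?_)⟩
  rintro s ⟨h1, h2, h3⟩
  refine ⟨h1, h2, ?_⟩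
  by_contra h4
  apply h3
  have hU : (fun i => io (s i)) ∈ UU n := Y890.MV.innerM_sub _ hk h2
  refine good_of (YY_det_ne hU) fun F hF h0 g hg => ?_
  by_contra h5
  apply h4
  refine ⟨F, hF, h0, g, ?_, h5⟩
  rw [SLT_set]
  exact hg

end final

end Pool.Agent.E8helper42.TG
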