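import Pool.Agent.E8helper42.TG.Per

/-!
# Derivatives of the integrals between neighbouring points
-/

set_option autoImplicit false
set_option linter.unusedSectionVars false

open Complex Set MeasureTheory Filter Topology intervalIntegral

namespace Pool.Agent.E8helper42.TG

variable {n : ℕ}

/-- the segment between the points `l` and `l + 1` -/
noncomputable def dd (l : Fin n) (e : Fin (n + 1) → ℂ) : ℂ := e l.succ - e l.castSucc

/-- the integral without the power of the length -/
noncomputable def II (α : Fin (n + 1) → ℂ) (l : Fin n) (e : Fin (n + 1) → ℂ) : ℂ :=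
  GI (Finset.Iio l.castSucc) (Finset.Ioi l.succ) α (α l.castSucc) (α l.succ) (fun e => e l.castSucc)
    (fun e => e l.succ) e

/-- the integral from `e l` to `e (l + 1)` of the product of the powers -/
noncomputable def JJ (α : Fin (n + 1) → ℂ) (l : Fin n) (e : Fin (n + 1) → ℂ) : ℂ :=
  dd l e ^ (1 + α l.castSucc + α l.succ) * II α l e

/-- the domain -/
def Dm (l : Fin n) : Set (Fin (n + 1) → ℂ) :=
  {e | Ok (Finset.Iio l.castSucc) (Finset.Ioi l.succ) e (e l.castSucc) ∧
    Ok (Finset.Iio l.castSucc) (Finset.Ioi l.succ) e (e l.succ)}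

lemma ok_open {X : Type} [Fintype X] (Lf Rt : Finset X) {A : (X → ℂ) → ℂ} (hA : Continuous A) :
    IsOpen {e : X → ℂ | Ok Lf Rt e (A e)} := by
  have h : {e : X → ℂ | Ok Lf Rt e (A e)} = (⋂ i ∈ Lf, {e : X → ℂ | (e i).re < (A e).re}) ∩
      ⋂ i ∈ Rt, {e : X → ℂ | (A e).re < (e i).re} := by
    ext e
    simp [Ok]
  rw [h]
  refine IsOpen.inter ?_ ?_
  · exact isOpen_biInter_finset fun i _ => isOpen_lt (by fun_prop) (by fun_prop)
  · exact isOpen_biInter_finset fun i _ => isOpen_lt (by fun_prop) (by fun_prop)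

lemma Dm_open (l : Fin n) : IsOpen (Dm l) :=
  (ok_open _ _ (A := fun e => e l.castSucc) (by fun_prop)).inter (ok_open _ _ (A := fun e => e l.succ) (by fun_prop))

lemma II_an (l : Fin n) {α : Fin (n + 1) → ℂ} (ha : -1 < (α l.castSucc).re) (hb : -1 < (α l.succ).re) :
    AnalyticOnNhd ℂ (II α l) (Dm l) :=
  GI_an (Dm_open l) ha hb (by fun_prop) (by fun_prop) (fun _ he => he.1) fun _ he => he.2

lemma JJ_an (l : Fin n) {α : Fin (n + 1) → ℂ} (ha : -1 < (α l.castSucc).re) (hb : -1 < (α l.succ).re) :
    AnalyticOnNhd ℂ (JJ α l) (Dm l ∩ {e | 0 < (dd l e).re}) := by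
  intro e he
  have h1 := II_an l ha hb e he.1
  have h2 : AnalyticAt ℂ (fun e : Fin (n + 1) → ℂ => dd l e) e := by
    have h3 : ∀ i : Fin (n + 1), AnalyticAt ℂ (fun e : Fin (n + 1) → ℂ => e i) e := fun i =>
      (ContinuousLinearMap.proj (R := ℂ) (φ := fun _ : Fin (n + 1) => ℂ) i).analyticAt e
    exact (h3 l.succ).sub (h3 l.castSucc)
  exact (h2.cpow analyticAt_const (slit_of_re he.2)).mul h1

/-- the sign -/
noncomputable def sg (l : Fin n) (k : Fin (n + 1)) : ℂ := if k ≤ l.castSucc then 1 else -1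

lemma cs_lt (l : Fin n) : l.castSucc < l.succ := Fin.castSucc_lt_succ

/-- the line -/
noncomputable def ln1 (e : Fin (n + 1) → ℂ) (k : Fin (n + 1)) (t : ℂ) : Fin (n + 1) → ℂ := e + t • Pi.single k 1

lemma ln1_apply (e : Fin (n + 1) → ℂ) (k i : Fin (n + 1)) (t : ℂ) :
    ln1 e k t i = e i + t * (Pi.single k 1 : Fin (n + 1) → ℂ) i := rfl

lemma ln1_deriv (e : Fin (n + 1) → ℂ) (k i : Fin (n + 1)) (t : ℂ) :
    HasDerivAt (fun t => ln1 e k t i) ((Pi.single k 1 : Fin (n + 1) → ℂ) i) t := by
  simp only [ln1_apply]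
  simpa using ((hasDerivAt_id t).mul_const ((Pi.single k 1 : Fin (n + 1) → ℂ) i)).const_add (e i)

lemma ln1_zero (e : Fin (n + 1) → ℂ) (k : Fin (n + 1)) : ln1 e k 0 = e := by
  unfold ln1
  rw [zero_smul, add_zero]

section
variable {α : Fin (n + 1) → ℂ} {l : Fin n} {e : Fin (n + 1) → ℂ}

/-- the integrand -/
noncomputable def hh (α : Fin (n + 1) → ℂ) (l : Fin n) (e : Fin (n + 1) → ℂ) (u : ℝ) : ℂ :=
  gp (Finset.Iio l.castSucc) (Finset.Ioi l.succ) α e (e l.castSucc + u * dd l e)

/-- the sum of the logarithmic derivatives -/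
noncomputable def tl0 (α : Fin (n + 1) → ℂ) (l : Fin n) (e : Fin (n + 1) → ℂ) (u : ℝ) : ℂ :=
  gl (Finset.Iio l.castSucc) (Finset.Ioi l.succ) α e 0 (e l.castSucc + u * dd l e) 1

lemma ok_pt (he : e ∈ Dm l) {u : ℝ} (hu : u ∈ Icc (0 : ℝ) 1) :
    Ok (Finset.Iio l.castSucc) (Finset.Ioi l.succ) e (e l.castSucc + u * dd l e) :=
  ⟨fun i hi => re_between hu (he.1.1 i hi) (he.2.1 i hi), fun i hi => re_between' hu (he.1.2 i hi) (he.2.2 i hi)⟩

lemma hh_cont (he : e ∈ Dm l) : ContinuousOn (hh α l e) (Icc 0 1) := by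
  intro u hu
  refine ContinuousAt.continuousWithinAt ?_
  exact gp_contAt (c := fun _ : ℝ => e) (x := fun u : ℝ => e l.castSucc + u * dd l e) (by fun_prop) (by fun_prop)
    (ok_pt he hu)

lemma tl0_cont (he : e ∈ Dm l) : ContinuousOn (tl0 α l e) (Icc 0 1) := by
  intro u hu
  refine ContinuousAt.continuousWithinAt ?_
  have hok := ok_pt he hu
  unfold tl0 gl
  refine ContinuousAt.add ?_ ?_
  · refine tendsto_finsetSum _ fun i hi => ?_
    refine ContinuousAt.div (by fun_prop) (by fun_prop) (slitPlane_ne_zero (hok.left hi))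
  · refine tendsto_finsetSum _ fun i hi => ?_
    refine ContinuousAt.div (by fun_prop) (by fun_prop) ?_
    have h3 := slitPlane_ne_zero (hok.right hi)
    intro h5
    apply h3
    linear_combination -h5

/-- the derivative along the segment -/
lemma hh_deriv (he : e ∈ Dm l) {u : ℝ} (hu : u ∈ Icc (0 : ℝ) 1) :
    HasDerivAt (hh α l e) (hh α l e u * (dd l e * tl0 α l e u)) u := by
  have h1 : HasDerivAt (fun z : ℂ => gp (Finset.Iio l.castSucc) (Finset.Ioi l.succ) α e (e l.castSucc + z * dd l e))
      (hh α l e u * gl (Finset.Iio l.castSucc) (Finset.Ioi l.succ) α e 0 (e l.castSucc + u * dd l e) (dd l e)) (u : ℂ) := by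
    refine gp_deriv (c := fun _ : ℂ => e) (c' := 0) (x := fun z : ℂ => e l.castSucc + z * dd l e)
      (fun i => hasDerivAt_const _ _) ?_ (ok_pt he hu)
    simpa using ((hasDerivAt_id (u : ℂ)).mul_const (dd l e)).const_add (e l.castSucc)
  refine h1.comp_ofReal.congr_deriv ?_
  congr 1
  unfold tl0 gl
  rw [mul_add, Finset.mul_sum, Finset.mul_sum]
  congr 1 <;>
  · refine Finset.sum_congr rfl fun i _ => ?_
    simp only [Pi.zero_apply, sub_zero]
    ring

/-- the velocity of the point with the parameter `u` -/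
noncomputable def ps (l : Fin n) (k : Fin (n + 1)) (u : ℝ) : ℂ :=
  (Pi.single k 1 : Fin (n + 1) → ℂ) l.castSucc + u * dd l (Pi.single k 1)

lemma gl_cont (he : e ∈ Dm l) (v : Fin (n + 1) → ℂ) {y : ℝ → ℂ} (hy : Continuous y) :
    ContinuousOn (fun u : ℝ => gl (Finset.Iio l.castSucc) (Finset.Ioi l.succ) α e v (e l.castSucc + u * dd l e) (y u))
      (Icc 0 1) := by
  intro u hu
  refine ContinuousAt.continuousWithinAt ?_
  have hok := ok_pt he hu
  unfold gl
  refine ContinuousAt.add ?_ ?_
  · refine tendsto_finsetSum _ fun i hi => ?_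
    refine ContinuousAt.div (by fun_prop) (by fun_prop) (slitPlane_ne_zero (hok.left hi))
  · refine tendsto_finsetSum _ fun i hi => ?_
    refine ContinuousAt.div (by fun_prop) (by fun_prop) ?_
    have h3 := slitPlane_ne_zero (hok.right hi)
    intro h5
    apply h3
    linear_combination -h5

lemma II_deriv (he : e ∈ Dm l) (ha : -1 < (α l.castSucc).re) (hb : -1 < (α l.succ).re) (k : Fin (n + 1)) :
    HasDerivAt (fun t => II α l (ln1 e k t)) (∫ u in (0 : ℝ)..1, wt (α l.castSucc) (α l.succ) u * (hh α l e u *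
      gl (Finset.Iio l.castSucc) (Finset.Ioi l.succ) α e (Pi.single k 1) (e l.castSucc + u * dd l e) (ps l k u))) 0 := by
  refine dint (Dm_open l) (wt_int ha hb)
    (F := fun u e => gp (Finset.Iio l.castSucc) (Finset.Ioi l.succ) α e (e l.castSucc + u * (e l.succ - e l.castSucc)))
    ?_ ?_ he (Pi.single k 1) ?_ ?_
  · rintro ⟨u, e⟩ ⟨hu, he⟩
    refine ContinuousAt.continuousWithinAt ?_
    exact gp_contAt (c := fun p : ℝ × (Fin (n + 1) → ℂ) => p.2)
      (x := fun p : ℝ × (Fin (n + 1) → ℂ) => p.2 l.castSucc + p.1 * (p.2 l.succ - p.2 l.castSucc)) (by fun_prop)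
      (by fun_prop) (ok_pt he hu)
  · intro u hu e he
    exact gp_diffAt (c := fun e : Fin (n + 1) → ℂ => e)
      (x := fun e : Fin (n + 1) → ℂ => e l.castSucc + u * (e l.succ - e l.castSucc)) (fun i => by fun_prop)
      (by fun_prop) (ok_pt he hu)
  · refine (hh_cont he).mul (gl_cont he _ ?_)
    unfold ps
    fun_prop
  · intro u hu
    have h1 := gp_deriv (α := α) (c := fun t : ℂ => ln1 e k t) (c' := Pi.single k 1)
      (x := fun t : ℂ => ln1 e k t l.castSucc + u * (ln1 e k t l.succ - ln1 e k t l.castSucc)) (x' := ps l k u) (t := 0)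
      (Lf := Finset.Iio l.castSucc) (Rt := Finset.Ioi l.succ)
      (fun i => ln1_deriv e k i 0) ((ln1_deriv e k l.castSucc 0).add
        (((ln1_deriv e k l.succ 0).sub (ln1_deriv e k l.castSucc 0)).const_mul (u : ℂ))) (by
          simp only [ln1_zero]
          exact ok_pt he hu)
    simp only [ln1_zero] at h1
    exact h1

lemma gp_upd_left {Lf Rt : Finset (Fin (n + 1))} {x : ℂ} {k : Fin (n + 1)} (hk : k ∈ Lf) (hk' : k ∉ Rt)
    (hok : Ok Lf Rt e x) : gp Lf Rt (Function.update α k (α k - 1)) e x * (x - e k) = gp Lf Rt α e x := by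
  unfold gp
  have h1 : ∀ i ∈ Rt, (e i - x) ^ (Function.update α k (α k - 1)) i = (e i - x) ^ α i := by
    intro i hi
    rw [Function.update_of_ne (fun h : i = k => hk' (h ▸ hi))]
  rw [Finset.prod_congr rfl h1, ← Finset.mul_prod_erase Lf _ hk, ← Finset.mul_prod_erase Lf _ hk,
    Function.update_self]
  have h2 : ∀ i ∈ Lf.erase k, (x - e i) ^ (Function.update α k (α k - 1)) i = (x - e i) ^ α i := by
    intro i hi
    rw [Function.update_of_ne (Finset.ne_of_mem_erase hi)]
  rw [Finset.prod_congr rfl h2, Complex.cpow_sub _ _ (slitPlane_ne_zero (hok.left hk)), Complex.cpow_one]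
  have h3 := slitPlane_ne_zero (hok.left hk)
  field_simp

lemma gp_upd_right {Lf Rt : Finset (Fin (n + 1))} {x : ℂ} {k : Fin (n + 1)} (hk : k ∈ Rt) (hk' : k ∉ Lf)
    (hok : Ok Lf Rt e x) : gp Lf Rt (Function.update α k (α k - 1)) e x * (e k - x) = gp Lf Rt α e x := by
  unfold gp
  have h1 : ∀ i ∈ Lf, (x - e i) ^ (Function.update α k (α k - 1)) i = (x - e i) ^ α i := by
    intro i hi
    rw [Function.update_of_ne (fun h : i = k => hk' (h ▸ hi))]
  rw [Finset.prod_congr rfl h1, ← Finset.mul_prod_erase Rt _ hk, ← Finset.mul_prod_erase Rt _ hk,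
    Function.update_self]
  have h2 : ∀ i ∈ Rt.erase k, (e i - x) ^ (Function.update α k (α k - 1)) i = (e i - x) ^ α i := by
    intro i hi
    rw [Function.update_of_ne (Finset.ne_of_mem_erase hi)]
  rw [Finset.prod_congr rfl h2, Complex.cpow_sub _ _ (slitPlane_ne_zero (hok.right hk)), Complex.cpow_one]
  have h3 := slitPlane_ne_zero (hok.right hk)
  field_simp

lemma gp_upd_none {Lf Rt : Finset (Fin (n + 1))} {x c : ℂ} {k : Fin (n + 1)} (hk : k ∉ Lf) (hk' : k ∉ Rt) :
    gp Lf Rt (Function.update α k c) e x = gp Lf Rt α e x := by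
  unfold gp
  congr 1
  · exact Finset.prod_congr rfl fun i hi => by rw [Function.update_of_ne (fun h : i = k => hk (h ▸ hi))]
  · exact Finset.prod_congr rfl fun i hi => by rw [Function.update_of_ne (fun h : i = k => hk' (h ▸ hi))]

lemma gl_single {Lf Rt : Finset (Fin (n + 1))} {x y : ℂ} {k : Fin (n + 1)} (hk : k ∉ Lf) (hk' : k ∉ Rt) :
    gl Lf Rt α e (Pi.single k 1) x y = y * gl Lf Rt α e 0 x 1 := by
  unfold gl
  rw [mul_add, Finset.mul_sum, Finset.mul_sum]
  congr 1
  · refine Finset.sum_congr rfl fun i hi => ?_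
    rw [Pi.single_eq_of_ne (fun h : i = k => hk (h ▸ hi)), Pi.zero_apply]
    ring
  · refine Finset.sum_congr rfl fun i hi => ?_
    rw [Pi.single_eq_of_ne (fun h : i = k => hk' (h ▸ hi)), Pi.zero_apply]
    ring

lemma gl_left {Lf Rt : Finset (Fin (n + 1))} {x : ℂ} {k : Fin (n + 1)} (hk : k ∈ Lf) (hk' : k ∉ Rt) :
    gl Lf Rt α e (Pi.single k 1) x 0 = -α k / (x - e k) := by
  unfold gl
  rw [Finset.sum_eq_single k, Finset.sum_eq_zero, Pi.single_eq_same]
  · ring
  · intro i hi
    rw [Pi.single_eq_of_ne (fun h : i = k => hk' (h ▸ hi))]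
    ring
  · intro i _ hi
    rw [Pi.single_eq_of_ne hi]
    ring
  · intro h
    exact absurd hk h

lemma gl_right {Lf Rt : Finset (Fin (n + 1))} {x : ℂ} {k : Fin (n + 1)} (hk : k ∈ Rt) (hk' : k ∉ Lf) :
    gl Lf Rt α e (Pi.single k 1) x 0 = -α k / (x - e k) := by
  unfold gl
  rw [Finset.sum_eq_zero, Finset.sum_eq_single k, Pi.single_eq_same]
  · ring
  · intro i _ hi
    rw [Pi.single_eq_of_ne hi]
    ring
  · intro h
    exact absurd hk h
  · intro i hi
    rw [Pi.single_eq_of_ne (fun h : i = k => hk' (h ▸ hi))]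
    ring

lemma dd_deriv (e : Fin (n + 1) → ℂ) (k : Fin (n + 1)) :
    HasDerivAt (fun t => dd l (ln1 e k t)) (dd l (Pi.single k 1)) 0 :=
  (ln1_deriv e k l.succ 0).sub (ln1_deriv e k l.castSucc 0)

lemma pow_deriv (hd : 0 < (dd l e).re) (k : Fin (n + 1)) (c : ℂ) :
    HasDerivAt (fun t => dd l (ln1 e k t) ^ (1 + c)) ((1 + c) * dd l e ^ c * dd l (Pi.single k 1)) 0 := by
  have h1 := (dd_deriv (l := l) e k).cpow_const (c := 1 + c) (by
    rw [ln1_zero]
    exact slit_of_re hd)
  rw [ln1_zero, add_sub_cancel_left] at h1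
  exact h1

/-- **The derivatives.** -/
theorem JJ_deriv (he : e ∈ Dm l) (hd : 0 < (dd l e).re) (ha : -1 < (α l.castSucc).re) (hb : -1 < (α l.succ).re)
    (k : Fin (n + 1)) (hk : 0 < (α k).re) :
    HasDerivAt (fun t => JJ α l (ln1 e k t)) (-sg l k * α k * JJ (Function.update α k (α k - 1)) l e) 0 := by
  have hI := II_deriv he ha hb k
  have hP := pow_deriv hd k (α l.castSucc + α l.succ)
  have hJ := hP.mul hI
  have hfun : (fun t => JJ α l (ln1 e k t)) = fun t => dd l (ln1 e k t) ^ (1 + (α l.castSucc + α l.succ)) *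
      II α l (ln1 e k t) := by
    funext t
    unfold JJ
    rw [add_assoc]
  rw [hfun]
  refine hJ.congr_deriv ?_
  simp only [ln1_zero]
  have hd0 : dd l e ≠ 0 := slitPlane_ne_zero (slit_of_re hd)
  have hne : l.castSucc ≠ l.succ := (cs_lt l).ne
  rcases lt_trichotomy k l.castSucc with h | h | h
  · -- left
    have hk1 : k ∈ Finset.Iio l.castSucc := Finset.mem_Iio.2 h
    have hk2 : k ∉ Finset.Ioi l.succ := fun h2 => absurd (Finset.mem_Ioi.1 h2) (not_lt.2 (h.trans (cs_lt l)).le)
    have e1 : dd l (Pi.single k 1 : Fin (n + 1) → ℂ) = 0 := by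
      unfold dd
      rw [Pi.single_eq_of_ne h.ne', Pi.single_eq_of_ne (h.trans (cs_lt l)).ne', sub_zero]
    have e2 : ∀ u, ps l k u = 0 := fun u => by
      unfold ps
      rw [e1, Pi.single_eq_of_ne h.ne', mul_zero, add_zero]
    have e3 : sg l k = 1 := if_pos h.le
    have e4 : (Function.update α k (α k - 1)) l.castSucc = α l.castSucc := Function.update_of_ne h.ne' _ _
    have e5 : (Function.update α k (α k - 1)) l.succ = α l.succ := Function.update_of_ne (h.trans (cs_lt l)).ne' _ _
    have e6 : (∫ u in (0 : ℝ)..1, wt (α l.castSucc) (α l.succ) u * (hh α l e u *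
        gl (Finset.Iio l.castSucc) (Finset.Ioi l.succ) α e (Pi.single k 1) (e l.castSucc + u * dd l e) (ps l k u))) =
        -α k * II (Function.update α k (α k - 1)) l e := by
      unfold II GI
      rw [e4, e5, ← intervalIntegral.integral_const_mul]
      refine int_congr fun u hu => ?_
      have hok := ok_pt he (Ioo_subset_Icc_self hu)
      rw [e2, gl_left hk1 hk2]
      unfold hh
      rw [← gp_upd_left hk1 hk2 hok]
      have h3 := slitPlane_ne_zero (hok.left hk1)
      unfold dd at h3 ⊢
      field_simp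
    rw [e1, e3, e6]
    unfold JJ
    rw [e4, e5, add_assoc]
    ring
  · -- the left end
    subst h
    have hk1 : l.castSucc ∉ Finset.Iio l.castSucc := fun h => absurd (Finset.mem_Iio.1 h) (lt_irrefl _)
    have hk2 : l.castSucc ∉ Finset.Ioi l.succ := fun h2 => absurd (Finset.mem_Ioi.1 h2) (not_lt.2 (cs_lt l).le)
    have e1 : dd l (Pi.single l.castSucc 1 : Fin (n + 1) → ℂ) = -1 := by
      unfold dd
      rw [Pi.single_eq_same, Pi.single_eq_of_ne hne.symm, zero_sub]
    have e2 : ∀ u : ℝ, ps l l.castSucc u = 1 - u := fun u => by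
      unfold ps
      rw [e1, Pi.single_eq_same]
      ring
    have e3 : sg l l.castSucc = 1 := if_pos le_rfl
    set a := α l.castSucc with hadef
    set b := α l.succ with hbdef
    have e5 : (Function.update α l.castSucc (a - 1)) l.succ = b := Function.update_of_ne hne.symm _ _
    have hibp := ibp (a := a) (b := b + 1) hk (by simp; linarith)
      (h' := fun u => hh α l e u * (dd l e * tl0 α l e u)) (hh_cont (α := α) he)
      ((hh_cont (α := α) he).mul (continuousOn_const.mul (tl0_cont (α := α) he)))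
      (fun u hu => hh_deriv he (Ioo_subset_Icc_self hu))
    have hm1 : (a - 1).re > -1 := by simp; linarith
    have i1 := wt_mul_int (a := a - 1) (b := b) hm1 hb (hh_cont (α := α) he)
    have i2 := wt_mul_int (a := a) (b := b) ha hb (hh_cont (α := α) he)
    have e6 : ∫ u in (0 : ℝ)..1, wt (a - 1) (b + 1) u * hh α l e u =
        (∫ u in (0 : ℝ)..1, wt (a - 1) b u * hh α l e u) - ∫ u in (0 : ℝ)..1, wt a b u * hh α l e u := by
      rw [← intervalIntegral.integral_sub i1 i2]
      refine int_congr fun u hu => ?_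
      have w1 := wt_right (a := a - 1) (b := b + 1) hu
      have w2 := wt_left (a := a) (b := b) hu
      rw [add_sub_cancel_right] at w1
      rw [← w1, ← w2]
      ring
    rw [add_sub_cancel_right, e6] at hibp
    have e7 : dd l e * (∫ u in (0 : ℝ)..1, wt a b u * (hh α l e u * gl (Finset.Iio l.castSucc) (Finset.Ioi l.succ) α e
        (Pi.single l.castSucc 1) (e l.castSucc + u * dd l e) (ps l l.castSucc u))) =
        ∫ u in (0 : ℝ)..1, wt a (b + 1) u * (hh α l e u * (dd l e * tl0 α l e u)) := by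
      rw [← intervalIntegral.integral_const_mul]
      refine int_congr fun u hu => ?_
      have w1 := wt_right (a := a) (b := b + 1) hu
      rw [add_sub_cancel_right] at w1
      rw [gl_single hk1 hk2, e2, ← w1]
      unfold tl0
      ring
    have e8 : II (Function.update α l.castSucc (a - 1)) l e = ∫ u in (0 : ℝ)..1, wt (a - 1) b u * hh α l e u := by
      unfold II GI
      rw [e5, Function.update_self]
      refine int_congr fun u hu => ?_
      rw [gp_upd_none hk1 hk2]
      rfl
    have e9 : II α l e = ∫ u in (0 : ℝ)..1, wt a b u * hh α l e u := rfl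
    unfold JJ
    rw [e1, e3, Function.update_self, e5, e8, e9]
    have e10 : (1 : ℂ) + (a - 1) + b = a + b := by ring
    have e11 : dd l e ^ (1 + (a + b)) = dd l e ^ (a + b) * dd l e := by
      rw [add_comm, Complex.cpow_add _ _ hd0, Complex.cpow_one]
    rw [e10, e11, mul_assoc (dd l e ^ (a + b)) (dd l e), e7, hibp]
    ring
  · rcases lt_or_ge k l.succ with h' | h'
    · exfalso
      have := Fin.lt_def.1 h
      have := Fin.lt_def.1 h'
      simp at *
      omega
    rcases eq_or_lt_of_le h' with h'' | h''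
    · -- the right end
      subst h''
      have hk1 : l.succ ∉ Finset.Iio l.castSucc := fun h => absurd (Finset.mem_Iio.1 h) (not_lt.2 (cs_lt l).le)
      have hk2 : l.succ ∉ Finset.Ioi l.succ := fun h2 => absurd (Finset.mem_Ioi.1 h2) (lt_irrefl _)
      have e1 : dd l (Pi.single l.succ 1 : Fin (n + 1) → ℂ) = 1 := by
        unfold dd
        rw [Pi.single_eq_same, Pi.single_eq_of_ne hne, sub_zero]
      have e2 : ∀ u : ℝ, ps l l.succ u = u := fun u => by
        unfold ps
        rw [e1, Pi.single_eq_of_ne hne]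
        ring
      have e3 : sg l l.succ = -1 := if_neg (not_le.2 h)
      set a := α l.castSucc with hadef
      set b := α l.succ with hbdef
      have e5 : (Function.update α l.succ (b - 1)) l.castSucc = a := Function.update_of_ne hne _ _
      have hibp := ibp (a := a + 1) (b := b) (by simp; linarith) hk
        (h' := fun u => hh α l e u * (dd l e * tl0 α l e u)) (hh_cont (α := α) he)
        ((hh_cont (α := α) he).mul (continuousOn_const.mul (tl0_cont (α := α) he)))
        (fun u hu => hh_deriv he (Ioo_subset_Icc_self hu))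
      have hm1 : (b - 1).re > -1 := by simp; linarith
      have i1 := wt_mul_int (a := a) (b := b - 1) ha hm1 (hh_cont (α := α) he)
      have i2 := wt_mul_int (a := a) (b := b) ha hb (hh_cont (α := α) he)
      have e6 : ∫ u in (0 : ℝ)..1, wt (a + 1) (b - 1) u * hh α l e u =
          (∫ u in (0 : ℝ)..1, wt a (b - 1) u * hh α l e u) - ∫ u in (0 : ℝ)..1, wt a b u * hh α l e u := by
        rw [← intervalIntegral.integral_sub i1 i2]
        refine int_congr fun u hu => ?_
        have w1 := wt_left (a := a + 1) (b := b - 1) hu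
        have w2 := wt_right (a := a) (b := b) hu
        rw [add_sub_cancel_right] at w1
        rw [← w1, ← w2]
        ring
      rw [add_sub_cancel_right, e6] at hibp
      have e7 : dd l e * (∫ u in (0 : ℝ)..1, wt a b u * (hh α l e u * gl (Finset.Iio l.castSucc) (Finset.Ioi l.succ) α e
          (Pi.single l.succ 1) (e l.castSucc + u * dd l e) (ps l l.succ u))) =
          ∫ u in (0 : ℝ)..1, wt (a + 1) b u * (hh α l e u * (dd l e * tl0 α l e u)) := by
        rw [← intervalIntegral.integral_const_mul]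
        refine int_congr fun u hu => ?_
        have w1 := wt_left (a := a + 1) (b := b) hu
        rw [add_sub_cancel_right] at w1
        rw [gl_single hk1 hk2, e2, ← w1]
        unfold tl0
        ring
      have e8 : II (Function.update α l.succ (b - 1)) l e = ∫ u in (0 : ℝ)..1, wt a (b - 1) u * hh α l e u := by
        unfold II GI
        rw [e5, Function.update_self]
        refine int_congr fun u hu => ?_
        rw [gp_upd_none hk1 hk2]
        rfl
      have e9 : II α l e = ∫ u in (0 : ℝ)..1, wt a b u * hh α l e u := rfl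
      unfold JJ
      rw [e1, e3, Function.update_self, e5, e8, e9]
      have e10 : (1 : ℂ) + a + (b - 1) = a + b := by ring
      have e11 : dd l e ^ (1 + (a + b)) = dd l e ^ (a + b) * dd l e := by
        rw [add_comm, Complex.cpow_add _ _ hd0, Complex.cpow_one]
      rw [e10, e11, mul_assoc (dd l e ^ (a + b)) (dd l e), e7, hibp]
      ring
    · -- right
      have hk1 : k ∈ Finset.Ioi l.succ := Finset.mem_Ioi.2 h''
      have hk2 : k ∉ Finset.Iio l.castSucc := fun h2 => absurd (Finset.mem_Iio.1 h2) (not_lt.2 h.le)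
      have e1 : dd l (Pi.single k 1 : Fin (n + 1) → ℂ) = 0 := by
        unfold dd
        rw [Pi.single_eq_of_ne h.ne, Pi.single_eq_of_ne h''.ne, sub_zero]
      have e2 : ∀ u, ps l k u = 0 := fun u => by
        unfold ps
        rw [e1, Pi.single_eq_of_ne h.ne, mul_zero, add_zero]
      have e3 : sg l k = -1 := if_neg (not_le.2 h)
      have e4 : (Function.update α k (α k - 1)) l.castSucc = α l.castSucc := Function.update_of_ne h.ne _ _
      have e5 : (Function.update α k (α k - 1)) l.succ = α l.succ := Function.update_of_ne h''.ne _ _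
      have e6 : (∫ u in (0 : ℝ)..1, wt (α l.castSucc) (α l.succ) u * (hh α l e u *
          gl (Finset.Iio l.castSucc) (Finset.Ioi l.succ) α e (Pi.single k 1) (e l.castSucc + u * dd l e) (ps l k u))) =
          α k * II (Function.update α k (α k - 1)) l e := by
        unfold II GI
        rw [e4, e5, ← intervalIntegral.integral_const_mul]
        refine int_congr fun u hu => ?_
        have hok := ok_pt he (Ioo_subset_Icc_self hu)
        rw [e2, gl_right hk1 hk2]
        unfold hh
        rw [← gp_upd_right hk1 hk2 hok]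
        have h3 := slitPlane_ne_zero (hok.right hk1)
        have h4 : (e l.castSucc + u * dd l e) - e k ≠ 0 := by
          intro h5
          apply h3
          linear_combination -h5
        unfold dd at h3 h4 ⊢
        field_simp
        ring
      rw [e1, e3, e6]
      unfold JJ
      rw [e4, e5, add_assoc]
      ring

end

end Pool.Agent.E8helper42.TG
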