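import Pool.Agent.E8helper42.TG.Ode

/-!
# The determinant of the periods
-/

set_option autoImplicit false
set_option linter.unusedSectionVars false

open Complex Set MeasureTheory Filter Topology intervalIntegral

namespace Pool.Agent.E8helper42.TG

open Pool.Agent.Y890.HE (Ord Ord_open Ord_convex Ord_real Ord_nonempty real_zero)

variable {n : ℕ}

/-- entrywise derivatives -/
def HDm {m : ℕ} (Y : ℂ → Matrix (Fin m) (Fin m) ℂ) (Y' : Matrix (Fin m) (Fin m) ℂ) (z : ℂ) : Prop :=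
  ∀ i j, HasDerivAt (fun w => Y w i j) (Y' i j) z

/-- the derivative of a determinant -/
lemma hasDerivAt_det {m : ℕ} {Y : ℂ → Matrix (Fin m) (Fin m) ℂ} {Y' : Matrix (Fin m) (Fin m) ℂ} {z : ℂ}
    (h : HDm Y Y' z) :
    HasDerivAt (fun w => (Y w).det) (∑ j, ((Y z).updateCol j (fun i => Y' i j)).det) z := by
  simp only [Matrix.det_apply]
  rw [Finset.sum_comm]
  refine HasDerivAt.fun_sum fun σ _ => ?_
  rw [← Finset.smul_sum]
  have h1 : HasDerivAt (fun w => ∏ i, Y w (σ i) i) (∑ i, (∏ j ∈ Finset.univ.erase i, Y z (σ j) j) • Y' (σ i) i) z :=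
    HasDerivAt.fun_finsetProd fun i _ => h (σ i) i
  have h2 : (∑ i, (∏ j ∈ Finset.univ.erase i, Y z (σ j) j) • Y' (σ i) i) =
      ∑ i, ∏ j, (Y z).updateCol i (fun a => Y' a i) (σ j) j := by
    refine Finset.sum_congr rfl fun i _ => ?_
    rw [← Finset.mul_prod_erase Finset.univ _ (Finset.mem_univ i)]
    simp only [Matrix.updateCol_self]
    rw [smul_eq_mul, mul_comm]
    congr 1
    refine Finset.prod_congr rfl fun j hj => ?_
    rw [Matrix.updateCol_ne (Finset.ne_of_mem_erase hj)]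
  rw [h2] at h1
  exact h1.const_smul _

/-- Jacobi's formula for solutions of linear systems -/
lemma det_ode {m : ℕ} {Y : ℂ → Matrix (Fin m) (Fin m) ℂ} {G : Matrix (Fin m) (Fin m) ℂ} {z : ℂ}
    (h : HDm Y (G * Y z) z) : HasDerivAt (fun w => (Y w).det) (G.trace * (Y z).det) z := by
  refine (hasDerivAt_det h).congr_deriv ?_
  have h1 : ∑ j, ((Y z).updateCol j (fun i => (G * Y z) i j)).det = ((Y z).adjugate * (G * Y z)).trace := by
    rw [Matrix.trace]
    refine Finset.sum_congr rfl fun j _ => ?_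
    rw [← Matrix.cramer_apply, Matrix.cramer_eq_adjugate_mulVec]
    simp [Matrix.mulVec, dotProduct, Matrix.mul_apply]
  rw [h1, ← Matrix.mul_assoc, Matrix.trace_mul_comm, ← Matrix.mul_assoc, Matrix.mul_adjugate, Matrix.smul_mul,
    Matrix.one_mul, Matrix.trace_smul, smul_eq_mul, mul_comm]

/-- the square matrix -/
noncomputable def Wh (e : Fin (n + 1) → ℂ) : Matrix (Fin (n + 1)) (Fin (n + 1)) ℂ :=
  Matrix.of fun i c => Fin.lastCases (motive := fun _ => ℂ) 1 (fun l => WW i l e) c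

lemma Wh_last (e : Fin (n + 1) → ℂ) (i : Fin (n + 1)) : Wh e i (Fin.last n) = 1 := by
  unfold Wh
  rw [Matrix.of_apply, Fin.lastCases_last]

lemma Wh_cast (e : Fin (n + 1) → ℂ) (i : Fin (n + 1)) (l : Fin n) : Wh e i l.castSucc = WW i l e := by
  unfold Wh
  rw [Matrix.of_apply, Fin.lastCases_castSucc]

/-- the matrix of the equations -/
noncomputable def Gk (k : Fin (n + 1)) (e : Fin (n + 1) → ℂ) : Matrix (Fin (n + 1)) (Fin (n + 1)) ℂ :=
  Matrix.of fun i j => if i = k then (if j = k then -∑ m ∈ Finset.univ.erase k, cc m k e else cc j k e)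
    else (if j = k then cc i k e else if j = i then -cc i k e else 0)

lemma Gk_mul_ne {k i : Fin (n + 1)} (h : i ≠ k) (e : Fin (n + 1) → ℂ) (Y : Matrix (Fin (n + 1)) (Fin (n + 1)) ℂ)
    (c : Fin (n + 1)) : (Gk k e * Y) i c = cc i k e * (Y k c - Y i c) := by
  rw [Matrix.mul_apply]
  have h1 : ∀ j, Gk k e i j * Y j c = (if j = k then cc i k e * Y k c else 0) +
      (if j = i then -cc i k e * Y i c else 0) := by
    intro j
    unfold Gk
    rw [Matrix.of_apply, if_neg h]
    by_cases h2 : j = k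
    · subst h2
      rw [if_pos rfl, if_pos rfl, if_neg (Ne.symm h), add_zero]
    · rw [if_neg h2, if_neg h2]
      by_cases h3 : j = i
      · subst h3
        rw [if_pos rfl, if_pos rfl, zero_add]
      · rw [if_neg h3, if_neg h3]
        ring
  rw [Finset.sum_congr rfl fun j _ => h1 j, Finset.sum_add_distrib, Finset.sum_ite_eq' Finset.univ k,
    Finset.sum_ite_eq' Finset.univ i, if_pos (Finset.mem_univ _), if_pos (Finset.mem_univ _)]
  ring

lemma Gk_mul_self (k : Fin (n + 1)) (e : Fin (n + 1) → ℂ) (Y : Matrix (Fin (n + 1)) (Fin (n + 1)) ℂ)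
    (c : Fin (n + 1)) : (Gk k e * Y) k c = ∑ m ∈ Finset.univ.erase k, cc m k e * (Y m c - Y k c) := by
  rw [Matrix.mul_apply, ← Finset.add_sum_erase Finset.univ _ (Finset.mem_univ k)]
  have h1 : Gk k e k k = -∑ m ∈ Finset.univ.erase k, cc m k e := by
    unfold Gk
    rw [Matrix.of_apply, if_pos rfl, if_pos rfl]
  have h2 : ∀ j ∈ Finset.univ.erase k, Gk k e k j * Y j c = cc j k e * Y j c := by
    intro j hj
    unfold Gk
    rw [Matrix.of_apply, if_pos rfl, if_neg (Finset.ne_of_mem_erase hj)]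
  rw [h1, Finset.sum_congr rfl h2, neg_mul, Finset.sum_mul, neg_add_eq_sub, ← Finset.sum_sub_distrib]
  refine Finset.sum_congr rfl fun m _ => by ring

lemma Gk_trace (k : Fin (n + 1)) (e : Fin (n + 1) → ℂ) :
    (Gk k e).trace = -(2 * ∑ m ∈ Finset.univ.erase k, cc m k e) := by
  rw [Matrix.trace, ← Finset.add_sum_erase Finset.univ _ (Finset.mem_univ k)]
  have h1 : (Gk k e).diag k = -∑ m ∈ Finset.univ.erase k, cc m k e := by
    rw [Matrix.diag_apply]
    unfold Gk
    rw [Matrix.of_apply, if_pos rfl, if_pos rfl]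
  have h2 : ∀ j ∈ Finset.univ.erase k, (Gk k e).diag j = -cc j k e := by
    intro j hj
    rw [Matrix.diag_apply]
    unfold Gk
    rw [Matrix.of_apply, if_neg (Finset.ne_of_mem_erase hj), if_neg (Finset.ne_of_mem_erase hj), if_pos rfl]
  rw [h1, Finset.sum_congr rfl h2, Finset.sum_neg_distrib]
  ring

lemma ln1_cont (e : Fin (n + 1) → ℂ) (k : Fin (n + 1)) : Continuous (ln1 e k) := by
  unfold ln1
  fun_prop

lemma ev_Ord {e : Fin (n + 1) → ℂ} (he : e ∈ Ord n) (k : Fin (n + 1)) : ∀ᶠ t in 𝓝 (0 : ℂ), ln1 e k t ∈ Ord n := by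
  have h1 : Tendsto (ln1 e k) (𝓝 0) (𝓝 (ln1 e k 0)) := (ln1_cont e k).tendsto 0
  rw [ln1_zero] at h1
  exact h1 ((Ord_open n).mem_nhds he)

lemma WW_deriv_self {e : Fin (n + 1) → ℂ} (he : e ∈ Ord n) (l : Fin n) (k : Fin (n + 1)) :
    HasDerivAt (fun t => WW k l (ln1 e k t)) (∑ m ∈ Finset.univ.erase k, cc m k e * (WW m l e - WW k l e)) 0 := by
  have h1 : HasDerivAt (fun t => -∑ m ∈ Finset.univ.erase k, WW m l (ln1 e k t))
      (-∑ m ∈ Finset.univ.erase k, cc m k e * (WW k l e - WW m l e)) 0 :=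
    (HasDerivAt.fun_sum fun m hm => WW_deriv he l (Finset.ne_of_mem_erase hm)).fun_neg
  have h2 : (fun t => WW k l (ln1 e k t)) =ᶠ[𝓝 0] fun t => -∑ m ∈ Finset.univ.erase k, WW m l (ln1 e k t) := by
    filter_upwards [ev_Ord he k] with t ht
    have h3 := WW_sum ht l
    rw [← Finset.add_sum_erase Finset.univ _ (Finset.mem_univ k)] at h3
    exact eq_neg_of_add_eq_zero_left h3
  refine (h1.congr_of_eventuallyEq h2).congr_deriv ?_
  rw [← Finset.sum_neg_distrib]
  refine Finset.sum_congr rfl fun m _ => by ring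

lemma Wh_ode {e : Fin (n + 1) → ℂ} (he : e ∈ Ord n) (k : Fin (n + 1)) :
    HDm (fun t => Wh (ln1 e k t)) (Gk k e * Wh (ln1 e k 0)) 0 := by
  rw [ln1_zero]
  intro i c
  by_cases h : i = k
  · subst h
    rw [Gk_mul_self]
    refine Fin.lastCases ?_ (fun l => ?_) c
    · simp only [Wh_last, sub_self, mul_zero, Finset.sum_const_zero]
      exact hasDerivAt_const _ _
    · simp only [Wh_cast]
      exact WW_deriv_self he l i
  · rw [Gk_mul_ne h]
    refine Fin.lastCases ?_ (fun l => ?_) c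
    · simp only [Wh_last, sub_self, mul_zero]
      exact hasDerivAt_const _ _
    · simp only [Wh_cast]
      exact WW_deriv he l h

/-- the sum -/
noncomputable def Sk (k : Fin (n + 1)) (e : Fin (n + 1) → ℂ) : ℂ := ∑ m ∈ Finset.univ.erase k, 1 / (e k - e m)

lemma sum_cc {e : Fin (n + 1) → ℂ} (k : Fin (n + 1)) :
    ∑ m ∈ Finset.univ.erase k, cc m k e = -nu * Sk k e := by
  unfold Sk cc
  rw [Finset.mul_sum]
  refine Finset.sum_congr rfl fun m _ => ?_
  rw [← neg_sub (e k) (e m), div_neg]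
  ring

lemma det_deriv {e : Fin (n + 1) → ℂ} (he : e ∈ Ord n) (k : Fin (n + 1)) :
    HasDerivAt (fun t => (Wh (ln1 e k t)).det) (4 / 3 * Sk k e * (Wh e).det) 0 := by
  have h := det_ode (Wh_ode he k)
  rw [Gk_trace, sum_cc] at h
  refine h.congr_deriv ?_
  rw [ln1_zero]
  unfold nu
  ring

/-- the product of the differences -/
noncomputable def VV (e : Fin (n + 1) → ℂ) : ℂ := ∏ i, ∏ j ∈ Finset.univ.erase i, (e i - e j)

lemma VV_ne {e : Fin (n + 1) → ℂ} (he : e ∈ Ord n) : VV e ≠ 0 :=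
  Finset.prod_ne_zero_iff.2 fun i _ => Finset.prod_ne_zero_iff.2 fun _ hj =>
    Ord_ne he (Ne.symm (Finset.ne_of_mem_erase hj))

lemma VV_deriv {e : Fin (n + 1) → ℂ} (he : e ∈ Ord n) (k : Fin (n + 1)) :
    HasDerivAt (fun t => VV (ln1 e k t)) (2 * Sk k e * VV e) 0 := by
  have h1 : ∀ i, HasDerivAt (fun t => ∏ j ∈ Finset.univ.erase i, (ln1 e k t i - ln1 e k t j))
      ((∏ j ∈ Finset.univ.erase i, (ln1 e k 0 i - ln1 e k 0 j)) * ∑ j ∈ Finset.univ.erase i,
        ((Pi.single k 1 : Fin (n + 1) → ℂ) i - (Pi.single k 1 : Fin (n + 1) → ℂ) j) / (e i - e j)) 0 := by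
    intro i
    refine prod_deriv _ fun j hj => ?_
    refine ((ln1_deriv e k i 0).sub (ln1_deriv e k j 0)).congr_deriv ?_
    have h2 := Ord_ne he (Ne.symm (Finset.ne_of_mem_erase hj))
    rw [ln1_zero]
    field_simp
  have h2 := prod_deriv (t := 0) Finset.univ (f := fun i t => ∏ j ∈ Finset.univ.erase i, (ln1 e k t i - ln1 e k t j))
    (fun i _ => h1 i)
  refine h2.congr_deriv ?_
  simp only [ln1_zero]
  have h3 : ∑ i, ∑ j ∈ Finset.univ.erase i,
      ((Pi.single k 1 : Fin (n + 1) → ℂ) i - (Pi.single k 1 : Fin (n + 1) → ℂ) j) / (e i - e j) = 2 * Sk k e := by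
    rw [← Finset.add_sum_erase Finset.univ _ (Finset.mem_univ k)]
    have h4 : ∑ j ∈ Finset.univ.erase k,
        ((Pi.single k 1 : Fin (n + 1) → ℂ) k - (Pi.single k 1 : Fin (n + 1) → ℂ) j) / (e k - e j) = Sk k e := by
      refine Finset.sum_congr rfl fun j hj => ?_
      rw [Pi.single_eq_same, Pi.single_eq_of_ne (Finset.ne_of_mem_erase hj), sub_zero]
    have h5 : ∑ i ∈ Finset.univ.erase k, ∑ j ∈ Finset.univ.erase i,
        ((Pi.single k 1 : Fin (n + 1) → ℂ) i - (Pi.single k 1 : Fin (n + 1) → ℂ) j) / (e i - e j) = Sk k e := by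
      refine Finset.sum_congr rfl fun i hi => ?_
      have hik := Finset.ne_of_mem_erase hi
      rw [Finset.sum_eq_single k]
      · rw [Pi.single_eq_same, Pi.single_eq_of_ne hik, zero_sub, ← neg_sub (e k) (e i), neg_div_neg_eq]
      · intro j _ hj
        rw [Pi.single_eq_of_ne hik, Pi.single_eq_of_ne hj, sub_zero, zero_div]
      · intro h
        exact absurd (Finset.mem_erase.2 ⟨hik.symm, Finset.mem_univ _⟩) h
    rw [h4, h5]
    ring
  rw [h3]
  unfold VV
  ring

lemma fderiv_zero {f : (Fin (n + 1) → ℂ) → ℂ} {e : Fin (n + 1) → ℂ} (hf : DifferentiableAt ℂ f e)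
    (h : ∀ k, HasDerivAt (fun t => f (ln1 e k t)) 0 0) : fderiv ℂ f e = 0 := by
  have h1 : ∀ k, fderiv ℂ f e (Pi.single k 1) = 0 := fun k => (line_deriv hf k).unique (h k)
  refine ContinuousLinearMap.ext fun v => ?_
  have h2 : v = ∑ k, v k • (Pi.single k 1 : Fin (n + 1) → ℂ) := by
    funext i
    rw [Finset.sum_apply, Finset.sum_eq_single i]
    · simp
    · intro k _ hk
      rw [Pi.smul_apply, Pi.single_eq_of_ne (Ne.symm hk), smul_zero]
    · intro h
      exact absurd (Finset.mem_univ _) h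
  rw [h2, map_sum]
  simp [h1]

lemma coord_diff (i : Fin (n + 1)) : Differentiable ℂ fun e : Fin (n + 1) → ℂ => e i := by fun_prop

lemma VV_diff : Differentiable ℂ (VV : (Fin (n + 1) → ℂ) → ℂ) := by
  intro e
  exact prod_diffAt (f := fun i (e : Fin (n + 1) → ℂ) => ∏ j ∈ Finset.univ.erase i, (e i - e j)) _ fun i _ =>
    prod_diffAt (f := fun j (e : Fin (n + 1) → ℂ) => e i - e j) _ fun j _ =>
      ((coord_diff i).differentiableAt.sub (coord_diff j).differentiableAt)

lemma Wh_diff {e : Fin (n + 1) → ℂ} (he : e ∈ Ord n) (i c : Fin (n + 1)) :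
    DifferentiableAt ℂ (fun e => Wh e i c) e := by
  refine Fin.lastCases ?_ (fun l => ?_) c
  · simp only [Wh_last]
    exact differentiableAt_const _
  · simp only [Wh_cast]
    exact (WW_an i l e he).differentiableAt

lemma det_diff {m : ℕ} {M : (Fin (n + 1) → ℂ) → Matrix (Fin m) (Fin m) ℂ} {e : Fin (n + 1) → ℂ}
    (h : ∀ i j, DifferentiableAt ℂ (fun e => M e i j) e) : DifferentiableAt ℂ (fun e => (M e).det) e := by
  simp only [Matrix.det_apply]
  refine DifferentiableAt.fun_sum fun σ _ => ?_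
  refine DifferentiableAt.const_smul ?_ _
  exact prod_diffAt (f := fun i (e : Fin (n + 1) → ℂ) => M e (σ i) i) _ fun i _ => h _ _

/-- **The determinant.** -/
theorem det_const : ∃ c : ℂ, ∀ e ∈ Ord n, (Wh e).det ^ 3 = c * VV e ^ 2 := by
  have hd : ∀ e ∈ Ord n, DifferentiableAt ℂ (fun e => (Wh e).det ^ 3 / VV e ^ 2) e := by
    intro e he
    have d1 : DifferentiableAt ℂ (fun e => (Wh e).det ^ 3) e := (det_diff fun i j => Wh_diff he i j).fun_pow 3
    have d2 : DifferentiableAt ℂ (fun e : Fin (n + 1) → ℂ => VV e ^ 2) e := VV_diff.differentiableAt.fun_pow 2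
    have d3 := d2.fun_inv (pow_ne_zero _ (VV_ne he))
    simp only [div_eq_mul_inv]
    exact d1.fun_mul d3
  obtain ⟨c, hc⟩ := (Ord_open n).exists_is_const_of_fderiv_eq_zero (Ord_convex n).isPreconnected
    (f := fun e => (Wh e).det ^ 3 / VV e ^ 2) (fun e he => (hd e he).differentiableWithinAt) (fun e he => by
      refine fderiv_zero (hd e he) fun k => ?_
      have h1 := ((det_deriv he k).fun_pow 3).fun_div ((VV_deriv he k).fun_pow 2) (by
        rw [ln1_zero]
        exact pow_ne_zero _ (VV_ne he))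
      refine h1.congr_deriv ?_
      simp only [ln1_zero]
      rw [div_eq_zero_iff]
      left
      push_cast
      ring)
  refine ⟨c, fun e he => ?_⟩
  have h1 : (Wh e).det ^ 3 / VV e ^ 2 = c := hc e he
  rw [← h1, div_mul_cancel₀]
  exact pow_ne_zero _ (VV_ne he)

end Pool.Agent.E8helper42.TG
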