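import Pool.Agent.Y119.PLM.GReg

/-!
# The Lie algebra of the group of the matrices which preserve the relations
-/

set_option autoImplicit false
set_option linter.unusedSectionVars false

open Matrix Polynomial

namespace Pool.Agent.E8helper42.TG

open Pool.Agent.Y119.PLM Pool.Agent.Y119.HY

variable {X κ : Type} [Fintype X] {n : κ → ℕ} {U : Set (X → ℂ)} {Y : (X → ℂ) → MT n}

/-- the derivation -/
noncomputable def dv (Z : MT n) : Derivation (MvPolynomial X ℂ) (MvPolynomial (Ix n) (MvPolynomial X ℂ))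
    (MvPolynomial (Ix n) (MvPolynomial X ℂ)) :=
  MvPolynomial.mkDerivation (MvPolynomial X ℂ) fun i : Ix n =>
    ∑ k, MvPolynomial.X ⟨i.1, i.2.1, k⟩ * MvPolynomial.C (MvPolynomial.C (Z i.1 k i.2.2))

lemma dv_X (Z : MT n) (i : Ix n) : dv (X := X) Z (MvPolynomial.X i) =
    ∑ k, MvPolynomial.X ⟨i.1, i.2.1, k⟩ * MvPolynomial.C (MvPolynomial.C (Z i.1 k i.2.2)) :=
  MvPolynomial.mkDerivation_X _ _ _

lemma vt_dv_X (Z : MT n) (i : Ix n) (x : X → ℂ) (A : MT n) : vt (dv Z (MvPolynomial.X i)) x A =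
    (A * Z) i.1 i.2.1 i.2.2 := by
  rw [dv_X, Pi.mul_apply, Matrix.mul_apply]
  unfold vt
  simp [MvPolynomial.eval₂_sum]

/-- the chain rule -/
lemma vtp_deriv (Z : MT n) (A : (j : κ) → Matrix (Fin (n j)) (Fin (n j)) ℂ[X]) (c : ℂ) (x : X → ℂ)
    (hA : ∀ i : Ix n, (derivative (A i.1 i.2.1 i.2.2)).eval c =
      ((fun j => (A j).map (Polynomial.eval c) : MT n) * Z) i.1 i.2.1 i.2.2)
    (R : MvPolynomial (Ix n) (MvPolynomial X ℂ)) :
    (derivative (vtp R x A)).eval c = vt (dv Z R) x (fun j => (A j).map (Polynomial.eval c)) := by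
  induction R using MvPolynomial.induction_on with
  | C a =>
    rw [MvPolynomial.derivation_C]
    unfold vt vtp
    simp
  | add p q hp hq =>
    have h1 : vtp (p + q) x A = vtp p x A + vtp q x A := by
      unfold vtp
      exact MvPolynomial.eval₂_add _ _
    rw [h1, map_add, Polynomial.eval_add, hp, hq, map_add]
    unfold vt
    exact (MvPolynomial.eval₂_add _ _).symm
  | mul_X p i hp =>
    have h1 : vtp (p * MvPolynomial.X i) x A = vtp p x A * A i.1 i.2.1 i.2.2 := by
      unfold vtp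
      rw [MvPolynomial.eval₂_mul, MvPolynomial.eval₂_X]
    have h2 : dv Z (p * MvPolynomial.X i) = p * dv Z (MvPolynomial.X i) + MvPolynomial.X i * dv Z p := by
      rw [Derivation.leibniz, smul_eq_mul, smul_eq_mul]
    rw [h1, derivative_mul, Polynomial.eval_add, Polynomial.eval_mul, Polynomial.eval_mul, hp, hA, h2]
    have h3 : ∀ (p q : MvPolynomial (Ix n) (MvPolynomial X ℂ)) (A : MT n), vt (p + q) x A = vt p x A + vt q x A :=
      fun p q A => MvPolynomial.eval₂_add _ _
    have h4 : ∀ (p q : MvPolynomial (Ix n) (MvPolynomial X ℂ)) (A : MT n), vt (p * q) x A = vt p x A * vt q x A :=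
      fun p q A => MvPolynomial.eval₂_mul _ _
    have h5 : vt (MvPolynomial.X i) x (fun j => (A j).map (Polynomial.eval c)) = (A i.1 i.2.1 i.2.2).eval c := by
      unfold vt
      rw [MvPolynomial.eval₂_X]
      rfl
    rw [h3, h4, h4, vt_dv_X, h5, eval_vtp]
    ring

/-- the Lie algebra -/
def LieT (U : Set (X → ℂ)) (Y : (X → ℂ) → MT n) : Submodule ℂ (MT n) where
  carrier := {Z | ∀ R, IsRelT U Y R → IsRelT U Y (dv Z R)}
  add_mem' := by
    intro Z Z' hZ hZ' R hR x hx
    have h1 : dv (X := X) (Z + Z') = dv Z + dv Z' := by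
      refine MvPolynomial.derivation_ext fun i => ?_
      rw [Derivation.add_apply, dv_X, dv_X, dv_X, ← Finset.sum_add_distrib]
      refine Finset.sum_congr rfl fun k _ => ?_
      rw [← mul_add, ← map_add, ← map_add]
      rfl
    rw [h1, Derivation.add_apply]
    have h2 := hZ R hR x hx
    have h3 := hZ' R hR x hx
    unfold vt at h2 h3 ⊢
    rw [MvPolynomial.eval₂_add, h2, h3, add_zero]
  zero_mem' := by
    intro R hR x hx
    have h1 : dv (X := X) (0 : MT n) = 0 := by
      refine MvPolynomial.derivation_ext fun i => ?_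
      rw [dv_X, Derivation.zero_apply]
      refine Finset.sum_eq_zero fun k _ => ?_
      simp
    rw [h1, Derivation.zero_apply]
    unfold vt
    rw [MvPolynomial.eval₂_zero]
  smul_mem' := by
    intro c Z hZ R hR x hx
    have h1 : dv (X := X) (c • Z) = (MvPolynomial.C c : MvPolynomial X ℂ) • dv Z := by
      refine MvPolynomial.derivation_ext fun i => ?_
      rw [Derivation.smul_apply, dv_X, dv_X, Finset.smul_sum]
      refine Finset.sum_congr rfl fun k _ => ?_
      rw [MvPolynomial.smul_eq_C_mul, Pi.smul_apply, Matrix.smul_apply, smul_eq_mul, map_mul, map_mul]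
      ring
    rw [h1, Derivation.smul_apply, MvPolynomial.smul_eq_C_mul]
    have h2 := hZ R hR x hx
    unfold vt at h2 ⊢
    rw [MvPolynomial.eval₂_mul, h2, mul_zero]

/-- curves -/
lemma lie_of_curve (M : (j : κ) → Matrix (Fin (n j)) (Fin (n j)) ℂ[X])
    (hM : ∀ m : ℕ, (fun j => (M j).map (Polynomial.eval (m : ℂ)) : MT n) ∈ GalT U Y)
    (h0 : (fun j => (M j).map (Polynomial.eval 0) : MT n) = 1) :
    (fun j => (M j).map fun p => (derivative p).eval 0 : MT n) ∈ LieT U Y := by
  intro R hR x hx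
  set A : (k : κ) → Matrix (Fin (n k)) (Fin (n k)) ℂ[X] := fun k => (Y x k).map C * M k with hA
  have hAe : ∀ c, (fun k => (A k).map (Polynomial.eval c)) = Y x * (fun j => (M j).map (Polynomial.eval c)) := by
    intro c
    funext k
    rw [Pi.mul_apply, hA]
    rw [map_mul_eval, map_C_eval]
  have h1 : vtp R x A = 0 := by
    refine zero_of_nat fun m => ?_
    rw [eval_vtp, hAe]
    exact hM m R hR x hx
  have h2 := vtp_deriv (fun j => (M j).map fun p => (derivative p).eval 0) A 0 x (by
    intro i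
    rw [hAe, h0, mul_one, Pi.mul_apply, Matrix.mul_apply]
    change (derivative (((Y x i.1).map C * M i.1) i.2.1 i.2.2)).eval 0 = _
    rw [Matrix.mul_apply, derivative_sum, Polynomial.eval_finsetSum]
    refine Finset.sum_congr rfl fun k _ => ?_
    rw [Matrix.map_apply, derivative_C_mul, Polynomial.eval_mul, Polynomial.eval_C, Matrix.map_apply]) R
  rw [h1, derivative_zero, Polynomial.eval_zero, hAe, h0, mul_one] at h2
  exact h2.symm

/-- lines -/
noncomputable def ln (A B : MT n) : (k : κ) → Matrix (Fin (n k)) (Fin (n k)) ℂ[X] := fun k =>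
  Matrix.of fun a b => C (A k a b) + Polynomial.X * C (B k a b)

lemma ln_eval (A B : MT n) (c : ℂ) : (fun k => (ln A B k).map (Polynomial.eval c) : MT n) = A + c • B := by
  funext k
  ext a b
  rw [Matrix.map_apply, Pi.add_apply, Pi.smul_apply, Matrix.add_apply, Matrix.smul_apply, smul_eq_mul]
  unfold ln
  rw [Matrix.of_apply, Polynomial.eval_add, Polynomial.eval_mul, Polynomial.eval_C, Polynomial.eval_C,
    Polynomial.eval_X]

lemma ln_deriv (A B : MT n) (c : ℂ) (k : κ) (a b : Fin (n k)) : (derivative (ln A B k a b)).eval c = B k a b := by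
  unfold ln
  rw [Matrix.of_apply, derivative_add, derivative_C, zero_add, derivative_mul, derivative_X, one_mul, derivative_C,
    mul_zero, add_zero, Polynomial.eval_C]

/-- exponentials -/
lemma exp_mem {Z : MT n} (hZ : Z ∈ LieT U Y) (hZ2 : Z * Z = 0) (c : ℂ) : 1 + c • Z ∈ GalT U Y := by
  intro R hR x hx
  set A : (k : κ) → Matrix (Fin (n k)) (Fin (n k)) ℂ[X] := ln (Y x) (Y x * Z) with hA
  have hAe : ∀ c : ℂ, (fun k => (A k).map (Polynomial.eval c) : MT n) = Y x * (1 + c • Z) := by
    intro c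
    rw [hA, ln_eval, mul_add, mul_one, mul_smul_comm]
  have hder : ∀ R : MvPolynomial (Ix n) (MvPolynomial X ℂ), derivative (vtp R x A) = vtp (dv Z R) x A := by
    intro R
    refine Polynomial.funext fun c => ?_
    rw [eval_vtp]
    refine vtp_deriv Z A c x ?_ R
    intro i
    rw [hAe, mul_assoc, add_mul, one_mul, smul_mul_assoc, hZ2, smul_zero, add_zero, hA, ln_deriv]
  have hzero : ∀ k : ℕ, ∀ R, IsRelT U Y R → (vtp R x A).coeff k = 0 := by
    intro k
    induction k with
    | zero =>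
      intro R hR
      rw [coeff_zero_eq_eval_zero, eval_vtp, hAe, zero_smul, add_zero, mul_one]
      exact hR x hx
    | succ k ih =>
      intro R hR
      have h1 := ih _ (hZ R hR)
      rw [← hder, coeff_derivative] at h1
      have h2 : ((k : ℂ) + 1) ≠ 0 := by exact_mod_cast Nat.succ_ne_zero k
      exact (mul_eq_zero.1 h1).resolve_right h2
  have h1 : vtp R x A = 0 := Polynomial.ext fun k => by rw [hzero k R hR, coeff_zero]
  rw [← hAe, ← eval_vtp, h1, Polynomial.eval_zero]

lemma isRel_sgt {g : MT n} (hg : g ∈ GalT U Y) {R : MvPolynomial (Ix n) (MvPolynomial X ℂ)} (hR : IsRelT U Y R) :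
    IsRelT U Y (sgt g R) := fun x hx => by
  rw [vt_sgt]
  exact hg R hR x hx

/-- derivation of a translate -/
lemma dv_sgt (g h Z : MT n) (hgh : g * h = 1) (R : MvPolynomial (Ix n) (MvPolynomial X ℂ)) (x : X → ℂ) (A : MT n) :
    vt (dv Z (sgt g R)) x A = vt (dv (h * Z * g) R) x (A * g) := by
  have h1 : vtp (sgt g R) x (ln A (A * Z)) = vtp R x (ln (A * g) (A * Z * g)) := by
    refine Polynomial.funext fun c => ?_
    rw [eval_vtp, eval_vtp, ln_eval, ln_eval, vt_sgt, add_mul, smul_mul_assoc]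
  have h2 := vtp_deriv Z (ln A (A * Z)) 0 x (fun i => by
    rw [ln_eval, zero_smul, add_zero, ln_deriv]) (sgt g R)
  have h3 := vtp_deriv (h * Z * g) (ln (A * g) (A * Z * g)) 0 x (fun i => by
    rw [ln_eval, zero_smul, add_zero, ln_deriv]
    have h4 : A * g * (h * Z * g) = A * Z * g := by
      calc A * g * (h * Z * g) = A * (g * h) * Z * g := by noncomm_ring
        _ = A * Z * g := by rw [hgh, mul_one]
    rw [h4]) R
  rw [ln_eval, zero_smul, add_zero] at h2 h3
  rw [← h2, ← h3, h1]

/-- conjugation -/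
lemma conj_mem {g h Z : MT n} (hg : g ∈ GalT U Y) (hh : h ∈ GalT U Y) (hgh : g * h = 1) (hhg : h * g = 1)
    (hZ : Z ∈ LieT U Y) : h * Z * g ∈ LieT U Y := by
  intro R hR x hx
  have h1 := hZ (sgt g R) (isRel_sgt hg hR)
  have h2 := isRel_sgt hh h1 x hx
  rw [vt_sgt, dv_sgt g h Z hgh, mul_assoc (Y x) h g, hhg, mul_one] at h2
  exact h2

end Pool.Agent.E8helper42.TG
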