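import Mathlib

/-!
# A contour integral around two branch points
-/

set_option autoImplicit false
set_option linter.unusedSectionVars false

open Complex Set MeasureTheory Filter Topology intervalIntegral

namespace Pool.Agent.E8helper42.TG

/-- the exponent -/
noncomputable def nu : ℂ := 2 / 3

lemma nu_re : (0 : ℝ) < nu.re := by
  unfold nu
  norm_num

lemma nu_ne : nu ≠ 0 := by
  unfold nu
  norm_num

/-- the third root of unity `exp (2 π i / 3)` -/
noncomputable def pp : ℂ := Complex.exp (2 * Real.pi * I / 3)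

lemma pp_pow3 : pp ^ 3 = 1 := by
  unfold pp
  rw [← Complex.exp_nat_mul]
  have : ((3 : ℕ) : ℂ) * (2 * Real.pi * I / 3) = 2 * Real.pi * I := by
    push_cast
    ring
  rw [this, Complex.exp_two_pi_mul_I]

lemma pp_ne_one : pp ≠ 1 := by
  intro h
  unfold pp at h
  rw [Complex.exp_eq_one_iff] at h
  obtain ⟨m, hm⟩ := h
  have h2 : (2 * Real.pi * I : ℂ) ≠ 0 := Complex.two_pi_I_ne_zero
  have h1 : (1 : ℂ) = 3 * m := by
    have h3 : (2 * Real.pi * I : ℂ) * 1 = (2 * Real.pi * I) * (3 * m) := by linear_combination 3 * hm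
    exact mul_left_cancel₀ h2 h3
  have h3 : (1 : ℤ) = 3 * m := by exact_mod_cast h1
  omega

lemma pp_quad : pp ^ 2 + pp + 1 = 0 := by
  have h1 : (pp - 1) * (pp ^ 2 + pp + 1) = 0 := by linear_combination pp_pow3
  exact (mul_eq_zero.1 h1).resolve_left (sub_ne_zero.2 pp_ne_one)

/-- the first integrand in the coordinate `ζ = log y` -/
noncomputable def f1 (w : ℂ) (g : ℂ → ℂ) (ζ : ℂ) : ℂ :=
  Complex.exp (2 * nu * ζ) * (1 - w * Complex.exp (-ζ)) ^ nu * g (Complex.exp ζ) * Complex.exp ζ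

/-- the second integrand -/
noncomputable def f2 (w : ℂ) (g : ℂ → ℂ) (ζ : ℂ) : ℂ :=
  Complex.exp (nu * ζ) * (w - Complex.exp ζ) ^ nu * g (Complex.exp ζ) * Complex.exp ζ

/-- the integral over the unit circle -/
noncomputable def Circ (w : ℂ) (g : ℂ → ℂ) : ℂ := I * ∫ θ in (0 : ℝ)..2 * Real.pi, f1 w g (θ * I)

lemma exp_norm_le {ζ : ℂ} (h : ζ.re ≤ 0) : ‖Complex.exp ζ‖ ≤ 1 := by
  rw [Complex.norm_exp]
  exact Real.exp_le_one_iff.2 h

lemma re_f1 {w : ℝ} (hw : 0 < w) {ζ : ℂ} (h : Real.log w ≤ ζ.re) : 0 ≤ (1 - (w : ℂ) * Complex.exp (-ζ)).re := by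
  have h1 : ‖(w : ℂ) * Complex.exp (-ζ)‖ ≤ 1 := by
    rw [norm_mul, Complex.norm_exp, Complex.norm_real, Real.norm_of_nonneg hw.le]
    have h2 : Real.exp (-ζ).re ≤ Real.exp (-Real.log w) := Real.exp_le_exp.2 (by rw [Complex.neg_re]; linarith)
    rw [Real.exp_neg, Real.exp_log hw] at h2
    calc w * Real.exp (-ζ).re ≤ w * w⁻¹ := mul_le_mul_of_nonneg_left h2 hw.le
      _ = 1 := mul_inv_cancel₀ hw.ne'
  have h2 := (Complex.re_le_norm ((w : ℂ) * Complex.exp (-ζ))).trans h1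
  rw [Complex.sub_re, Complex.one_re]
  linarith

lemma re_f1_pos {w : ℝ} (hw : 0 < w) {ζ : ℂ} (h : Real.log w < ζ.re) : 0 < (1 - (w : ℂ) * Complex.exp (-ζ)).re := by
  have h1 : ‖(w : ℂ) * Complex.exp (-ζ)‖ < 1 := by
    rw [norm_mul, Complex.norm_exp, Complex.norm_real, Real.norm_of_nonneg hw.le]
    have h2 : Real.exp (-ζ).re < Real.exp (-Real.log w) := Real.exp_lt_exp.2 (by rw [Complex.neg_re]; linarith)
    rw [Real.exp_neg, Real.exp_log hw] at h2
    calc w * Real.exp (-ζ).re < w * w⁻¹ := mul_lt_mul_of_pos_left h2 hw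
      _ = 1 := mul_inv_cancel₀ hw.ne'
  have h2 := (Complex.re_le_norm ((w : ℂ) * Complex.exp (-ζ))).trans_lt h1
  rw [Complex.sub_re, Complex.one_re]
  linarith

lemma re_f2 {w : ℝ} (hw : 0 < w) {ζ : ℂ} (h : ζ.re ≤ Real.log w) : 0 ≤ ((w : ℂ) - Complex.exp ζ).re := by
  have h1 : ‖Complex.exp ζ‖ ≤ w := by
    rw [Complex.norm_exp]
    calc Real.exp ζ.re ≤ Real.exp (Real.log w) := Real.exp_le_exp.2 h
      _ = w := Real.exp_log hw
  have h2 := (Complex.re_le_norm (Complex.exp ζ)).trans h1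
  rw [Complex.sub_re, Complex.ofReal_re]
  linarith

lemma re_f2_pos {w : ℝ} (hw : 0 < w) {ζ : ℂ} (h : ζ.re < Real.log w) : 0 < ((w : ℂ) - Complex.exp ζ).re := by
  have h1 : ‖Complex.exp ζ‖ < w := by
    rw [Complex.norm_exp]
    calc Real.exp ζ.re < Real.exp (Real.log w) := Real.exp_lt_exp.2 h
      _ = w := Real.exp_log hw
  have h2 := (Complex.re_le_norm (Complex.exp ζ)).trans_lt h1
  rw [Complex.sub_re, Complex.ofReal_re]
  linarith

section
variable {w : ℝ} {g : ℂ → ℂ}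

lemma cont_f1 (hw : 0 < w) (hg : ∀ y : ℂ, ‖y‖ ≤ 1 → DifferentiableAt ℂ g y) {ζ : ℂ} (h : Real.log w ≤ ζ.re)
    (h' : ζ.re ≤ 0) : ContinuousAt (f1 w g) ζ := by
  unfold f1
  refine ContinuousAt.mul (ContinuousAt.mul (ContinuousAt.mul (by fun_prop) ?_) ?_) (by fun_prop)
  · exact ContinuousAt.comp (f := fun ζ : ℂ => 1 - (w : ℂ) * Complex.exp (-ζ)) (g := fun z : ℂ => z ^ nu)
      (Complex.continuousAt_cpow_const_of_re_pos (Or.inl (re_f1 hw h)) nu_re) (by fun_prop)
  · exact ContinuousAt.comp (f := fun ζ : ℂ => Complex.exp ζ) (g := g) (hg _ (exp_norm_le h')).continuousAt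
      (by fun_prop)

lemma cont_f2 (hw : 0 < w) (hg : ∀ y : ℂ, ‖y‖ ≤ 1 → DifferentiableAt ℂ g y) (hw1 : w < 1) {ζ : ℂ}
    (h : ζ.re ≤ Real.log w) : ContinuousAt (f2 w g) ζ := by
  have h' : ζ.re ≤ 0 := h.trans (Real.log_nonpos hw.le hw1.le)
  unfold f2
  refine ContinuousAt.mul (ContinuousAt.mul (ContinuousAt.mul (by fun_prop) ?_) ?_) (by fun_prop)
  · exact ContinuousAt.comp (f := fun ζ : ℂ => (w : ℂ) - Complex.exp ζ) (g := fun z : ℂ => z ^ nu)
      (Complex.continuousAt_cpow_const_of_re_pos (Or.inl (re_f2 hw h)) nu_re) (by fun_prop)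
  · exact ContinuousAt.comp (f := fun ζ : ℂ => Complex.exp ζ) (g := g) (hg _ (exp_norm_le h')).continuousAt
      (by fun_prop)

lemma diff_f1 (hw : 0 < w) (hg : ∀ y : ℂ, ‖y‖ ≤ 1 → DifferentiableAt ℂ g y) {ζ : ℂ} (h : Real.log w < ζ.re)
    (h' : ζ.re < 0) : DifferentiableAt ℂ (f1 w g) ζ := by
  unfold f1
  refine DifferentiableAt.mul (DifferentiableAt.mul (DifferentiableAt.mul (by fun_prop) ?_) ?_) (by fun_prop)
  · exact DifferentiableAt.cpow_const (by fun_prop) (Or.inl (re_f1_pos hw h))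
  · exact DifferentiableAt.comp ζ (hg _ (exp_norm_le h'.le)) (by fun_prop)

lemma diff_f2 (hw : 0 < w) (hg : ∀ y : ℂ, ‖y‖ ≤ 1 → DifferentiableAt ℂ g y) (hw1 : w < 1) {ζ : ℂ}
    (h : ζ.re < Real.log w) : DifferentiableAt ℂ (f2 w g) ζ := by
  have h' : ζ.re ≤ 0 := h.le.trans (Real.log_nonpos hw.le hw1.le)
  unfold f2
  refine DifferentiableAt.mul (DifferentiableAt.mul (DifferentiableAt.mul (by fun_prop) ?_) ?_) (by fun_prop)
  · exact DifferentiableAt.cpow_const (by fun_prop) (Or.inl (re_f2_pos hw h))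
  · exact DifferentiableAt.comp ζ (hg _ (exp_norm_le h')) (by fun_prop)

end

/-- powers of a product with a positive real number -/
lemma real_mul_cpow {x : ℝ} (hx : 0 < x) {z : ℂ} (hz : z ≠ 0) (c : ℂ) :
    ((x : ℂ) * z) ^ c = (x : ℂ) ^ c * z ^ c := by
  have hx0 : (x : ℂ) ≠ 0 := by exact_mod_cast hx.ne'
  rw [Complex.cpow_def_of_ne_zero (mul_ne_zero hx0 hz), Complex.cpow_def_of_ne_zero hx0,
    Complex.cpow_def_of_ne_zero hz, Complex.log_ofReal_mul hx hz, ← Complex.exp_add, ← Complex.ofReal_log hx.le]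
  congr 1
  ring

lemma real_mul_nu {x : ℝ} (hx : 0 < x) (z : ℂ) : ((x : ℂ) * z) ^ nu = (x : ℂ) ^ nu * z ^ nu := by
  by_cases hz : z = 0
  · rw [hz, mul_zero, Complex.zero_cpow nu_ne, mul_zero]
  · exact real_mul_cpow hx hz _

lemma exp_cpow' {s : ℝ} (c : ℂ) : ((Real.exp s : ℝ) : ℂ) ^ c = Complex.exp (c * s) := by
  have h0 : ((Real.exp s : ℝ) : ℂ) ≠ 0 := by exact_mod_cast (Real.exp_pos s).ne'
  rw [Complex.cpow_def_of_ne_zero h0, ← Complex.ofReal_log (Real.exp_pos s).le, Real.log_exp]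
  congr 1
  ring

/-- the relation on the circle of radius `w` -/
lemma circle_rel {θ : ℝ} (h0 : 0 ≤ θ) (h1 : θ ≤ 2 * Real.pi) :
    Complex.exp (nu * (θ * I)) * (1 - Complex.exp (-(θ * I))) ^ nu = pp * (1 - Complex.exp (θ * I)) ^ nu := by
  have hpi := Real.pi_pos
  rcases eq_or_lt_of_le h0 with h | h0
  · rw [← h]
    simp [Complex.zero_cpow nu_ne]
  rcases eq_or_lt_of_le h1 with h | h1
  · have e1 : Complex.exp (θ * I) = 1 := by
      rw [h]
      push_cast
      exact Complex.exp_two_pi_mul_I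
    have e2 : Complex.exp (-(θ * I)) = 1 := by rw [Complex.exp_neg, e1, inv_one]
    rw [e1, e2, sub_self, Complex.zero_cpow nu_ne, mul_zero, mul_zero]
  have hs : 0 < 2 * Real.sin (θ / 2) := mul_pos two_pos (Real.sin_pos_of_pos_of_lt_pi (by linarith) (by linarith))
  have hI : Complex.exp (Real.pi / 2 * I) = I := Complex.exp_pi_div_two_mul_I
  have e1 : 1 - Complex.exp (-(θ * I)) = ((2 * Real.sin (θ / 2) : ℝ) : ℂ) *
      Complex.exp (((Real.pi / 2 - θ / 2 : ℝ) : ℂ) * I) := by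
    have h2 : Complex.exp (((Real.pi / 2 - θ / 2 : ℝ) : ℂ) * I) = I * Complex.exp (-(θ / 2) * I) := by
      nth_rewrite 2 [← hI]
      rw [← Complex.exp_add]
      congr 1
      push_cast
      ring
    have h3 : ((2 * Real.sin (θ / 2) : ℝ) : ℂ) * I = Complex.exp (θ / 2 * I) - Complex.exp (-(θ / 2) * I) := by
      push_cast
      rw [Complex.sin]
      have hI2 : I * I = -1 := Complex.I_mul_I
      linear_combination (Complex.exp (-(θ / 2) * I) - Complex.exp (θ / 2 * I)) * hI2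
    rw [h2, ← mul_assoc, h3, sub_mul, ← Complex.exp_add, ← Complex.exp_add]
    congr 1
    · rw [show (θ : ℂ) / 2 * I + -(θ / 2) * I = 0 by ring, Complex.exp_zero]
    · congr 1
      ring
  have e2 : 1 - Complex.exp (θ * I) = ((2 * Real.sin (θ / 2) : ℝ) : ℂ) *
      Complex.exp (((θ / 2 - Real.pi / 2 : ℝ) : ℂ) * I) := by
    have h2 : Complex.exp (((θ / 2 - Real.pi / 2 : ℝ) : ℂ) * I) = -I * Complex.exp (θ / 2 * I) := by
      have h4 : Complex.exp (-(Real.pi / 2 * I)) = -I := by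
        rw [Complex.exp_neg, hI, Complex.inv_I]
      rw [← h4, ← Complex.exp_add]
      congr 1
      push_cast
      ring
    have h3 : ((2 * Real.sin (θ / 2) : ℝ) : ℂ) * (-I) = Complex.exp (-(θ / 2) * I) - Complex.exp (θ / 2 * I) := by
      push_cast
      rw [Complex.sin]
      have hI2 : I * I = -1 := Complex.I_mul_I
      linear_combination (-(Complex.exp (-(θ / 2) * I) - Complex.exp (θ / 2 * I))) * hI2
    rw [h2, ← mul_assoc, h3, sub_mul, ← Complex.exp_add, ← Complex.exp_add]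
    congr 1
    · rw [show -((θ : ℂ) / 2) * I + θ / 2 * I = 0 by ring, Complex.exp_zero]
    · congr 1
      ring
  have c1 : Complex.exp (((Real.pi / 2 - θ / 2 : ℝ) : ℂ) * I) ^ nu =
      Complex.exp (((Real.pi / 2 - θ / 2 : ℝ) : ℂ) * I * nu) := by
    rw [Complex.cpow_def_of_ne_zero (Complex.exp_ne_zero _), Complex.log_exp (by simp; linarith) (by simp; linarith)]
  have c2 : Complex.exp (((θ / 2 - Real.pi / 2 : ℝ) : ℂ) * I) ^ nu =
      Complex.exp (((θ / 2 - Real.pi / 2 : ℝ) : ℂ) * I * nu) := by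
    rw [Complex.cpow_def_of_ne_zero (Complex.exp_ne_zero _), Complex.log_exp (by simp; linarith) (by simp; linarith)]
  rw [e1, e2, real_mul_nu hs, real_mul_nu hs, c1, c2]
  unfold pp
  have h5 : Complex.exp (nu * (θ * I)) * Complex.exp (((Real.pi / 2 - θ / 2 : ℝ) : ℂ) * I * nu) =
      Complex.exp (2 * Real.pi * I / 3) * Complex.exp (((θ / 2 - Real.pi / 2 : ℝ) : ℂ) * I * nu) := by
    rw [← Complex.exp_add, ← Complex.exp_add]
    congr 1
    unfold nu
    push_cast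
    ring
  linear_combination (((2 * Real.sin (θ / 2) : ℝ) : ℂ) ^ nu) * h5

section
variable {w : ℝ} {g : ℂ → ℂ}

lemma f1_real {s : ℝ} : f1 w g s =
    Real.exp s • (((Real.exp s : ℝ) : ℂ) ^ nu * (((Real.exp s : ℝ) : ℂ) - w) ^ nu * g (Real.exp s : ℝ)) := by
  unfold f1
  have h1 : (((Real.exp s : ℝ) : ℂ) - w) = ((Real.exp s : ℝ) : ℂ) * (1 - w * Complex.exp (-s)) := by
    rw [mul_sub, mul_one, Complex.ofReal_exp]
    have : Complex.exp s * Complex.exp (-s) = 1 := by rw [← Complex.exp_add, add_neg_cancel, Complex.exp_zero]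
    linear_combination (w : ℂ) * this
  rw [h1, real_mul_nu (Real.exp_pos s), exp_cpow']
  have h2 : Complex.exp (2 * nu * s) = Complex.exp (nu * s) * Complex.exp (nu * s) := by
    rw [← Complex.exp_add]
    congr 1
    ring
  rw [h2, Complex.real_smul, Complex.ofReal_exp]
  ring

lemma f2_real {s : ℝ} : f2 w g s =
    Real.exp s • (((Real.exp s : ℝ) : ℂ) ^ nu * ((w : ℂ) - ((Real.exp s : ℝ) : ℂ)) ^ nu * g (Real.exp s : ℝ)) := by
  unfold f2
  rw [exp_cpow', Complex.real_smul, Complex.ofReal_exp]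
  ring

lemma pp_exp4 : Complex.exp (2 * nu * (2 * Real.pi * I)) = pp := by
  have h : Complex.exp (2 * nu * (2 * Real.pi * I)) = pp ^ 4 := by
    unfold pp nu
    rw [← Complex.exp_nat_mul]
    congr 1
    push_cast
    ring
  rw [h]
  linear_combination pp * pp_pow3

lemma pp_exp2 : Complex.exp (nu * (2 * Real.pi * I)) = pp ^ 2 := by
  unfold pp nu
  rw [← Complex.exp_nat_mul]
  congr 1
  push_cast
  ring

lemma exp_top (s : ℝ) : Complex.exp ((s : ℂ) + (2 * Real.pi : ℝ) * I) = Complex.exp s := by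
  rw [Complex.exp_add]
  push_cast
  rw [Complex.exp_two_pi_mul_I, mul_one]

lemma exp_top' (s : ℝ) : Complex.exp (-((s : ℂ) + (2 * Real.pi : ℝ) * I)) = Complex.exp (-s) := by
  rw [Complex.exp_neg, exp_top, Complex.exp_neg]

lemma f1_top (s : ℝ) : f1 w g ((s : ℂ) + (2 * Real.pi : ℝ) * I) = pp * f1 w g s := by
  unfold f1
  rw [exp_top, exp_top']
  have h : Complex.exp (2 * nu * ((s : ℂ) + (2 * Real.pi : ℝ) * I)) = pp * Complex.exp (2 * nu * s) := by
    rw [← pp_exp4, ← Complex.exp_add]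
    congr 1
    push_cast
    ring
  rw [h]
  ring

lemma f2_top (s : ℝ) : f2 w g ((s : ℂ) + (2 * Real.pi : ℝ) * I) = pp ^ 2 * f2 w g s := by
  unfold f2
  rw [exp_top]
  have h : Complex.exp (nu * ((s : ℂ) + (2 * Real.pi : ℝ) * I)) = pp ^ 2 * Complex.exp (nu * s) := by
    rw [← pp_exp2, ← Complex.exp_add]
    congr 1
    push_cast
    ring
  rw [h]
  ring

/-- the function on the outer segment -/
noncomputable def F1 (w : ℝ) (g : ℂ → ℂ) (y : ℝ) : ℂ := (y : ℂ) ^ nu * ((y : ℂ) - w) ^ nu * g y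

/-- the function on the inner segment -/
noncomputable def F2 (w : ℝ) (g : ℂ → ℂ) (y : ℝ) : ℂ := (y : ℂ) ^ nu * ((w : ℂ) - y) ^ nu * g y

lemma cont_F1 (hw : 0 < w) (hg : ∀ y : ℂ, ‖y‖ ≤ 1 → DifferentiableAt ℂ g y) : ContinuousOn (F1 w g) (Icc w 1) := by
  intro y hy
  refine ContinuousAt.continuousWithinAt ?_
  unfold F1
  have h0 : 0 < y := hw.trans_le hy.1
  refine ContinuousAt.mul (ContinuousAt.mul ?_ ?_) ?_
  · exact ContinuousAt.comp (f := fun y : ℝ => (y : ℂ)) (g := fun z : ℂ => z ^ nu)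
      (Complex.continuousAt_cpow_const_of_re_pos (Or.inl (by rw [Complex.ofReal_re]; exact h0.le)) nu_re) (by fun_prop)
  · exact ContinuousAt.comp (f := fun y : ℝ => (y : ℂ) - w) (g := fun z : ℂ => z ^ nu)
      (Complex.continuousAt_cpow_const_of_re_pos (Or.inl (by
        rw [Complex.sub_re, Complex.ofReal_re, Complex.ofReal_re]; linarith [hy.1])) nu_re) (by fun_prop)
  · exact ContinuousAt.comp (f := fun y : ℝ => (y : ℂ)) (g := g) (hg _ (by
      rw [Complex.norm_real, Real.norm_of_nonneg h0.le]; exact hy.2)).continuousAt (by fun_prop)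

lemma cont_F2 (hw1 : w ≤ 1) (hg : ∀ y : ℂ, ‖y‖ ≤ 1 → DifferentiableAt ℂ g y) : ContinuousOn (F2 w g) (Icc 0 w) := by
  intro y hy
  refine ContinuousAt.continuousWithinAt ?_
  unfold F2
  refine ContinuousAt.mul (ContinuousAt.mul ?_ ?_) ?_
  · exact ContinuousAt.comp (f := fun y : ℝ => (y : ℂ)) (g := fun z : ℂ => z ^ nu)
      (Complex.continuousAt_cpow_const_of_re_pos (Or.inl (by rw [Complex.ofReal_re]; exact hy.1)) nu_re) (by fun_prop)
  · exact ContinuousAt.comp (f := fun y : ℝ => (w : ℂ) - y) (g := fun z : ℂ => z ^ nu)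
      (Complex.continuousAt_cpow_const_of_re_pos (Or.inl (by
        rw [Complex.sub_re, Complex.ofReal_re, Complex.ofReal_re]; linarith [hy.2])) nu_re) (by fun_prop)
  · exact ContinuousAt.comp (f := fun y : ℝ => (y : ℂ)) (g := g) (hg _ (by
      rw [Complex.norm_real, Real.norm_of_nonneg hy.1]; linarith [hy.2])).continuousAt (by fun_prop)

lemma sub_f1 (hw : 0 < w) (hw1 : w < 1) (hg : ∀ y : ℂ, ‖y‖ ≤ 1 → DifferentiableAt ℂ g y) :
    ∫ s in (Real.log w)..0, f1 w g s = ∫ y in w..1, F1 w g y := by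
  have hl : Real.log w ≤ 0 := Real.log_nonpos hw.le hw1.le
  have h1 := intervalIntegral.integral_deriv_smul_comp' (a := Real.log w) (b := 0) (f := Real.exp) (f' := Real.exp)
    (g := F1 w g) (fun x _ => Real.hasDerivAt_exp x) Real.continuous_exp.continuousOn (by
      refine (cont_F1 hw hg).mono ?_
      rw [uIcc_of_le hl]
      rintro _ ⟨s, hs, rfl⟩
      refine ⟨?_, Real.exp_le_one_iff.2 hs.2⟩
      calc w = Real.exp (Real.log w) := (Real.exp_log hw).symm
        _ ≤ Real.exp s := Real.exp_le_exp.2 hs.1)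
  rw [Real.exp_log hw, Real.exp_zero] at h1
  rw [← h1]
  exact intervalIntegral.integral_congr fun s _ => f1_real

lemma sub_f2 {ε : ℝ} (hε : 0 < ε) (hεw : ε ≤ w) (hw1 : w ≤ 1)
    (hg : ∀ y : ℂ, ‖y‖ ≤ 1 → DifferentiableAt ℂ g y) :
    ∫ s in (Real.log ε)..(Real.log w), f2 w g s = ∫ y in ε..w, F2 w g y := by
  have hw : 0 < w := hε.trans_le hεw
  have hl : Real.log ε ≤ Real.log w := Real.log_le_log hε hεw
  have h1 := intervalIntegral.integral_deriv_smul_comp' (a := Real.log ε) (b := Real.log w) (f := Real.exp)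
    (f' := Real.exp) (g := F2 w g) (fun x _ => Real.hasDerivAt_exp x) Real.continuous_exp.continuousOn (by
      refine (cont_F2 hw1 hg).mono ?_
      rw [uIcc_of_le hl]
      rintro _ ⟨s, hs, rfl⟩
      refine ⟨(Real.exp_pos s).le, ?_⟩
      calc Real.exp s ≤ Real.exp (Real.log w) := Real.exp_le_exp.2 hs.2
        _ = w := Real.exp_log hw)
  rw [Real.exp_log hw, Real.exp_log hε] at h1
  rw [← h1]
  exact intervalIntegral.integral_congr fun s _ => f2_real

/-- the outer rectangle -/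
lemma outer (hw : 0 < w) (hw1 : w < 1) (hg : ∀ y : ℂ, ‖y‖ ≤ 1 → DifferentiableAt ℂ g y) :
    Circ w g = (pp - 1) * (∫ y in w..1, F1 w g y) +
      I * ∫ θ in (0 : ℝ)..2 * Real.pi, f1 w g ((Real.log w : ℝ) + θ * I) := by
  have hl : Real.log w ≤ 0 := Real.log_nonpos hw.le hw1.le
  have hpi : (0 : ℝ) ≤ 2 * Real.pi := by positivity
  have hz : (((2 * Real.pi : ℝ) : ℂ) * I).re = 0 := by simp
  have hz' : (((2 * Real.pi : ℝ) : ℂ) * I).im = 2 * Real.pi := by simp
  have h := Complex.integral_boundary_rect_eq_zero_of_continuousOn_of_differentiableOn (f1 w g) (Real.log w : ℝ)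
    (((2 * Real.pi : ℝ) : ℂ) * I) (by
      rw [hz, hz', Complex.ofReal_re, Complex.ofReal_im, uIcc_of_le hl]
      rintro ζ ⟨h1, -⟩
      exact (cont_f1 hw hg h1.1 h1.2).continuousWithinAt) (by
      rw [hz, hz', Complex.ofReal_re, Complex.ofReal_im, min_eq_left hl, max_eq_right hl]
      rintro ζ ⟨h1, -⟩
      exact (diff_f1 hw hg h1.1 h1.2).differentiableWithinAt)
  rw [hz, hz', Complex.ofReal_re, Complex.ofReal_im] at h
  simp only [f1_top, Complex.ofReal_zero, zero_mul, add_zero, zero_add, smul_eq_mul,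
    intervalIntegral.integral_const_mul] at h
  rw [sub_f1 hw hw1 hg] at h
  unfold Circ
  linear_combination h

/-- the inner rectangle -/
lemma inner {ε : ℝ} (hε : 0 < ε) (hεw : ε < w) (hw1 : w < 1)
    (hg : ∀ y : ℂ, ‖y‖ ≤ 1 → DifferentiableAt ℂ g y) :
    I * ∫ θ in (0 : ℝ)..2 * Real.pi, f2 w g ((Real.log w : ℝ) + θ * I) = (pp ^ 2 - 1) * (∫ y in ε..w, F2 w g y) +
      I * ∫ θ in (0 : ℝ)..2 * Real.pi, f2 w g ((Real.log ε : ℝ) + θ * I) := by
  have hw : 0 < w := hε.trans hεw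
  have hl : Real.log ε ≤ Real.log w := Real.log_le_log hε hεw.le
  have hpi : (0 : ℝ) ≤ 2 * Real.pi := by positivity
  have hz : (((Real.log w : ℝ) : ℂ) + ((2 * Real.pi : ℝ) : ℂ) * I).re = Real.log w := by simp
  have hz' : (((Real.log w : ℝ) : ℂ) + ((2 * Real.pi : ℝ) : ℂ) * I).im = 2 * Real.pi := by simp
  have h := Complex.integral_boundary_rect_eq_zero_of_continuousOn_of_differentiableOn (f2 w g) (Real.log ε : ℝ)
    (((Real.log w : ℝ) : ℂ) + ((2 * Real.pi : ℝ) : ℂ) * I) (by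
      rw [hz, hz', Complex.ofReal_re, Complex.ofReal_im, uIcc_of_le hl]
      rintro ζ ⟨h1, -⟩
      exact (cont_f2 hw hg hw1 h1.2).continuousWithinAt) (by
      rw [hz, hz', Complex.ofReal_re, Complex.ofReal_im, min_eq_left hl, max_eq_right hl]
      rintro ζ ⟨h1, -⟩
      exact (diff_f2 hw hg hw1 h1.2).differentiableWithinAt)
  rw [hz, hz', Complex.ofReal_re, Complex.ofReal_im] at h
  simp only [f2_top, Complex.ofReal_zero, zero_mul, add_zero, smul_eq_mul,
    intervalIntegral.integral_const_mul] at h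
  rw [sub_f2 hε hεw.le hw1.le hg] at h
  linear_combination h

/-- the inner rectangle in the limit -/
lemma inner_lim (hw : 0 < w) (hw1 : w < 1) (hg : ∀ y : ℂ, ‖y‖ ≤ 1 → DifferentiableAt ℂ g y) :
    I * ∫ θ in (0 : ℝ)..2 * Real.pi, f2 w g ((Real.log w : ℝ) + θ * I) = (pp ^ 2 - 1) * ∫ y in (0 : ℝ)..w, F2 w g y := by
  -- a bound
  have hcont : ContinuousOn (fun z : ℂ => ((w : ℂ) - z) ^ nu * g z) (Metric.closedBall 0 w) := by
    intro z hz
    rw [Metric.mem_closedBall, dist_zero_right] at hz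
    refine ContinuousAt.continuousWithinAt (ContinuousAt.mul ?_ (hg z (hz.trans hw1.le)).continuousAt)
    refine ContinuousAt.comp (f := fun z : ℂ => (w : ℂ) - z) (g := fun z : ℂ => z ^ nu)
      (Complex.continuousAt_cpow_const_of_re_pos (Or.inl ?_) nu_re) (by fun_prop)
    rw [Complex.sub_re, Complex.ofReal_re]
    linarith [(Complex.re_le_norm z).trans hz]
  obtain ⟨M, hM⟩ := (isCompact_closedBall (0 : ℂ) w).exists_bound_of_continuousOn hcont
  have hM0 : 0 ≤ M := (norm_nonneg _).trans (hM 0 (Metric.mem_closedBall_self hw.le))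
  set Δ : ℂ := I * (∫ θ in (0 : ℝ)..2 * Real.pi, f2 w g ((Real.log w : ℝ) + θ * I)) -
    (pp ^ 2 - 1) * ∫ y in (0 : ℝ)..w, F2 w g y with hΔ
  have hbF : ∀ y ∈ Icc (0 : ℝ) w, ‖F2 w g y‖ ≤ M := by
    intro y hy
    have h1 := hM y (by rw [Metric.mem_closedBall, dist_zero_right, Complex.norm_real, Real.norm_of_nonneg hy.1]; exact hy.2)
    unfold F2
    rw [mul_assoc, norm_mul]
    have h2 : ‖(y : ℂ) ^ nu‖ ≤ 1 := by
      rw [Complex.norm_cpow_eq_rpow_re_of_nonneg hy.1 nu_re.ne']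
      exact Real.rpow_le_one hy.1 (hy.2.trans hw1.le) nu_re.le
    calc ‖(y : ℂ) ^ nu‖ * ‖((w : ℂ) - y) ^ nu * g y‖ ≤ 1 * M :=
          mul_le_mul h2 h1 (norm_nonneg _) zero_le_one
      _ = M := one_mul M
  have key : ∀ ε : ℝ, 0 < ε → ε < w → ‖Δ‖ ≤ (‖pp ^ 2 - 1‖ * M + 2 * Real.pi * M) * ε := by
    intro ε hε hεw
    have h1 := inner hε hεw hw1 hg
    have hI1 : IntervalIntegrable (F2 w g) volume 0 ε := by
      refine ContinuousOn.intervalIntegrable ((cont_F2 hw1.le hg).mono ?_)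
      rw [uIcc_of_le hε.le]
      exact Icc_subset_Icc_right hεw.le
    have hI2 : IntervalIntegrable (F2 w g) volume ε w := by
      refine ContinuousOn.intervalIntegrable ((cont_F2 hw1.le hg).mono ?_)
      rw [uIcc_of_le hεw.le]
      exact Icc_subset_Icc_left hε.le
    have h2 := intervalIntegral.integral_add_adjacent_intervals hI1 hI2
    have h3 : Δ = -((pp ^ 2 - 1) * ∫ y in (0 : ℝ)..ε, F2 w g y) +
        I * ∫ θ in (0 : ℝ)..2 * Real.pi, f2 w g ((Real.log ε : ℝ) + θ * I) := by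
      rw [hΔ, h1, ← h2]
      ring
    have h4 : ‖∫ y in (0 : ℝ)..ε, F2 w g y‖ ≤ M * |ε - 0| := by
      refine intervalIntegral.norm_integral_le_of_norm_le_const fun y hy => hbF y ?_
      rw [uIoc_of_le hε.le] at hy
      exact ⟨hy.1.le, hy.2.trans hεw.le⟩
    have h5 : ‖∫ θ in (0 : ℝ)..2 * Real.pi, f2 w g ((Real.log ε : ℝ) + θ * I)‖ ≤ M * ε * |2 * Real.pi - 0| := by
      refine intervalIntegral.norm_integral_le_of_norm_le_const fun θ _ => ?_
      have e1 : ((Real.log ε : ℝ) + θ * I : ℂ).re = Real.log ε := by simp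
      have hne : ‖Complex.exp ((Real.log ε : ℝ) + θ * I)‖ = ε := by
        rw [Complex.norm_exp, e1, Real.exp_log hε]
      unfold f2
      rw [norm_mul, hne]
      refine mul_le_mul_of_nonneg_right ?_ hε.le
      rw [mul_assoc, norm_mul]
      have h6 : ‖Complex.exp (nu * ((Real.log ε : ℝ) + θ * I))‖ ≤ 1 := by
        rw [Complex.norm_exp]
        refine Real.exp_le_one_iff.2 ?_
        have e2 : (nu * ((Real.log ε : ℝ) + θ * I)).re = 2 / 3 * Real.log ε := by
          have : nu = ((2 / 3 : ℝ) : ℂ) := by unfold nu; push_cast; ring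
          rw [this, Complex.re_ofReal_mul, e1]
        rw [e2]
        have := Real.log_nonpos hε.le (hεw.trans hw1).le
        linarith
      have h7 := hM (Complex.exp ((Real.log ε : ℝ) + θ * I)) (by
        rw [Metric.mem_closedBall, dist_zero_right, hne]
        exact hεw.le)
      calc _ ≤ 1 * M := mul_le_mul h6 h7 (norm_nonneg _) zero_le_one
        _ = M := one_mul M
    rw [sub_zero, abs_of_pos hε] at h4
    rw [sub_zero, abs_of_pos Real.two_pi_pos] at h5
    rw [h3]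
    refine (norm_add_le _ _).trans ?_
    rw [norm_neg, norm_mul, norm_mul, Complex.norm_I, one_mul]
    have h8 := mul_le_mul_of_nonneg_left h4 (norm_nonneg (pp ^ 2 - 1))
    calc _ ≤ ‖pp ^ 2 - 1‖ * (M * ε) + M * ε * (2 * Real.pi) := add_le_add h8 h5
      _ = _ := by ring
  have h0 : ‖Δ‖ ≤ 0 := by
    by_contra hcon
    rw [not_le] at hcon
    set Cc : ℝ := ‖pp ^ 2 - 1‖ * M + 2 * Real.pi * M with hCc
    have hC0 : 0 ≤ Cc := by positivity
    have h9 : 0 < ‖Δ‖ / (2 * (Cc + 1)) := by positivity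
    have h10 := key (min (w / 2) (‖Δ‖ / (2 * (Cc + 1)))) (lt_min (by linarith) h9)
      (lt_of_le_of_lt (min_le_left _ _) (by linarith))
    have h11 : Cc * min (w / 2) (‖Δ‖ / (2 * (Cc + 1))) ≤ Cc * (‖Δ‖ / (2 * (Cc + 1))) :=
      mul_le_mul_of_nonneg_left (min_le_right _ _) hC0
    have h12 : Cc * (‖Δ‖ / (2 * (Cc + 1))) < ‖Δ‖ := by
      rw [← mul_div_assoc, div_lt_iff₀ (by positivity)]
      nlinarith
    linarith
  have h1 : Δ = 0 := norm_le_zero_iff.1 h0
  rw [hΔ] at h1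
  exact sub_eq_zero.1 h1

/-- the two integrands on the circle of radius `w` -/
lemma f1_eq_f2 (hw : 0 < w) {θ : ℝ} (h0 : 0 ≤ θ) (h1 : θ ≤ 2 * Real.pi) :
    f1 w g ((Real.log w : ℝ) + θ * I) = pp * f2 w g ((Real.log w : ℝ) + θ * I) := by
  have hw0 : (w : ℂ) ≠ 0 := by exact_mod_cast hw.ne'
  have hl : Complex.exp ((Real.log w : ℝ) : ℂ) = w := by
    rw [← Complex.ofReal_exp, Real.exp_log hw]
  have e1 : 1 - (w : ℂ) * Complex.exp (-(((Real.log w : ℝ) : ℂ) + θ * I)) = 1 - Complex.exp (-(θ * I)) := by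
    rw [neg_add, Complex.exp_add, Complex.exp_neg ((Real.log w : ℝ) : ℂ), hl, ← mul_assoc, mul_inv_cancel₀ hw0, one_mul]
  have e2 : (w : ℂ) - Complex.exp (((Real.log w : ℝ) : ℂ) + θ * I) = (w : ℂ) * (1 - Complex.exp (θ * I)) := by
    rw [Complex.exp_add, hl]
    ring
  have e3 : (w : ℂ) ^ nu = Complex.exp (nu * (Real.log w : ℝ)) := by
    rw [← exp_cpow', Real.exp_log hw]
  have e4 : Complex.exp (2 * nu * (((Real.log w : ℝ) : ℂ) + θ * I)) = Complex.exp (nu * (((Real.log w : ℝ) : ℂ) + θ * I)) *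
      (Complex.exp (nu * (Real.log w : ℝ)) * Complex.exp (nu * (θ * I))) := by
    rw [← Complex.exp_add, ← Complex.exp_add]
    congr 1
    ring
  unfold f1 f2
  rw [e1, e2, real_mul_nu hw, e3, e4]
  linear_combination (Complex.exp (nu * (((Real.log w : ℝ) : ℂ) + θ * I)) * Complex.exp (nu * (Real.log w : ℝ)) *
    g (Complex.exp (((Real.log w : ℝ) : ℂ) + θ * I)) * Complex.exp (((Real.log w : ℝ) : ℂ) + θ * I)) *
    circle_rel h0 h1

/-- **The local lemma.** -/
theorem local_lemma (hw : 0 < w) (hw1 : w < 1) (hg : ∀ y : ℂ, ‖y‖ ≤ 1 → DifferentiableAt ℂ g y) :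
    Circ w g = (pp - 1) * ((∫ y in w..1, F1 w g y) - ∫ y in (0 : ℝ)..w, F2 w g y) := by
  rw [outer hw hw1 hg]
  have h1 : (∫ θ in (0 : ℝ)..2 * Real.pi, f1 w g ((Real.log w : ℝ) + θ * I)) =
      pp * ∫ θ in (0 : ℝ)..2 * Real.pi, f2 w g ((Real.log w : ℝ) + θ * I) := by
    rw [← intervalIntegral.integral_const_mul]
    refine intervalIntegral.integral_congr fun θ hθ => ?_
    rw [uIcc_of_le (by positivity)] at hθ
    exact f1_eq_f2 hw hθ.1 hθ.2
  have h2 := inner_lim hw hw1 hg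
  rw [h1]
  linear_combination pp * h2 + (∫ y in (0 : ℝ)..w, F2 w g y) * pp_pow3

end

end Pool.Agent.E8helper42.TG
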