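import Pool.Agent.E8helper42.TG.Det
import Pool.Agent.E8helper42.GF.GalD

/-!
# The period matrix
-/

set_option autoImplicit false
set_option linter.unusedSectionVars false

open Complex Set MeasureTheory Filter Topology intervalIntegral

namespace Pool.Agent.E8helper42.TG

open Pool.Agent.Y890.HE (Ord Ord_open Ord_convex Ord_real Ord_nonempty real_zero)
open Pool.Agent.E8helper42.GF (AlgF)

variable {n : ℕ}

/-- the product of the differences with one point -/
noncomputable def vi (i : Fin (n + 1)) (e : Fin (n + 1) → ℂ) : ℂ := ∏ r ∈ Finset.univ.erase i, (e i - e r)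

lemma vi_ne {e : Fin (n + 1) → ℂ} (he : e ∈ Ord n) (i : Fin (n + 1)) : vi i e ≠ 0 :=
  Finset.prod_ne_zero_iff.2 fun _ hj => Ord_ne he (Ne.symm (Finset.ne_of_mem_erase hj))

/-- the coefficients of Lagrange -/
noncomputable def be (j : ℕ) (i : Fin (n + 1)) (e : Fin (n + 1) → ℂ) : ℂ := e i ^ j / vi i e

lemma Ord_inj {e : Fin (n + 1) → ℂ} (he : e ∈ Ord n) : Function.Injective e := by
  intro i k h
  by_contra hik
  exact Ord_ne he hik (sub_eq_zero.2 h)

lemma lagr_poly {e : Fin (n + 1) → ℂ} (he : e ∈ Ord n) {j : ℕ} (hj : j ≤ n) :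
    ∑ i, Polynomial.C (be j i e) * ∏ r ∈ Finset.univ.erase i, (Polynomial.X - Polynomial.C (e r)) =
      Polynomial.X ^ j := by
  classical
  have hcard : (Finset.univ.image e).card = n + 1 := by
    rw [Finset.card_image_of_injective _ (Ord_inj he), Finset.card_univ, Fintype.card_fin]
  refine Polynomial.eq_of_degree_sub_lt_of_eval_finset_eq (Finset.univ.image e) ?_ ?_
  · rw [hcard]
    refine lt_of_le_of_lt (Polynomial.degree_sub_le _ _) (max_lt ?_ ?_)
    · refine lt_of_le_of_lt (Polynomial.degree_sum_le _ _) ?_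
      rw [Finset.sup_lt_iff (WithBot.bot_lt_coe _)]
      intro i _
      refine lt_of_le_of_lt Polynomial.degree_le_natDegree ?_
      have h9 := Polynomial.natDegree_C_mul_le (be j i e) (∏ r ∈ Finset.univ.erase i,
        (Polynomial.X - Polynomial.C (e r)))
      rw [Polynomial.natDegree_finsetProd_X_sub_C_eq_card, Finset.card_erase_of_mem (Finset.mem_univ _),
        Finset.card_univ, Fintype.card_fin] at h9
      exact_mod_cast (by omega : _ < n + 1)
    · rw [Polynomial.degree_X_pow]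
      exact_mod_cast (by omega : j < n + 1)
  · intro x hx
    obtain ⟨k, -, rfl⟩ := Finset.mem_image.1 hx
    rw [Polynomial.eval_finsetSum, Polynomial.eval_pow, Polynomial.eval_X, Finset.sum_eq_single k]
    · rw [Polynomial.eval_mul, Polynomial.eval_C, Polynomial.eval_prod]
      simp only [Polynomial.eval_sub, Polynomial.eval_X, Polynomial.eval_C]
      have h := vi_ne he k
      unfold be
      unfold vi at h ⊢
      rw [div_mul_cancel₀ _ h]
    · intro i _ hi
      rw [Polynomial.eval_mul, Polynomial.eval_prod, Finset.prod_eq_zero (Finset.mem_erase.2 ⟨Ne.symm hi,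
        Finset.mem_univ k⟩), mul_zero]
      simp
    · intro h
      exact absurd (Finset.mem_univ _) h

lemma lagr {e : Fin (n + 1) → ℂ} (he : e ∈ Ord n) {j : ℕ} (hj : j ≤ n) (x : ℂ) :
    ∑ i, be j i e * ∏ r ∈ Finset.univ.erase i, (x - e r) = x ^ j := by
  have h := congrArg (Polynomial.eval x) (lagr_poly he hj)
  rw [Polynomial.eval_finsetSum, Polynomial.eval_pow, Polynomial.eval_X] at h
  rw [← h]
  refine Finset.sum_congr rfl fun i _ => ?_
  rw [Polynomial.eval_mul, Polynomial.eval_C, Polynomial.eval_prod]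
  simp

lemma lagr_top {e : Fin (n + 1) → ℂ} (he : e ∈ Ord n) {j : ℕ} (hj : j ≤ n) :
    ∑ i, be j i e = if j = n then 1 else 0 := by
  have h := congrArg (fun p => Polynomial.coeff p n) (lagr_poly he hj)
  simp only [Polynomial.finsetSum_coeff, Polynomial.coeff_C_mul, Polynomial.coeff_X_pow] at h
  have h2 : ∀ i : Fin (n + 1), (∏ r ∈ Finset.univ.erase i, (Polynomial.X - Polynomial.C (e r))).coeff n = 1 := by
    intro i
    have h3 := Polynomial.monic_prod_X_sub_C e (Finset.univ.erase i)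
    have h4 : (∏ r ∈ Finset.univ.erase i, (Polynomial.X - Polynomial.C (e r))).natDegree = n := by
      rw [Polynomial.natDegree_finsetProd_X_sub_C_eq_card, Finset.card_erase_of_mem (Finset.mem_univ _),
        Finset.card_univ, Fintype.card_fin, Nat.add_sub_cancel]
    have h5 := h3.coeff_natDegree
    rwa [h4] at h5
  simp only [h2, mul_one] at h
  rw [h]
  simp only [eq_comm]

/-- the period of the form `x ^ j dx / y` on the segment `l` -/
noncomputable def PP (j : ℕ) (l : Fin n) (e : Fin (n + 1) → ℂ) : ℂ :=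
  ∫ u in (0 : ℝ)..1, dd l e * (xx l e u ^ j * yi l e (xx l e u))

lemma WW_int {e : Fin (n + 1) → ℂ} (he : e ∈ Ord n) (i : Fin (n + 1)) (l : Fin n) :
    WW i l e = ∫ u in (0 : ℝ)..1, dd l e * (yi l e (xx l e u) * ∏ k ∈ Finset.univ.erase i, (xx l e u - e k)) := by
  have hd := Ord_dd he l
  unfold WW
  rw [JJ_eq hd, ← intervalIntegral.integral_const_mul]
  refine int_congr fun u hu => ?_
  rw [← fp_ai (ok_xx (Ord_Dm he l) hd hu) i]
  ring

lemma WW_intble {e : Fin (n + 1) → ℂ} (he : e ∈ Ord n) (i : Fin (n + 1)) (l : Fin n) (c : ℂ) :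
    IntervalIntegrable (fun u => c * (dd l e * (yi l e (xx l e u) * ∏ k ∈ Finset.univ.erase i, (xx l e u - e k))))
      volume 0 1 := by
  have hd := Ord_dd he l
  have h1 := fp_int (Ord_Dm he l) hd (ai_re i l.castSucc) (ai_re i l.succ) (c := fun _ => c * sg l i) continuousOn_const
  refine h1.congr_ae ?_
  rw [uIoc_of_le zero_le_one, ← Measure.restrict_congr_set Ioo_ae_eq_Ioc]
  filter_upwards [ae_restrict_mem measurableSet_Ioo] with u hu
  rw [← fp_ai (ok_xx (Ord_Dm he l) hd hu) i]
  ring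

/-- **the periods in terms of the basic integrals** -/
lemma PP_eq {e : Fin (n + 1) → ℂ} (he : e ∈ Ord n) {j : ℕ} (hj : j ≤ n) (l : Fin n) :
    PP j l e = ∑ i, be j i e * WW i l e := by
  simp only [WW_int he, ← intervalIntegral.integral_const_mul]
  rw [← intervalIntegral.integral_finsetSum fun i _ => WW_intble he i l _]
  unfold PP
  refine intervalIntegral.integral_congr fun u _ => ?_
  rw [← lagr he hj (xx l e u), Finset.sum_mul, Finset.mul_sum]
  refine Finset.sum_congr rfl fun i _ => ?_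
  ring

lemma vi_an (i : Fin (n + 1)) (e : Fin (n + 1) → ℂ) : AnalyticAt ℂ (vi i) e := by
  have h3 : ∀ i : Fin (n + 1), AnalyticAt ℂ (fun e : Fin (n + 1) → ℂ => e i) e := fun i =>
    (ContinuousLinearMap.proj (R := ℂ) (φ := fun _ : Fin (n + 1) => ℂ) i).analyticAt e
  exact Finset.analyticAt_fun_prod _ fun r _ => (h3 i).sub (h3 r)

lemma be_an {j : ℕ} {i : Fin (n + 1)} {e : Fin (n + 1) → ℂ} (h : vi i e ≠ 0) : AnalyticAt ℂ (be j i) e := by
  have h3 : ∀ i : Fin (n + 1), AnalyticAt ℂ (fun e : Fin (n + 1) → ℂ => e i) e := fun i =>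
    (ContinuousLinearMap.proj (R := ℂ) (φ := fun _ : Fin (n + 1) => ℂ) i).analyticAt e
  exact ((h3 i).pow j).div (vi_an i e) h

lemma PP_an {j : ℕ} (hj : j ≤ n) (l : Fin n) : AnalyticOnNhd ℂ (PP j l) (Ord n) := by
  intro e he
  have h1 : AnalyticAt ℂ (fun e => ∑ i, be j i e * WW i l e) e :=
    Finset.analyticAt_fun_sum _ fun i _ => (be_an (vi_ne he i)).mul (WW_an i l e he)
  refine h1.congr ?_
  filter_upwards [(Ord_open n).mem_nhds he] with z hz
  exact (PP_eq hz hj l).symm

/-- the period matrix -/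
noncomputable def Pm (e : Fin (n + 1) → ℂ) : Matrix (Fin n) (Fin n) ℂ := Matrix.of fun j l => PP j l e

/-- the matrix of the coefficients -/
noncomputable def Bh (e : Fin (n + 1) → ℂ) : Matrix (Fin (n + 1)) (Fin (n + 1)) ℂ := Matrix.of fun j i => be j i e

lemma Bh_mul_Wh_cast {e : Fin (n + 1) → ℂ} (he : e ∈ Ord n) (j : Fin (n + 1)) (l : Fin n) :
    (Bh e * Wh e) j l.castSucc = PP j l e := by
  rw [Matrix.mul_apply, PP_eq he (by omega) l]
  refine Finset.sum_congr rfl fun i _ => ?_
  rw [Wh_cast]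
  rfl

lemma Bh_mul_Wh_last {e : Fin (n + 1) → ℂ} (he : e ∈ Ord n) (j : Fin (n + 1)) :
    (Bh e * Wh e) j (Fin.last n) = if (j : ℕ) = n then 1 else 0 := by
  rw [Matrix.mul_apply, ← lagr_top he (by omega)]
  refine Finset.sum_congr rfl fun i _ => ?_
  rw [Wh_last, mul_one]
  rfl

lemma det_Bh_Wh {e : Fin (n + 1) → ℂ} (he : e ∈ Ord n) : (Bh e * Wh e).det = (Pm e).det := by
  rw [Matrix.det_succ_column _ (Fin.last n), Finset.sum_eq_single (Fin.last n)]
  · rw [Bh_mul_Wh_last he, if_pos (by simp), mul_one]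
    have h1 : ((-1 : ℂ)) ^ ((Fin.last n : ℕ) + (Fin.last n : ℕ)) = 1 := by
      rw [← two_mul, pow_mul]
      simp
    rw [h1, one_mul]
    congr 1
    ext j l
    rw [Matrix.submatrix_apply, Fin.succAbove_last_apply, Fin.succAbove_last_apply, Bh_mul_Wh_cast he]
    rfl
  · intro i _ hi
    rw [Bh_mul_Wh_last he, if_neg, mul_zero, zero_mul]
    intro h
    exact hi (Fin.ext (by simpa using h))
  · intro h
    exact absurd (Finset.mem_univ _) h

lemma det_Bh (e : Fin (n + 1) → ℂ) : (Bh e).det = (Matrix.vandermonde e).det * ∏ i, (vi i e)⁻¹ := by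
  have h1 : Bh e = (Matrix.vandermonde e).transpose * Matrix.diagonal fun i => (vi i e)⁻¹ := by
    ext j i
    rw [Matrix.mul_diagonal, Matrix.transpose_apply, Matrix.vandermonde_apply]
    rfl
  rw [h1, Matrix.det_mul, Matrix.det_transpose, Matrix.det_diagonal]

lemma VV_eq (e : Fin (n + 1) → ℂ) : VV e = ∏ i, vi i e := rfl

/-- **the determinant of the periods** -/
theorem Pm_det : ∃ c : ℂ, ∀ e ∈ Ord n, (Pm e).det ^ 3 * VV e = c * (Matrix.vandermonde e).det ^ 3 := by
  obtain ⟨c, hc⟩ := det_const (n := n)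
  refine ⟨c, fun e he => ?_⟩
  have h1 := hc e he
  have hV := VV_ne he
  rw [← det_Bh_Wh he, Matrix.det_mul, det_Bh, Finset.prod_inv_distrib, ← VV_eq]
  have h2 : ((Matrix.vandermonde e).det * (VV e)⁻¹ * (Wh e).det) ^ 3 * VV e =
      (Matrix.vandermonde e).det ^ 3 * ((VV e)⁻¹ ^ 2) * (Wh e).det ^ 3 := by
    field_simp
  rw [h2, h1]
  field_simp

/-- the polynomial -/
noncomputable def VVp (n : ℕ) : MvPolynomial (Fin (n + 1)) ℂ :=
  ∏ i, ∏ j ∈ Finset.univ.erase i, (MvPolynomial.X i - MvPolynomial.X j)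

lemma VVp_eval (e : Fin (n + 1) → ℂ) : MvPolynomial.eval e (VVp n) = VV e := by
  unfold VVp VV
  rw [map_prod]
  refine Finset.prod_congr rfl fun i _ => ?_
  rw [map_prod]
  refine Finset.prod_congr rfl fun j _ => ?_
  rw [map_sub, MvPolynomial.eval_X, MvPolynomial.eval_X]

lemma VVp_ne : VVp n ≠ 0 := by
  intro h
  obtain ⟨e, he⟩ := Ord_nonempty n
  have h1 := VVp_eval (n := n) e
  rw [h, map_zero] at h1
  exact VV_ne he h1.symm

/-- the determinant is algebraic -/
theorem det_alg : AlgF (Ord n) (fun e => (Pm e).det) := by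
  obtain ⟨c, hc⟩ := Pm_det (n := n)
  refine ⟨Polynomial.C (VVp n) * Polynomial.X ^ 3 - Polynomial.C (MvPolynomial.C c *
    (Matrix.vandermonde (fun i : Fin (n + 1) => (MvPolynomial.X i : MvPolynomial (Fin (n + 1)) ℂ))).det ^ 3), ?_, ?_⟩
  · intro h
    have h1 := congrArg (fun p => Polynomial.coeff p 3) h
    simp only [Polynomial.coeff_sub, Polynomial.coeff_C_mul, Polynomial.coeff_X_pow, if_true, mul_one,
      Polynomial.coeff_C, Polynomial.coeff_zero] at h1
    norm_num at h1
    exact VVp_ne h1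
  · intro e he
    rw [Polynomial.map_sub, Polynomial.map_mul, Polynomial.map_pow, Polynomial.map_X, Polynomial.map_C,
      Polynomial.map_C, Polynomial.eval_sub, Polynomial.eval_mul, Polynomial.eval_pow, Polynomial.eval_X,
      Polynomial.eval_C, Polynomial.eval_C, map_mul, map_pow, MvPolynomial.eval_C, VVp_eval]
    have h2 : MvPolynomial.eval e (Matrix.vandermonde (fun i : Fin (n + 1) =>
        (MvPolynomial.X i : MvPolynomial (Fin (n + 1)) ℂ))).det = (Matrix.vandermonde e).det := by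
      rw [RingHom.map_det]
      congr 1
      ext i j
      simp [Matrix.vandermonde_apply]
    rw [h2, ← hc e he]
    ring

end Pool.Agent.E8helper42.TG
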