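import Pool.Agent.E8helper42.TG.Mat

/-!
# The determinant of the periods is not zero
-/

set_option autoImplicit false
set_option linter.unusedSectionVars false

open Complex Set MeasureTheory Filter Topology intervalIntegral

namespace Pool.Agent.E8helper42.TG

open Pool.Agent.Y890.HE (Ord Ord_open Ord_convex Ord_real Ord_nonempty real_zero)

variable {n : ℕ}

lemma PP_intble {e : Fin (n + 1) → ℂ} (he : e ∈ Ord n) (j : ℕ) (l : Fin n) (c : ℂ) :
    IntervalIntegrable (fun u => c * (dd l e * (xx l e u ^ j * yi l e (xx l e u)))) volume 0 1 := by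
  have hre : -1 < (nu - 1).re := by
    rw [Complex.sub_re, nu_re', Complex.one_re]
    norm_num
  have h1 := fp_int (α := fun _ => nu - 1) (Ord_Dm he l) (Ord_dd he l) hre hre
    (c := fun u => c * (∏ k, sg l k) * xx l e u ^ j) (by unfold xx; fun_prop)
  refine h1.congr fun u _ => ?_
  rw [yi_eq]
  ring

/-- the real point of the segment -/
noncomputable def xr (l : Fin n) (a : Fin (n + 1) → ℝ) (u : ℝ) : ℝ := a l.castSucc + u * (a l.succ - a l.castSucc)

/-- the positive weight -/
noncomputable def wr (l : Fin n) (a : Fin (n + 1) → ℝ) (x : ℝ) : ℝ :=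
  (∏ i ∈ Finset.Iic l.castSucc, (x - a i) ^ (-(1 / 3) : ℝ)) * ∏ i ∈ Finset.Ici l.succ, (a i - x) ^ (-(1 / 3) : ℝ)

lemma xr_lt {a : Fin (n + 1) → ℝ} (ha : StrictMono a) (l : Fin n) {u : ℝ} (hu : u ∈ Ioo (0 : ℝ) 1) :
    a l.castSucc < xr l a u ∧ xr l a u < a l.succ := by
  have h := ha (cs_lt l)
  unfold xr
  constructor
  · nlinarith [mul_pos hu.1 (sub_pos.2 h)]
  · nlinarith [mul_pos (sub_pos.2 hu.2) (sub_pos.2 h)]

lemma wr_pos {a : Fin (n + 1) → ℝ} (ha : StrictMono a) (l : Fin n) {u : ℝ} (hu : u ∈ Ioo (0 : ℝ) 1) :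
    0 < wr l a (xr l a u) := by
  obtain ⟨h1, h2⟩ := xr_lt ha l hu
  refine mul_pos (Finset.prod_pos fun i hi => ?_) (Finset.prod_pos fun i hi => ?_)
  · refine Real.rpow_pos_of_pos ?_ _
    have := ha.monotone (Finset.mem_Iic.1 hi)
    linarith
  · refine Real.rpow_pos_of_pos ?_ _
    have := ha.monotone (Finset.mem_Ici.1 hi)
    linarith

lemma xx_real (a : Fin (n + 1) → ℝ) (l : Fin n) (u : ℝ) : xx l (fun i => (a i : ℂ)) u = (xr l a u : ℂ) := by
  unfold xx dd xr
  push_cast
  ring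

lemma yi_real {a : Fin (n + 1) → ℝ} (ha : StrictMono a) (l : Fin n) {u : ℝ} (hu : u ∈ Ioo (0 : ℝ) 1) :
    yi l (fun i => (a i : ℂ)) (xr l a u : ℂ) = (∏ i ∈ (Finset.Ici l.succ : Finset (Fin (n + 1))), (-1 : ℂ)) *
      ((wr l a (xr l a u) : ℝ) : ℂ) := by
  obtain ⟨h1, h2⟩ := xr_lt ha l hu
  have h3 : (-(1 / 3) : ℂ) = ((-(1 / 3) : ℝ) : ℂ) := by push_cast; ring
  unfold yi wr
  push_cast
  have e1 : ∏ i ∈ (Finset.Iic l.castSucc : Finset (Fin (n + 1))), ((xr l a u : ℂ) - (a i : ℂ)) ^ (-(1 / 3) : ℂ) =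
      ∏ i ∈ (Finset.Iic l.castSucc : Finset (Fin (n + 1))), (((xr l a u - a i) ^ (-(1 / 3) : ℝ) : ℝ) : ℂ) := by
    refine Finset.prod_congr rfl fun i hi => ?_
    have := ha.monotone (Finset.mem_Iic.1 hi)
    rw [Complex.ofReal_cpow (by linarith)]
    push_cast
    ring_nf
  have e2 : ∏ i ∈ (Finset.Ici l.succ : Finset (Fin (n + 1))), -((a i : ℂ) - (xr l a u : ℂ)) ^ (-(1 / 3) : ℂ) =
      (∏ i ∈ (Finset.Ici l.succ : Finset (Fin (n + 1))), (-1 : ℂ)) *
      ∏ i ∈ (Finset.Ici l.succ : Finset (Fin (n + 1))), (((a i - xr l a u) ^ (-(1 / 3) : ℝ) : ℝ) : ℂ) := by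
    rw [← Finset.prod_mul_distrib]
    refine Finset.prod_congr rfl fun i hi => ?_
    have := ha.monotone (Finset.mem_Ici.1 hi)
    rw [Complex.ofReal_cpow (by linarith)]
    push_cast
    ring_nf
  rw [e1, e2]
  ring

/-- a continuous function without zeros has a constant sign -/
lemma const_sign {f : ℝ → ℝ} (hf : ContinuousOn f (Ioo 0 1)) (h0 : ∀ u ∈ Ioo (0 : ℝ) 1, f u ≠ 0) :
    (∀ u ∈ Ioo (0 : ℝ) 1, 0 < f u) ∨ ∀ u ∈ Ioo (0 : ℝ) 1, f u < 0 := by
  by_contra hcon
  push Not at hcon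
  obtain ⟨⟨u, hu, hu'⟩, v, hv, hv'⟩ := hcon
  obtain ⟨w, hw, hw'⟩ := isPreconnected_Ioo.intermediate_value hu hv hf ⟨hu', hv'⟩
  exact h0 w hw hw'

/-- a real polynomial which is orthogonal to the weight has a root in the segment -/
lemma root_exists {a : Fin (n + 1) → ℝ} (ha : StrictMono a) (r : Fin n → ℝ) (l : Fin n)
    (h : ∑ j, (r j : ℂ) * PP j l (fun i => (a i : ℂ)) = 0) :
    ∃ x, a l.castSucc < x ∧ x < a l.succ ∧ ∑ j, r j * x ^ (j : ℕ) = 0 := by
  have he := Ord_real ha
  have hd : 0 < a l.succ - a l.castSucc := sub_pos.2 (ha (cs_lt l))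
  have hdd : dd l (fun i => (a i : ℂ)) = ((a l.succ - a l.castSucc : ℝ) : ℂ) := by
    unfold dd
    push_cast
    rfl
  set s : ℂ := ∏ i ∈ (Finset.Ici l.succ : Finset (Fin (n + 1))), (-1 : ℂ) with hs
  have hs0 : s ≠ 0 := Finset.prod_ne_zero_iff.2 fun _ _ => by norm_num
  set p : ℝ → ℝ := fun x => ∑ j, r j * x ^ (j : ℕ) with hp
  have hpc : Continuous p := by
    rw [hp]
    fun_prop
  have hkey : ∀ u ∈ Ioo (0 : ℝ) 1, ∑ j : Fin n, (r j : ℂ) * (dd l (fun i => (a i : ℂ)) *
      (xx l (fun i => (a i : ℂ)) u ^ (j : ℕ) * yi l (fun i => (a i : ℂ)) (xx l (fun i => (a i : ℂ)) u))) =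
      s * (((a l.succ - a l.castSucc) * (p (xr l a u) * wr l a (xr l a u)) : ℝ) : ℂ) := by
    intro u hu
    simp only [xx_real, yi_real ha l hu, hdd]
    rw [hp]
    push_cast
    rw [Finset.sum_mul, Finset.mul_sum, Finset.mul_sum]
    refine Finset.sum_congr rfl fun j _ => ?_
    ring
  have h1 : ∫ u in (0 : ℝ)..1, (s * (((a l.succ - a l.castSucc) * (p (xr l a u) * wr l a (xr l a u)) : ℝ) : ℂ)) = 0 := by
    rw [← h]
    unfold PP
    simp only [← intervalIntegral.integral_const_mul]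
    rw [← intervalIntegral.integral_finsetSum fun (j : Fin n) _ => PP_intble he (j : ℕ) l _]
    exact (int_congr hkey).symm
  rw [intervalIntegral.integral_const_mul, intervalIntegral.integral_ofReal] at h1
  have h2 : ∫ u in (0 : ℝ)..1, (a l.succ - a l.castSucc) * (p (xr l a u) * wr l a (xr l a u)) = 0 := by
    have h3 := (mul_eq_zero.1 h1).resolve_left hs0
    exact_mod_cast h3
  have hint : IntervalIntegrable (fun u => (a l.succ - a l.castSucc) * (p (xr l a u) * wr l a (xr l a u))) volume 0 1 := by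
    have h3 : IntervalIntegrable (fun u => s⁻¹ * ∑ j : Fin n, (r j : ℂ) * (dd l (fun i => (a i : ℂ)) *
        (xx l (fun i => (a i : ℂ)) u ^ (j : ℕ) * yi l (fun i => (a i : ℂ)) (xx l (fun i => (a i : ℂ)) u)))) volume 0 1 := by
      refine IntervalIntegrable.const_mul ?_ _
      have h9 := IntervalIntegrable.sum Finset.univ fun (j : Fin n) _ => PP_intble he (j : ℕ) l (r j : ℂ)
      refine h9.congr fun u _ => ?_
      rw [Finset.sum_apply]
    have h4 : IntervalIntegrable (fun u => (((a l.succ - a l.castSucc) * (p (xr l a u) * wr l a (xr l a u)) : ℝ) : ℂ))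
        volume 0 1 := by
      refine h3.congr_ae ?_
      rw [uIoc_of_le zero_le_one, ← Measure.restrict_congr_set Ioo_ae_eq_Ioc]
      filter_upwards [ae_restrict_mem measurableSet_Ioo] with u hu
      rw [hkey u hu, ← mul_assoc, inv_mul_cancel₀ hs0, one_mul]
    rw [intervalIntegrable_iff_integrableOn_Ioc_of_le zero_le_one] at h4 ⊢
    have h5 := h4.re
    simpa [IntegrableOn] using h5
  by_contra hcon
  push Not at hcon
  have hne : ∀ u ∈ Ioo (0 : ℝ) 1, p (xr l a u) ≠ 0 := fun u hu =>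
    hcon _ (xr_lt ha l hu).1 (xr_lt ha l hu).2
  have hc : ContinuousOn (fun u => p (xr l a u)) (Ioo 0 1) := by
    refine Continuous.continuousOn (hpc.comp ?_)
    unfold xr
    fun_prop
  rcases const_sign hc hne with hpos | hneg
  · have h6 := intervalIntegral.intervalIntegral_pos_of_pos_on hint
      (fun u hu => mul_pos hd (mul_pos (hpos u hu) (wr_pos ha l hu))) zero_lt_one
    linarith
  · have h6 := intervalIntegral.intervalIntegral_pos_of_pos_on hint.neg
      (fun u hu => by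
        have := mul_pos hd (mul_pos (neg_pos.2 (hneg u hu)) (wr_pos ha l hu))
        simp only [Pi.neg_apply]
        linarith) zero_lt_one
    simp only [Pi.neg_apply, intervalIntegral.integral_neg] at h6
    linarith

/-- the periods of real configurations are real up to a sign -/
lemma PP_real {a : Fin (n + 1) → ℝ} (ha : StrictMono a) (j : ℕ) (l : Fin n) :
    ∃ s : ℂ, s ≠ 0 ∧ (∀ j : ℕ, ∃ t : ℝ, PP j l (fun i => (a i : ℂ)) = s * t) := by
  refine ⟨∏ i ∈ (Finset.Ici l.succ : Finset (Fin (n + 1))), (-1 : ℂ),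
    Finset.prod_ne_zero_iff.2 fun _ _ => by norm_num, fun j => ?_⟩
  refine ⟨∫ u in (0 : ℝ)..1, (a l.succ - a l.castSucc) * (xr l a u ^ j * wr l a (xr l a u)), ?_⟩
  rw [← intervalIntegral.integral_ofReal, ← intervalIntegral.integral_const_mul]
  unfold PP
  refine int_congr fun u hu => ?_
  have hdd : dd l (fun i => (a i : ℂ)) = ((a l.succ - a l.castSucc : ℝ) : ℂ) := by
    unfold dd
    push_cast
    rfl
  rw [xx_real, yi_real ha l hu, hdd]
  push_cast
  ring

theorem det_real_ne {a : Fin (n + 1) → ℝ} (ha : StrictMono a) : (Pm (fun i => (a i : ℂ))).det ≠ 0 := by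
  intro h0
  obtain ⟨v, hv, hv0⟩ := Matrix.exists_vecMul_eq_zero_iff.2 h0
  -- a real vector
  have hreal : ∃ r : Fin n → ℝ, r ≠ 0 ∧ ∀ l, ∑ j, (r j : ℂ) * PP j l (fun i => (a i : ℂ)) = 0 := by
    have hl : ∀ l, ∑ j, v j * PP j l (fun i => (a i : ℂ)) = 0 := by
      intro l
      have h1 := congrFun hv0 l
      rw [Matrix.vecMul, dotProduct, Pi.zero_apply] at h1
      exact h1
    have hparts : ∀ l, (∑ j, ((v j).re : ℂ) * PP j l (fun i => (a i : ℂ)) = 0) ∧
        ∑ j, ((v j).im : ℂ) * PP j l (fun i => (a i : ℂ)) = 0 := by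
      intro l
      obtain ⟨s, hs, hst⟩ := PP_real ha 0 l
      choose t ht using hst
      have h1 := hl l
      simp only [ht] at h1 ⊢
      have h2 : ∑ j : Fin n, v j * (t j : ℂ) = 0 := by
        have h3 : s * ∑ j : Fin n, v j * (t j : ℂ) = 0 := by
          rw [← h1, Finset.mul_sum]
          exact Finset.sum_congr rfl fun j _ => by ring
        exact (mul_eq_zero.1 h3).resolve_left hs
      have h4 : ∑ j : Fin n, (v j).re * t j = 0 := by
        have := congrArg Complex.re h2
        simpa using this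
      have h5 : ∑ j : Fin n, (v j).im * t j = 0 := by
        have := congrArg Complex.im h2
        simpa using this
      constructor
      · have h6 : ∑ j : Fin n, ((v j).re : ℂ) * (s * (t j : ℂ)) = s * ((∑ j : Fin n, (v j).re * t j : ℝ) : ℂ) := by
          push_cast
          rw [Finset.mul_sum]
          exact Finset.sum_congr rfl fun j _ => by ring
        rw [h6, h4]
        simp
      · have h6 : ∑ j : Fin n, ((v j).im : ℂ) * (s * (t j : ℂ)) = s * ((∑ j : Fin n, (v j).im * t j : ℝ) : ℂ) := by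
          push_cast
          rw [Finset.mul_sum]
          exact Finset.sum_congr rfl fun j _ => by ring
        rw [h6, h5]
        simp
    by_cases h : (fun j => (v j).re) = 0
    · refine ⟨fun j => (v j).im, fun h' => hv ?_, fun l => (hparts l).2⟩
      funext j
      exact Complex.ext (congrFun h j) (congrFun h' j)
    · exact ⟨_, h, fun l => (hparts l).1⟩
  obtain ⟨r, hr, hrl⟩ := hreal
  choose x hx1 hx2 hx3 using fun l => root_exists ha r l (hrl l)
  have hinj : Function.Injective x := by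
    intro l l' hll
    by_contra hne
    rcases lt_or_gt_of_ne hne with h | h
    · have h1 := ha.monotone (show l.succ ≤ l'.castSucc from Fin.le_def.2 (by
        have := Fin.lt_def.1 h
        simp only [Fin.val_succ, Fin.val_castSucc]
        omega))
      have := hx2 l
      have := hx1 l'
      linarith
    · have h1 := ha.monotone (show l'.succ ≤ l.castSucc from Fin.le_def.2 (by
        have := Fin.lt_def.1 h
        simp only [Fin.val_succ, Fin.val_castSucc]
        omega))
      have := hx2 l'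
      have := hx1 l
      linarith
  apply hr
  funext j
  exact congrFun (Matrix.eq_zero_of_forall_index_sum_pow_mul_eq_zero hinj (fun l => by
    rw [← hx3 l]
    exact Finset.sum_congr rfl fun j _ => mul_comm _ _)) j

theorem det_ne : ∃ e ∈ Ord n, (Pm e).det ≠ 0 :=
  ⟨_, Ord_real (e := fun i : Fin (n + 1) => (i : ℝ)) (fun i k h => by
    show ((i : ℕ) : ℝ) < ((k : ℕ) : ℝ)
    exact_mod_cast h), det_real_ne (fun i k h => by
    show ((i : ℕ) : ℝ) < ((k : ℕ) : ℝ)
    exact_mod_cast h)⟩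

end Pool.Agent.E8helper42.TG
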