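import Pool.Agent.E8helper42.TG.Tri

/-!
# The differential equations
-/

set_option autoImplicit false
set_option linter.unusedSectionVars false

open Complex Set MeasureTheory Filter Topology intervalIntegral

namespace Pool.Agent.E8helper42.TG

open Pool.Agent.Y890.HE (Ord Ord_open Ord_convex Ord_real Ord_nonempty real_zero)

variable {n : ℕ}

lemma nu_pos : 0 < nu.re := nu_re

/-- the basic integrals -/
noncomputable def Ph (l : Fin n) (e : Fin (n + 1) → ℂ) : ℂ := JJ (fun _ => nu) l e

lemma Ph_an (l : Fin n) : AnalyticOnNhd ℂ (Ph l) (Ord n) := fun e he =>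
  JJ_an l (α := fun _ => nu) (by rw [nu_re']; norm_num) (by rw [nu_re']; norm_num) e ⟨Ord_Dm he l, Ord_dd he l⟩

lemma WW_an (i : Fin (n + 1)) (l : Fin n) : AnalyticOnNhd ℂ (WW i l) (Ord n) := fun e he =>
  analyticAt_const.mul (JJ_an l (α := ai i) (ai_re _ _) (ai_re _ _) e ⟨Ord_Dm he l, Ord_dd he l⟩)

lemma line_deriv {f : (Fin (n + 1) → ℂ) → ℂ} {e : Fin (n + 1) → ℂ} (hf : DifferentiableAt ℂ f e) (k : Fin (n + 1)) :
    HasDerivAt (fun t => f (ln1 e k t)) (fderiv ℂ f e (Pi.single k 1)) 0 :=
  hf.hasFDerivAt.hasLineDerivAt (Pi.single k 1)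

/-- the partial derivatives of the basic integrals -/
lemma Ph_deriv {e : Fin (n + 1) → ℂ} (l : Fin n) (he : e ∈ Dm l) (hd : 0 < (dd l e).re) (k : Fin (n + 1)) :
    HasDerivAt (fun t => Ph l (ln1 e k t)) (-nu * WW k l e) 0 := by
  have h := JJ_deriv (α := fun _ => nu) he hd (by rw [nu_re']; norm_num) (by rw [nu_re']; norm_num) k nu_pos
  refine h.congr_deriv ?_
  unfold WW ai
  ring

lemma ones_eq : (1 : Fin (n + 1) → ℂ) = ∑ k, Pi.single k 1 := by
  funext i
  rw [Finset.sum_apply, Pi.one_apply, Finset.sum_eq_single i, Pi.single_eq_same]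
  · intro k _ hk
    rw [Pi.single_eq_of_ne (Ne.symm hk)]
  · intro h
    exact absurd (Finset.mem_univ _) h

lemma Ph_trans (l : Fin n) (e : Fin (n + 1) → ℂ) (t : ℂ) : Ph l (e + t • 1) = Ph l e := by
  unfold Ph JJ II GI
  have h1 : dd l (e + t • 1) = dd l e := by
    unfold dd
    simp
  rw [h1]
  congr 1
  refine intervalIntegral.integral_congr fun u _ => ?_
  simp only
  congr 1
  unfold gp
  congr 1
  · refine Finset.prod_congr rfl fun i _ => ?_
    congr 1
    simp only [Pi.add_apply, Pi.smul_apply, Pi.one_apply, smul_eq_mul, mul_one]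
    ring
  · refine Finset.prod_congr rfl fun i _ => ?_
    congr 1
    simp only [Pi.add_apply, Pi.smul_apply, Pi.one_apply, smul_eq_mul, mul_one]
    ring

/-- the sum rule -/
lemma WW_sum {e : Fin (n + 1) → ℂ} (he : e ∈ Ord n) (l : Fin n) : ∑ k, WW k l e = 0 := by
  have hf : DifferentiableAt ℂ (Ph l) e := (Ph_an l e he).differentiableAt
  have h1 : ∀ k, fderiv ℂ (Ph l) e (Pi.single k 1) = -nu * WW k l e := fun k =>
    (line_deriv hf k).unique (Ph_deriv l (Ord_Dm he l) (Ord_dd he l) k)
  have h2 : fderiv ℂ (Ph l) e 1 = 0 := by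
    have h3 : HasDerivAt (fun t : ℂ => Ph l (e + t • (1 : Fin (n + 1) → ℂ))) (fderiv ℂ (Ph l) e 1) 0 :=
      hf.hasFDerivAt.hasLineDerivAt 1
    have h4 : (fun t : ℂ => Ph l (e + t • (1 : Fin (n + 1) → ℂ))) = fun _ => Ph l e := funext fun t => Ph_trans l e t
    rw [h4] at h3
    exact h3.unique (hasDerivAt_const _ _)
  rw [ones_eq, map_sum, Finset.sum_congr rfl fun k _ => h1 k, ← Finset.mul_sum] at h2
  have h3 : -nu ≠ 0 := neg_ne_zero.2 nu_ne
  exact (mul_eq_zero.1 h2).resolve_left h3

/-- the differences -/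
lemma WW_sub {e : Fin (n + 1) → ℂ} (he : e ∈ Ord n) (l : Fin n) {i k : Fin (n + 1)} (hik : i ≠ k) :
    sg l i * sg l k * (e i - e k) * JJ (Function.update (ai i) k (nu - 1)) l e = WW i l e - WW k l e := by
  have hD := Ord_Dm he l
  have hd := Ord_dd he l
  set a2 := Function.update (ai i) k (nu - 1) with ha2
  have ha2' : a2 = Function.update (ai k) i (nu - 1) := by
    rw [ha2]
    unfold ai
    rw [Function.update_comm hik.symm]
  have hre : ∀ j, -1 < (a2 j).re := by
    intro j
    rw [ha2]
    by_cases h : j = k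
    · subst h
      rw [Function.update_self, Complex.sub_re, nu_re', Complex.one_re]
      norm_num
    · rw [Function.update_of_ne h]
      exact ai_re _ _
  unfold WW
  rw [JJ_eq hd, JJ_eq hd, JJ_eq hd, ← intervalIntegral.integral_const_mul, ← intervalIntegral.integral_const_mul,
    ← intervalIntegral.integral_const_mul, ← intervalIntegral.integral_sub]
  · refine int_congr fun u hu => ?_
    have hok := ok_xx hD hd hu
    have s1 := fp_step (α := ai i) hok k
    have s2 := fp_step (α := ai k) hok i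
    have e1 : (ai i) k = nu := by
      unfold ai
      rw [Function.update_of_ne hik.symm]
    have e2 : (ai k) i = nu := by
      unfold ai
      rw [Function.update_of_ne hik]
    rw [e1, ← ha2] at s1
    rw [e2, ← ha2'] at s2
    rw [s1, s2]
    ring
  · have := (fp_int hD hd (ai_re i l.castSucc) (ai_re i l.succ) (c := fun _ => sg l i) continuousOn_const)
    refine this.congr fun u _ => ?_
    ring
  · have := (fp_int hD hd (ai_re k l.castSucc) (ai_re k l.succ) (c := fun _ => sg l k) continuousOn_const)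
    refine this.congr fun u _ => ?_
    ring

/-- the coefficient -/
noncomputable def cc (i k : Fin (n + 1)) (e : Fin (n + 1) → ℂ) : ℂ := nu / (e i - e k)

lemma Ord_ne {e : Fin (n + 1) → ℂ} (he : e ∈ Ord n) {i k : Fin (n + 1)} (hik : i ≠ k) : e i - e k ≠ 0 := by
  intro h
  have h1 : e i = e k := sub_eq_zero.1 h
  rcases lt_or_gt_of_ne hik with h2 | h2
  · have := he _ _ h2
    rw [h1] at this
    exact lt_irrefl _ this
  · have := he _ _ h2
    rw [h1] at this
    exact lt_irrefl _ this

/-- the equations -/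
lemma WW_deriv {e : Fin (n + 1) → ℂ} (he : e ∈ Ord n) (l : Fin n) {i k : Fin (n + 1)} (hik : i ≠ k) :
    HasDerivAt (fun t => WW i l (ln1 e k t)) (cc i k e * (WW k l e - WW i l e)) 0 := by
  have e1 : (ai i) k = nu := by
    unfold ai
    rw [Function.update_of_ne hik.symm]
  have h := (JJ_deriv (α := ai i) (Ord_Dm he l) (Ord_dd he l) (ai_re _ _) (ai_re _ _) k (by
    rw [e1]
    exact nu_pos)).const_mul (sg l i)
  refine h.congr_deriv ?_
  rw [e1]
  have h2 := WW_sub he l hik
  have h3 := Ord_ne he hik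
  unfold cc
  have h4 : JJ (Function.update (ai i) k (nu - 1)) l e * (sg l i * sg l k) = (WW i l e - WW k l e) / (e i - e k) := by
    rw [eq_div_iff h3, ← h2]
    ring
  calc sg l i * (-sg l k * nu * JJ (Function.update (ai i) k (nu - 1)) l e) =
      -nu * (JJ (Function.update (ai i) k (nu - 1)) l e * (sg l i * sg l k)) := by ring
    _ = nu / (e i - e k) * (WW k l e - WW i l e) := by
      rw [h4]
      field_simp
      ring

end Pool.Agent.E8helper42.TG
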