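import Pool.Agent.E8helper42.TG.Wt

/-!
# Integrals of products of powers of linear forms
-/

set_option autoImplicit false
set_option linter.unusedSectionVars false

open Complex Set MeasureTheory Filter Topology intervalIntegral

namespace Pool.Agent.E8helper42.TG

variable {X : Type} [Fintype X]

/-- products of powers, of `x - e i` for `i` in `Lf` and of `e i - x` for `i` in `Rt` -/
noncomputable def gp (Lf Rt : Finset X) (α : X → ℂ) (e : X → ℂ) (x : ℂ) : ℂ :=
  (∏ i ∈ Lf, (x - e i) ^ α i) * ∏ i ∈ Rt, (e i - x) ^ α i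

/-- the logarithmic derivative -/
noncomputable def gl (Lf Rt : Finset X) (α : X → ℂ) (e v : X → ℂ) (x y : ℂ) : ℂ :=
  (∑ i ∈ Lf, α i * (y - v i) / (x - e i)) + ∑ i ∈ Rt, α i * (y - v i) / (x - e i)

/-- the integrals -/
noncomputable def GI (Lf Rt : Finset X) (α : X → ℂ) (a b : ℂ) (A B : (X → ℂ) → ℂ) (e : X → ℂ) : ℂ :=
  ∫ u in (0 : ℝ)..1, wt a b u * gp Lf Rt α e (A e + u * (B e - A e))

lemma slit_of_re {z : ℂ} (h : 0 < z.re) : z ∈ slitPlane := mem_slitPlane_iff.2 (Or.inl h)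

/-- points between -/
lemma re_between {x A B : ℂ} {u : ℝ} (hu : u ∈ Icc (0 : ℝ) 1) (h1 : x.re < A.re) (h2 : x.re < B.re) :
    x.re < (A + u * (B - A)).re := by
  have h3 : (A + u * (B - A)).re = (1 - u) * A.re + u * B.re := by
    rw [Complex.add_re, Complex.re_ofReal_mul, Complex.sub_re]
    ring
  rw [h3]
  obtain ⟨hu0, hu1⟩ := hu
  rcases eq_or_lt_of_le hu0 with h | h
  · rw [← h]
    linarith
  · nlinarith [mul_lt_mul_of_pos_left h2 h, mul_le_mul_of_nonneg_left h1.le (sub_nonneg.2 hu1)]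

lemma re_between' {x A B : ℂ} {u : ℝ} (hu : u ∈ Icc (0 : ℝ) 1) (h1 : A.re < x.re) (h2 : B.re < x.re) :
    (A + u * (B - A)).re < x.re := by
  have h3 : (A + u * (B - A)).re = (1 - u) * A.re + u * B.re := by
    rw [Complex.add_re, Complex.re_ofReal_mul, Complex.sub_re]
    ring
  rw [h3]
  obtain ⟨hu0, hu1⟩ := hu
  rcases eq_or_lt_of_le hu0 with h | h
  · rw [← h]
    linarith
  · nlinarith [mul_lt_mul_of_pos_left h2 h, mul_le_mul_of_nonneg_left h1.le (sub_nonneg.2 hu1)]

section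
variable {Lf Rt : Finset X} {α : X → ℂ}

/-- the domain of the integrand -/
def Ok (Lf Rt : Finset X) (e : X → ℂ) (x : ℂ) : Prop := (∀ i ∈ Lf, (e i).re < x.re) ∧ ∀ i ∈ Rt, x.re < (e i).re

lemma Ok.left {e : X → ℂ} {x : ℂ} (h : Ok Lf Rt e x) {i : X} (hi : i ∈ Lf) : x - e i ∈ slitPlane :=
  slit_of_re (by rw [Complex.sub_re]; linarith [h.1 i hi])

lemma Ok.right {e : X → ℂ} {x : ℂ} (h : Ok Lf Rt e x) {i : X} (hi : i ∈ Rt) : e i - x ∈ slitPlane :=
  slit_of_re (by rw [Complex.sub_re]; linarith [h.2 i hi])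

lemma gp_contAt {Y : Type} [TopologicalSpace Y] {c : Y → X → ℂ} {x : Y → ℂ} {y : Y} (hc : ContinuousAt c y)
    (hx : ContinuousAt x y) (h : Ok Lf Rt (c y) (x y)) : ContinuousAt (fun y => gp Lf Rt α (c y) (x y)) y := by
  unfold gp
  have hci : ∀ i, ContinuousAt (fun y => c y i) y := fun i => (continuousAt_pi.1 hc) i
  refine ContinuousAt.mul ?_ ?_
  · exact tendsto_finsetProd _ fun i hi => ContinuousAt.cpow (hx.sub (hci i)) continuousAt_const (h.left hi)
  · exact tendsto_finsetProd _ fun i hi => ContinuousAt.cpow ((hci i).sub hx) continuousAt_const (h.right hi)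

lemma prod_diffAt {E ι : Type} [NormedAddCommGroup E] [NormedSpace ℂ E] (s : Finset ι) {f : ι → E → ℂ} {e : E}
    (h : ∀ i ∈ s, DifferentiableAt ℂ (f i) e) : DifferentiableAt ℂ (fun e => ∏ i ∈ s, f i e) e := by
  classical
  exact (HasFDerivAt.finsetProd fun i hi => (h i hi).hasFDerivAt).differentiableAt

lemma gp_diffAt {E : Type} [NormedAddCommGroup E] [NormedSpace ℂ E] {c : E → X → ℂ} {x : E → ℂ} {y : E}
    (hc : ∀ i, DifferentiableAt ℂ (fun y => c y i) y) (hx : DifferentiableAt ℂ x y) (h : Ok Lf Rt (c y) (x y)) :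
    DifferentiableAt ℂ (fun y => gp Lf Rt α (c y) (x y)) y := by
  unfold gp
  refine DifferentiableAt.mul ?_ ?_
  · exact prod_diffAt _ fun i hi => DifferentiableAt.cpow_const (hx.sub (hc i)) (h.left hi)
  · exact prod_diffAt _ fun i hi => DifferentiableAt.cpow_const ((hc i).sub hx) (h.right hi)

lemma prod_deriv {ι : Type} (s : Finset ι) {f : ι → ℂ → ℂ} {L : ι → ℂ} {t : ℂ}
    (h : ∀ i ∈ s, HasDerivAt (f i) (f i t * L i) t) :
    HasDerivAt (fun t => ∏ i ∈ s, f i t) ((∏ i ∈ s, f i t) * ∑ i ∈ s, L i) t := by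
  classical
  refine (HasDerivAt.fun_finsetProd h).congr_deriv ?_
  rw [Finset.mul_sum]
  refine Finset.sum_congr rfl fun i hi => ?_
  rw [← Finset.mul_prod_erase s _ hi, smul_eq_mul]
  ring

lemma gp_deriv {c : ℂ → X → ℂ} {c' : X → ℂ} {x : ℂ → ℂ} {x' t : ℂ} (hc : ∀ i, HasDerivAt (fun t => c t i) (c' i) t)
    (hx : HasDerivAt x x' t) (h : Ok Lf Rt (c t) (x t)) :
    HasDerivAt (fun t => gp Lf Rt α (c t) (x t)) (gp Lf Rt α (c t) (x t) * gl Lf Rt α (c t) c' (x t) x') t := by
  have h1 := prod_deriv (t := t) Lf (f := fun i t => (x t - c t i) ^ α i)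
    (L := fun i => α i * (x' - c' i) / (x t - c t i)) fun i hi => by
      have h2 := h.left hi
      have h3 := slitPlane_ne_zero h2
      refine (((hx.sub (hc i)).cpow_const h2).congr_deriv ?_ : HasDerivAt (fun t => (x t - c t i) ^ α i) _ t)
      simp only [Pi.sub_apply]
      rw [Complex.cpow_sub _ _ h3, Complex.cpow_one]
      ring
  have h1' := prod_deriv (t := t) Rt (f := fun i t => (c t i - x t) ^ α i)
    (L := fun i => α i * (x' - c' i) / (x t - c t i)) fun i hi => by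
      have h2 := h.right hi
      have h3 := slitPlane_ne_zero h2
      have h4 : x t - c t i ≠ 0 := by
        intro h5
        apply h3
        linear_combination -h5
      refine ((((hc i).sub hx).cpow_const h2).congr_deriv ?_ : HasDerivAt (fun t => (c t i - x t) ^ α i) _ t)
      simp only [Pi.sub_apply]
      rw [Complex.cpow_sub _ _ h3, Complex.cpow_one]
      have h6 : α i * ((c t i - x t) ^ α i / (c t i - x t)) * (c' i - x') =
        (c t i - x t) ^ α i * (α i * (x' - c' i) / (x t - c t i)) := by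
        field_simp
        ring
      exact h6
  refine (h1.mul h1').congr_deriv ?_
  unfold gp gl
  ring

/-- **analytic dependence** -/
theorem GI_an {V : Set (X → ℂ)} (hV : IsOpen V) {a b : ℂ} (ha : -1 < a.re) (hb : -1 < b.re) {A B : (X → ℂ) → ℂ}
    (hA : Differentiable ℂ A) (hB : Differentiable ℂ B) (h1 : ∀ e ∈ V, Ok Lf Rt e (A e))
    (h2 : ∀ e ∈ V, Ok Lf Rt e (B e)) : AnalyticOnNhd ℂ (GI Lf Rt α a b A B) V := by
  have hok : ∀ e ∈ V, ∀ u ∈ Icc (0 : ℝ) 1, Ok Lf Rt e (A e + u * (B e - A e)) := fun e he u hu =>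
    ⟨fun i hi => re_between hu ((h1 e he).1 i hi) ((h2 e he).1 i hi),
      fun i hi => re_between' hu ((h1 e he).2 i hi) ((h2 e he).2 i hi)⟩
  refine an_int hV zero_le_one (wt_int ha hb) (F := fun u e => gp Lf Rt α e (A e + u * (B e - A e))) ?_ ?_
  · rintro ⟨u, e⟩ ⟨hu, he⟩
    have hAc := hA.continuous
    have hBc := hB.continuous
    refine ContinuousAt.continuousWithinAt ?_
    exact gp_contAt (c := fun p : ℝ × (X → ℂ) => p.2)
      (x := fun p : ℝ × (X → ℂ) => A p.2 + p.1 * (B p.2 - A p.2)) (by fun_prop) (by fun_prop) (hok e he u hu)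
  · intro u hu e he
    exact gp_diffAt (c := fun e : X → ℂ => e) (x := fun e : X → ℂ => A e + u * (B e - A e)) (fun i => by fun_prop)
      (by fun_prop) (hok e he u hu)

end

end Pool.Agent.E8helper42.TG
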