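import Pool.Agent.E8helper42.TG.Wall4

/-!
# Several families at the same time
-/

set_option autoImplicit false
set_option linter.unusedSectionVars false

open Complex Set Filter Topology

namespace Pool.Agent.E8helper42.TG

open Pool.Agent.Y890.HE (Ord Ord_open Ord_convex Ord_real Ord_nonempty real_zero)
open Pool.Agent.Y119.PLM
open Pool.Agent.E8helper42.GF (AlgF)

variable {κ : Type} [Fintype κ] [DecidableEq κ] {n : κ → ℕ}

/-- the branch points of all the curves -/
abbrev XX (n : κ → ℕ) : Type := Σ j : κ, Fin (n j + 1)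

/-- the branch points of one of the curves -/
def br (x : XX n → ℂ) (j : κ) : Fin (n j + 1) → ℂ := fun i => x ⟨j, i⟩

/-- the domain -/
def UU (n : κ → ℕ) : Set (XX n → ℂ) := {x | ∀ j, br x j ∈ Ord (n j)}

/-- the period matrices -/
noncomputable def YY (x : XX n → ℂ) : MT n := fun j => Pm (br x j)

/-- change of one of the curves -/
def ch (x : XX n → ℂ) (j0 : κ) (e : Fin (n j0 + 1) → ℂ) : XX n → ℂ := fun p => Function.update (br x) j0 e p.1 p.2

lemma br_ch (x : XX n → ℂ) (j0 : κ) (e : Fin (n j0 + 1) → ℂ) : br (ch x j0 e) = Function.update (br x) j0 e := rfl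

lemma ch_mem {x : XX n → ℂ} (hx : x ∈ UU n) {j0 : κ} {e : Fin (n j0 + 1) → ℂ} (he : e ∈ Ord (n j0)) :
    ch x j0 e ∈ UU n := by
  intro j
  rw [br_ch]
  by_cases h : j = j0
  · subst h
    rwa [Function.update_self]
  · rw [Function.update_of_ne h]
    exact hx j

lemma YY_ch (x : XX n → ℂ) (j0 : κ) (e : Fin (n j0 + 1) → ℂ) :
    YY (ch x j0 e) = Function.update (YY x) j0 (Pm e) := by
  funext j
  unfold YY
  rw [br_ch]
  by_cases h : j = j0
  · subst h
    rw [Function.update_self, Function.update_self]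
  · rw [Function.update_of_ne h, Function.update_of_ne h]

/-- the coordinates as polynomials -/
noncomputable def phX (x : XX n → ℂ) (j0 : κ) (p : XX n) : MvPolynomial (Fin (n j0 + 1)) ℂ :=
  Function.update (β := fun j => Fin (n j + 1) → MvPolynomial (Fin (n j0 + 1)) ℂ)
    (fun j i => MvPolynomial.C (br x j i)) j0 (fun i => MvPolynomial.X i) p.1 p.2

/-- the entries as polynomials -/
noncomputable def phA (x : XX n → ℂ) (j0 : κ) (i : Ix n) :
    MvPolynomial (Ix (fun _ : Unit => n j0)) (MvPolynomial (Fin (n j0 + 1)) ℂ) :=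
  Function.update (β := fun j => Fin (n j) → Fin (n j) →
      MvPolynomial (Ix (fun _ : Unit => n j0)) (MvPolynomial (Fin (n j0 + 1)) ℂ))
    (fun j a b => MvPolynomial.C (MvPolynomial.C (YY x j a b))) j0 (fun a b => MvPolynomial.X ⟨(), a, b⟩)
      i.1 i.2.1 i.2.2

/-- the substitution -/
noncomputable def sub0 (x : XX n → ℂ) (j0 : κ) (R : MvPolynomial (Ix n) (MvPolynomial (XX n) ℂ)) :
    MvPolynomial (Ix (fun _ : Unit => n j0)) (MvPolynomial (Fin (n j0 + 1)) ℂ) :=
  MvPolynomial.eval₂ (MvPolynomial.C.comp (MvPolynomial.eval₂Hom MvPolynomial.C (phX x j0))) (phA x j0) R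

lemma vt_sub0 (x : XX n → ℂ) (j0 : κ) (R : MvPolynomial (Ix n) (MvPolynomial (XX n) ℂ)) (e : Fin (n j0 + 1) → ℂ)
    (A : Matrix (Fin (n j0)) (Fin (n j0)) ℂ) :
    vt (sub0 x j0 R) e (c1 (n j0) A) = vt R (ch x j0 e) (Function.update (YY x) j0 A) := by
  unfold vt sub0
  rw [← MvPolynomial.coe_eval₂Hom (MvPolynomial.eval e), MvPolynomial.hom_eval₂]
  congr 1
  · apply MvPolynomial.ringHom_ext
    · intro c
      simp
    · rintro ⟨j, i⟩
      simp only [RingHom.comp_apply, MvPolynomial.eval₂Hom_X', MvPolynomial.eval₂Hom_C, MvPolynomial.eval_X]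
      unfold phX ch
      by_cases h : j = j0
      · subst h
        simp only [Function.update_self, MvPolynomial.eval_X]
      · simp only [Function.update_of_ne h, MvPolynomial.eval_C]
  · funext i
    obtain ⟨j, a, b⟩ := i
    unfold phA
    by_cases h : j = j0
    · subst h
      simp only [Function.update_self]
      rw [MvPolynomial.eval₂Hom_X']
      rfl
    · simp only [Function.update_of_ne h]
      rw [MvPolynomial.eval₂Hom_C, MvPolynomial.eval_C]

lemma ch_self (x : XX n → ℂ) (j0 : κ) : ch x j0 (br x j0) = x := by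
  funext p
  unfold ch
  rw [Function.update_eq_self]
  rfl

/-- one factor -/
theorem single_gal (hn : ∀ j, ¬ 3 ∣ n j + 1) (j0 : κ) (h : Matrix (Fin (n j0)) (Fin (n j0)) ℂ) (hd : h.det = 1) :
    (Pi.mulSingle j0 h : MT n) ∈ GalT (UU n) YY := by
  intro R hR x hx
  have h1 := gal_full (hn j0) (c1 (n j0) h) (fun _ => hd) (sub0 x j0 R) (fun e he => by
    have h2 : PmT (n j0) e = c1 (n j0) (Pm e) := rfl
    rw [h2, vt_sub0, ← YY_ch]
    exact hR _ (ch_mem hx he)) (br x j0) (hx j0)
  have h2 : PmT (n j0) (br x j0) * c1 (n j0) h = c1 (n j0) (Pm (br x j0) * h) := rfl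
  rw [h2, vt_sub0, ch_self] at h1
  have h3 : (YY x * Pi.mulSingle j0 h : MT n) = Function.update (YY x) j0 (Pm (br x j0) * h) := by
    funext j
    rw [Pi.mul_apply]
    by_cases hj : j = j0
    · subst hj
      rw [Pi.mulSingle_eq_same, Function.update_self]
      rfl
    · rw [Pi.mulSingle_eq_of_ne hj, Function.update_of_ne hj, mul_one]
  rw [h3]
  exact h1

/-- **The group of the relations between the periods of several curves.** -/
theorem prod_gal (hn : ∀ j, ¬ 3 ∣ n j + 1) : ∀ g : MT n, (∀ j, (g j).det = 1) → g ∈ GalT (UU n) YY := by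
  have key : ∀ (s : Finset κ) (g : MT n), (∀ j, (g j).det = 1) → (∀ j, j ∉ s → g j = 1) → g ∈ GalT (UU n) YY := by
    intro s
    induction s using Finset.induction_on with
    | empty =>
      intro g _ h1
      have : g = 1 := funext fun j => h1 j (Finset.notMem_empty j)
      rw [this]
      exact (GalT (UU n) YY).one_mem
    | insert j s hj ih =>
      intro g hg h1
      have h2 : g = Pi.mulSingle j (g j) * Function.update g j 1 := by
        funext i
        rw [Pi.mul_apply]
        by_cases h : i = j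
        · subst h
          rw [Pi.mulSingle_eq_same, Function.update_self, mul_one]
        · rw [Pi.mulSingle_eq_of_ne h, Function.update_of_ne h, one_mul]
      rw [h2]
      refine (GalT (UU n) YY).mul_mem (single_gal hn j _ (hg j)) (ih _ (fun i => ?_) fun i hi => ?_)
      · by_cases h : i = j
        · subst h
          rw [Function.update_self, Matrix.det_one]
        · rw [Function.update_of_ne h]
          exact hg i
      · by_cases h : i = j
        · subst h
          rw [Function.update_self]
        · rw [Function.update_of_ne h]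
          exact h1 i (by simp [h, hi])
  intro g hg
  exact key Finset.univ g hg fun j hj => absurd (Finset.mem_univ j) hj

lemma UU_convex : Convex ℝ (UU n) := by
  intro x hx y hy a b ha hb hab j
  exact Ord_convex (n j) (hx j) (hy j) ha hb hab

lemma UU_open : IsOpen (UU n) := by
  have h : UU n = ⋂ j, {x | br x j ∈ Ord (n j)} := by
    ext x
    simp [UU]
  rw [h]
  refine isOpen_iInter_of_finite fun j => (Ord_open (n j)).preimage ?_
  unfold br
  fun_prop

lemma UU_nonempty : (UU n).Nonempty := by
  choose e he using fun j => Ord_nonempty (n j)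
  exact ⟨fun p => e p.1 p.2, he⟩

lemma YY_an (j : κ) (a b : Fin (n j)) : AnalyticOnNhd ℂ (fun x => YY (n := n) x j a b) (UU n) := by
  intro x hx
  refine AnalyticAt.fun_comp (g := fun e => PP (a : ℕ) b e) (f := fun x : XX n → ℂ => br x j)
    (PP_an (by omega) b _ (hx j)) ?_
  unfold br
  refine analyticAt_pi_iff.2 fun i => ?_
  exact (ContinuousLinearMap.proj (R := ℂ) (φ := fun _ : XX n => ℂ) (⟨j, i⟩ : XX n)).analyticAt x

lemma YY_alg (j : κ) : AlgF (UU n) (fun x => (YY (n := n) x j).det) := by
  obtain ⟨p, hp, h⟩ := det_alg (n := n j)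
  refine ⟨p.map (MvPolynomial.rename (fun i : Fin (n j + 1) => (⟨j, i⟩ : XX n))).toRingHom, ?_, fun x hx => ?_⟩
  · have hinj : Function.Injective (MvPolynomial.rename (fun i : Fin (n j + 1) => (⟨j, i⟩ : XX n)) :
        MvPolynomial (Fin (n j + 1)) ℂ →ₐ[ℂ] MvPolynomial (XX n) ℂ).toRingHom :=
      MvPolynomial.rename_injective _ fun a b hab => by simpa using hab
    exact (Polynomial.map_ne_zero_iff hinj).2 hp
  · rw [Polynomial.map_map]
    have h2 : (MvPolynomial.eval x).comp (MvPolynomial.rename (fun i : Fin (n j + 1) => (⟨j, i⟩ : XX n)) :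
        MvPolynomial (Fin (n j + 1)) ℂ →ₐ[ℂ] MvPolynomial (XX n) ℂ).toRingHom = MvPolynomial.eval (br x j) := by
      apply MvPolynomial.ringHom_ext
      · intro c
        simp
      · intro i
        simp [br]
    rw [h2]
    exact h _ (hx j)

lemma YY_det (j : κ) : ∃ x ∈ UU n, (YY (n := n) x j).det ≠ 0 := by
  choose e he hd using fun j => det_ne (n := n j)
  exact ⟨fun p => e p.1 p.2, he, hd j⟩

end Pool.Agent.E8helper42.TG
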