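import Pool.Agent.E8helper42.TG.Prod
import Pool.Agent.E8helper42.GF.Cor

/-!
# Relations with the periods of a fixed object; subtorsors
-/

set_option autoImplicit false
set_option linter.unusedSectionVars false

open NumberField Filter

namespace Pool.Agent.E8helper42.TG

open Pool.Agent.Y119.PLM (MT Ix vt GalT pe UGen IsRelT IsMon mon_mem)
open Pool.Agent.Y890.MV (InnerM omega_gen)
open Pool.Agent.Y124 (Cov)
open Pool.Agent.E8helper42.GF
open Pool.Agent

section tor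

variable {X κ : Type} [Fintype X] {n : κ → ℕ}

/-- the pairs consisting of a matrix and a tuple of matrices -/
abbrev Pt (r : ℕ) (n : κ → ℕ) : Type := Matrix (Fin r) (Fin r) ℂ × MT n

/-- their entries -/
abbrev Vr (r : ℕ) (n : κ → ℕ) : Type := (Fin r × Fin r) ⊕ Ix n

/-- the entries of a pair -/
def ent {r : ℕ} (x : Pt r n) : Vr r n → ℂ := Sum.elim (fun i => x.1 i.1 i.2) fun i => x.2 i.1 i.2.1 i.2.2

/-- the value of a polynomial over `K` at the entries of a pair -/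
noncomputable def vl {K : Type} [Field K] {r : ℕ} (io : K →+* ℂ) (F : MvPolynomial (Vr r n) K) (x : Pt r n) : ℂ :=
  MvPolynomial.eval₂ io (ent x) F

/-- partial degrees at most `k`, the coefficients are integers of `K` with conjugates at most `T ^ k` -/
def Sm {K : Type} [Field K] [NumberField K] {r : ℕ} (k : ℕ) (T : ℝ) (F : MvPolynomial (Vr r n) K) : Prop :=
  (∀ y, F.degreeOf y ≤ k) ∧ ∀ m, ∃ c : 𝓞 K, (c : K) = F.coeff m ∧ ∀ φ : K →+* ℂ, ‖φ (c : K)‖ ≤ T ^ (k : ℝ)

/-- torsors defined by such polynomials -/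
structure SubT {K : Type} [Field K] [NumberField K] {r : ℕ} (io : K →+* ℂ) (k : ℕ) (T : ℝ) (S : Set (Pt r n)) :
    Prop where
  unit : ∀ x ∈ S, IsUnit x
  eqs : ∃ Φ : Set (MvPolynomial (Vr r n) K), (∀ F ∈ Φ, Sm k T F) ∧ ∀ x, IsUnit x → (x ∈ S ↔ ∀ F ∈ Φ, vl io F x = 0)
  tor : ∀ x ∈ S, ∀ y ∈ S, ∀ z ∈ S, x * y⁻¹ * z ∈ S

/-- the exponents -/
abbrev Ex (r k : ℕ) : Type := Fin r × Fin r → Fin (k + 1)

/-- combination of exponents -/
noncomputable def cb {r k : ℕ} (μ : Ex r k) (m : Ix n →₀ ℕ) : Vr r n →₀ ℕ :=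
  Finsupp.sumElim (Finsupp.equivFunOnFinite.symm fun i => (μ i : ℕ)) m

lemma cb_inl {r k : ℕ} (μ : Ex r k) (m : Ix n →₀ ℕ) (i : Fin r × Fin r) : cb μ m (Sum.inl i) = μ i := by
  unfold cb
  rw [Finsupp.sumElim_inl]
  rfl

lemma cb_inr {r k : ℕ} (μ : Ex r k) (m : Ix n →₀ ℕ) (i : Ix n) : cb μ m (Sum.inr i) = m i := by
  unfold cb
  rw [Finsupp.sumElim_inr]

/-- the monomials -/
noncomputable def mo {r k : ℕ} (C : Matrix (Fin r) (Fin r) ℂ) (μ : Ex r k) : ℂ := ∏ i, C i.1 i.2 ^ (μ i : ℕ)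

/-- the polynomial for a given first matrix -/
noncomputable def sp {K : Type} [Field K] {r : ℕ} (io : K →+* ℂ) (C : Matrix (Fin r) (Fin r) ℂ)
    (F : MvPolynomial (Vr r n) K) : MvPolynomial (Ix n) ℂ :=
  MvPolynomial.eval₂ (MvPolynomial.C.comp io)
    (Sum.elim (fun i => MvPolynomial.C (C i.1 i.2)) fun i => MvPolynomial.X i) F

lemma pe_sp {K : Type} [Field K] {r : ℕ} (io : K →+* ℂ) (C : Matrix (Fin r) (Fin r) ℂ)
    (F : MvPolynomial (Vr r n) K) (A : MT n) : pe (sp io C F) A = vl io F (C, A) := by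
  unfold pe sp vl
  rw [MvPolynomial.hom_eval₂]
  congr 1
  · ext a
    simp
  · funext o
    unfold ent
    rcases o with i | i
    · simp
    · simp

variable [Fintype κ]

lemma coeff_sp {K : Type} [Field K] {r k : ℕ} (io : K →+* ℂ) (C : Matrix (Fin r) (Fin r) ℂ)
    (F : MvPolynomial (Vr r n) K) (hF : ∀ y, F.degreeOf y ≤ k) (m : Ix n →₀ ℕ) :
    (sp io C F).coeff m = ∑ μ : Ex r k, mo C μ * io (F.coeff (cb μ m)) := by
  classical
  set h : (Vr r n →₀ ℕ) → ℂ := fun v => (∏ i : Fin r × Fin r, C i.1 i.2 ^ v (Sum.inl i)) * io (F.coeff v) with hh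
  -- the right hand side
  have hinj : Set.InjOn (fun μ : Ex r k => cb μ m) (Finset.univ : Finset (Ex r k)) := by
    intro μ _ μ' _ h1
    funext i
    have h2 := DFunLike.congr_fun h1 (Sum.inl i)
    simp only [cb_inl] at h2
    exact Fin.ext h2
  have hR : ∑ μ : Ex r k, mo C μ * io (F.coeff (cb μ m)) = ∑ v ∈ Finset.univ.image (fun μ : Ex r k => cb μ m), h v := by
    rw [Finset.sum_image hinj]
    refine Finset.sum_congr rfl fun μ _ => ?_
    rw [hh]
    simp only [cb_inl]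
    rfl
  -- the left hand side
  have hL : (sp io C F).coeff m = ∑ v ∈ F.support.filter (fun v => ∀ i, v (Sum.inr i) = m i), h v := by
    unfold sp
    rw [MvPolynomial.eval₂_eq', MvPolynomial.coeff_sum, Finset.sum_filter]
    refine Finset.sum_congr rfl fun v _ => ?_
    rw [Fintype.prod_sum_type]
    simp only [Sum.elim_inl, Sum.elim_inr]
    have e1 : ∏ i : Fin r × Fin r, (MvPolynomial.C (C i.1 i.2) : MvPolynomial (Ix n) ℂ) ^ v (Sum.inl i) =
        MvPolynomial.C (∏ i : Fin r × Fin r, C i.1 i.2 ^ v (Sum.inl i)) := by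
      rw [map_prod]
      refine Finset.prod_congr rfl fun i _ => ?_
      rw [map_pow]
    have e2 : ∏ i : Ix n, (MvPolynomial.X i : MvPolynomial (Ix n) ℂ) ^ v (Sum.inr i) =
        MvPolynomial.monomial (Finsupp.equivFunOnFinite.symm fun i => v (Sum.inr i)) 1 := by
      rw [MvPolynomial.monomial_eq, map_one, one_mul, Finsupp.prod_fintype _ _ (fun i => pow_zero _)]
      rfl
    rw [e1, e2, RingHom.comp_apply, MvPolynomial.coeff_C_mul, MvPolynomial.coeff_C_mul, MvPolynomial.coeff_monomial]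
    have e3 : (Finsupp.equivFunOnFinite.symm (fun i => v (Sum.inr i)) = m) ↔ ∀ i, v (Sum.inr i) = m i := by
      constructor
      · rintro rfl i
        rfl
      · intro h1
        ext i
        exact h1 i
    by_cases h1 : ∀ i, v (Sum.inr i) = m i
    · rw [if_pos (e3.2 h1), if_pos h1, hh, mul_one]
      ring
    · rw [if_neg (fun h2 => h1 (e3.1 h2)), if_neg h1, mul_zero, mul_zero]
  rw [hL, hR]
  refine Finset.sum_subset ?_ ?_
  · intro v hv
    obtain ⟨hv1, hv2⟩ := Finset.mem_filter.1 hv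
    refine Finset.mem_image.2 ⟨fun i => ⟨v (Sum.inl i), ?_⟩, Finset.mem_univ _, ?_⟩
    · have := MvPolynomial.degreeOf_le_iff.1 (hF (Sum.inl i)) v hv1
      omega
    · ext o
      rcases o with i | i
      · rw [cb_inl]
      · rw [cb_inr, hv2 i]
  · intro v hv hv'
    obtain ⟨μ, -, rfl⟩ := Finset.mem_image.1 hv
    have h1 : F.coeff (cb μ m) = 0 := by
      by_contra h2
      apply hv'
      exact Finset.mem_filter.2 ⟨MvPolynomial.mem_support_iff.2 h2, fun i => cb_inr μ m i⟩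
    rw [hh]
    simp only
    rw [h1, map_zero, mul_zero]

lemma degree_sp {K : Type} [Field K] {r k : ℕ} (io : K →+* ℂ) (C : Matrix (Fin r) (Fin r) ℂ)
    (F : MvPolynomial (Vr r n) K) (hF : ∀ y, F.degreeOf y ≤ k) (y : Ix n) : (sp io C F).degreeOf y ≤ k := by
  classical
  rw [MvPolynomial.degreeOf_le_iff]
  intro m hm
  rw [MvPolynomial.mem_support_iff, coeff_sp io C F hF] at hm
  obtain ⟨μ, -, hμ⟩ := Finset.exists_ne_zero_of_sum_ne_zero hm
  have h1 : F.coeff (cb μ m) ≠ 0 := by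
    intro h2
    rw [h2, map_zero, mul_zero] at hμ
    exact hμ rfl
  have h2 := MvPolynomial.degreeOf_le_iff.1 (hF (Sum.inr y)) _ (MvPolynomial.mem_support_iff.2 h1)
  rwa [cb_inr] at h2

/-- the points with exceptional relations with the entries of a fixed matrix -/
def ExcR (U : Set (X → ℂ)) (P : (X → ℂ) → MT n) (G : Set (MT n)) (k : ℕ) (K : Type) [Field K] [NumberField K]
    (io : K →+* ℂ) (C : Σ r : Fin (k + 1), Matrix (Fin r) (Fin r) ℂ) (T : ℝ) : Set (X → K) :=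
  {s | (∀ i, Y120.HtLe K T (s i)) ∧ (fun i => io (s i)) ∈ InnerM U k ∧ ∃ F : MvPolynomial (Vr C.1 n) K, Sm k T F ∧
    vl io F (C.2, P fun i => io (s i)) = 0 ∧ ∃ g ∈ G, vl io F (C.2, P (fun i => io (s i)) * g) ≠ 0}

/-- a bound for the number of monomials -/
def kk (k : ℕ) : ℕ := (k + 1) ^ (k * k) + k

lemma card_Ex {k : ℕ} (r : Fin (k + 1)) : Fintype.card (Ex r k) ≤ Fintype.card (Fin (kk k)) := by
  rw [Fintype.card_fun, Fintype.card_prod, Fintype.card_fin, Fintype.card_fin, Fintype.card_fin]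
  have h1 : (r : ℕ) ≤ k := by omega
  unfold kk
  have h2 : (r : ℕ) * r ≤ k * k := Nat.mul_le_mul h1 h1
  have h3 := Nat.pow_le_pow_right (Nat.succ_pos k) h2
  simp only [Nat.succ_eq_add_one] at h3
  omega

theorem excR_sub (U : Set (X → ℂ)) (P : (X → ℂ) → MT n) (G : Set (MT n)) (k : ℕ) (hk : 0 < k) (K : Type) [Field K]
    [NumberField K] (io : K →+* ℂ) (C : Σ r : Fin (k + 1), Matrix (Fin r) (Fin r) ℂ) (T : ℝ) (hT : 1 ≤ T) :
    ∃ ξ : Fin (kk k) → ℂ, ExcR U P G k K io C T ⊆ ExcG U P G K io (kk k) ξ T := by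
  classical
  obtain ⟨e⟩ := Function.Embedding.nonempty_of_card_le (card_Ex C.1)
  have hkk : k ≤ kk k := by
    unfold kk
    omega
  refine ⟨Function.extend e (mo C.2) 0, ?_⟩
  rintro s ⟨h1, h2, F, hF, h3, g, hg, h4⟩
  refine ⟨h1, ⟨h2.1.trans (by exact_mod_cast hkk), ?_⟩, sp io C.2 F, fun y => (degree_sp io C.2 F hF.1 y).trans hkk,
    fun m => ?_, ?_, g, hg, ?_⟩
  · refine (Metric.ball_subset_ball ?_).trans h2.2
    have : (0 : ℝ) < k := by exact_mod_cast hk
    exact inv_anti₀ this (by exact_mod_cast hkk)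
  · choose c hc hc' using hF.2
    refine ⟨Function.extend e (fun μ => c (cb μ m)) 0, fun i φ => ?_, ?_⟩
    · by_cases h5 : ∃ μ, e μ = i
      · obtain ⟨μ, rfl⟩ := h5
        rw [e.injective.extend_apply]
        refine (hc' _ φ).trans (Real.rpow_le_rpow_of_exponent_le hT (by exact_mod_cast hkk))
      · rw [Function.extend_apply' _ _ _ h5]
        simp only [Pi.zero_apply, map_zero, norm_zero]
        positivity
    · rw [coeff_sp io C.2 F hF.1]
      have h5 : ∀ i ∈ (Finset.univ : Finset (Fin (kk k))), i ∉ Finset.univ.map e →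
          Function.extend e (mo C.2) 0 i * io ((Function.extend e (fun μ => c (cb μ m)) 0 i : 𝓞 K) : K) = 0 := by
        intro i _ hi
        have h6 : ¬ ∃ μ, e μ = i := by
          rintro ⟨μ, rfl⟩
          exact hi (Finset.mem_map_of_mem _ (Finset.mem_univ _))
        rw [Function.extend_apply' _ _ _ h6]
        simp
      rw [← Finset.sum_subset (Finset.subset_univ (Finset.univ.map e)) h5, Finset.sum_map]
      refine Finset.sum_congr rfl fun μ _ => ?_
      rw [e.injective.extend_apply, e.injective.extend_apply, hc]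
  · rw [pe_sp]
    exact h3
  · rw [pe_sp]
    exact h4

variable [DecidableEq X] [Nonempty X] [DecidableEq κ]

/-- the covering -/
theorem cov_excR {U : Set (X → ℂ)} {P B : (X → ℂ) → MT n} {G : Subgroup (MT n)ˣ} (h : Hyp U P B G) (k : ℕ) (ε : ℝ)
    (hε : 0 < ε) : ∃ (D : ℕ) (C T₀ : ℝ), 0 ≤ C ∧ 2 ≤ T₀ ∧
      ∀ (K : Type) [Field K] [NumberField K], Module.finrank ℚ K ≤ k → ∀ (io : K →+* ℂ)
        (M : Σ r : Fin (k + 1), Matrix (Fin r) (Fin r) ℂ) (T : ℝ), T₀ ≤ T → Cov D ⌊C * T ^ ε⌋₊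
          ((fun (s : X → K) j => io (s j)) '' ExcR U P {g | ∃ u ∈ G, (u : MT n) = g} k K io M T) := by
  rcases Nat.eq_zero_or_pos k with rfl | hk
  · refine ⟨0, 0, 2, le_rfl, le_rfl, fun K _ _ hK => ?_⟩
    have h1 : 0 < Module.finrank ℚ K := Module.finrank_pos
    omega
  obtain ⟨D, C, T₀, hC, hT₀, H⟩ := cov_exc h (kk k) ε hε
  refine ⟨D, C, T₀, hC, hT₀, fun K _ _ hK io M T hT => ?_⟩
  obtain ⟨ξ, hξ⟩ := excR_sub U P {g | ∃ u ∈ G, (u : MT n) = g} k hk K io M T (by linarith)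
  refine (H K (hK.trans ?_) io ξ T hT).mono le_rfl le_rfl (Set.image_mono hξ)
  unfold kk
  omega

end tor

/-! ### units -/

section units

variable {κ : Type} {n : κ → ℕ}

lemma unit_iff {r : ℕ} {x : Pt r n} : IsUnit x ↔ IsUnit x.1 ∧ ∀ j, IsUnit (x.2 j) := by
  rw [Prod.isUnit_iff, Pi.isUnit_iff]

lemma mul_inv_pt {r : ℕ} {x : Pt r n} (hx : IsUnit x) : x⁻¹ * x = 1 := by
  obtain ⟨h1, h2⟩ := unit_iff.1 hx
  refine Prod.ext ?_ (funext fun j => ?_)
  · exact Matrix.nonsing_inv_mul _ ((Matrix.isUnit_iff_isUnit_det _).1 h1)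
  · exact Matrix.nonsing_inv_mul _ ((Matrix.isUnit_iff_isUnit_det _).1 (h2 j))

end units

end Pool.Agent.E8helper42.TG
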