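import Pool.Agent.E8helper42.TG.Der
import Pool.Agent.E8helper42.TG.Loc
import Pool.Agent.Y890.HE.Rz

/-!
# Periods of the curves `y ^ 3 = (x - e 0) ... (x - e n)`
-/

set_option autoImplicit false
set_option linter.unusedSectionVars false

open Complex Set MeasureTheory Filter Topology intervalIntegral

namespace Pool.Agent.E8helper42.TG

open Pool.Agent.Y890.HE (Ord Ord_open Ord_convex Ord_real Ord_nonempty real_zero)

variable {n : ℕ}

lemma nu_real : nu = ((2 / 3 : ℝ) : ℂ) := by
  unfold nu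
  push_cast
  ring

lemma nu_re' : nu.re = 2 / 3 := by
  rw [nu_real, Complex.ofReal_re]

lemma Ord_Dm {e : Fin (n + 1) → ℂ} (he : e ∈ Ord n) (l : Fin n) : e ∈ Dm l := by
  refine ⟨⟨fun i hi => he _ _ (Finset.mem_Iio.1 hi), fun i hi => he _ _ ((cs_lt l).trans (Finset.mem_Ioi.1 hi))⟩,
    ⟨fun i hi => he _ _ ((Finset.mem_Iio.1 hi).trans (cs_lt l)), fun i hi => he _ _ (Finset.mem_Ioi.1 hi)⟩⟩

lemma Ord_dd {e : Fin (n + 1) → ℂ} (he : e ∈ Ord n) (l : Fin n) : 0 < (dd l e).re := by
  unfold dd
  rw [Complex.sub_re]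
  linarith [he _ _ (cs_lt l)]

lemma succ_le_of {l : Fin n} {k : Fin (n + 1)} (h : l.castSucc < k) : l.succ ≤ k := by
  rw [Fin.lt_def] at h
  rw [Fin.le_def]
  simp only [Fin.val_castSucc, Fin.val_succ] at *
  omega

/-- the point of the segment -/
noncomputable def xx (l : Fin n) (e : Fin (n + 1) → ℂ) (u : ℝ) : ℂ := e l.castSucc + u * dd l e

/-- the full product -/
noncomputable def fp (l : Fin n) (α : Fin (n + 1) → ℂ) (e : Fin (n + 1) → ℂ) (x : ℂ) : ℂ :=
  gp (Finset.Iic l.castSucc) (Finset.Ici l.succ) α e x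

lemma ok_xx {l : Fin n} {e : Fin (n + 1) → ℂ} (he : e ∈ Dm l) (hd : 0 < (dd l e).re) {u : ℝ}
    (hu : u ∈ Ioo (0 : ℝ) 1) : Ok (Finset.Iic l.castSucc) (Finset.Ici l.succ) e (xx l e u) := by
  have h := ok_pt he (Ioo_subset_Icc_self hu)
  have e1 : (xx l e u).re = (e l.castSucc).re + u * (dd l e).re := by
    unfold xx
    rw [Complex.add_re, Complex.re_ofReal_mul]
  have e2 : (dd l e).re = (e l.succ).re - (e l.castSucc).re := by
    unfold dd
    rw [Complex.sub_re]
  constructor
  · intro i hi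
    rcases eq_or_lt_of_le (Finset.mem_Iic.1 hi) with h1 | h1
    · rw [h1, e1]
      have := mul_pos hu.1 hd
      linarith
    · exact h.1 i (Finset.mem_Iio.2 h1)
  · intro i hi
    rcases eq_or_lt_of_le (Finset.mem_Ici.1 hi) with h1 | h1
    · rw [← h1, e1]
      have := mul_pos (sub_pos.2 hu.2) hd
      nlinarith
    · exact h.2 i (Finset.mem_Ioi.2 h1)

lemma fp_eq {l : Fin n} {α e : Fin (n + 1) → ℂ} (hd : 0 < (dd l e).re) {u : ℝ} (hu : u ∈ Ioo (0 : ℝ) 1) :
    dd l e * fp l α e (xx l e u) = dd l e ^ (1 + α l.castSucc + α l.succ) *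
      (wt (α l.castSucc) (α l.succ) u * hh α l e u) := by
  have hd0 : dd l e ≠ 0 := slitPlane_ne_zero (slit_of_re hd)
  have e1 : (Finset.Iic l.castSucc : Finset (Fin (n + 1))) = insert l.castSucc (Finset.Iio l.castSucc) :=
    (Finset.Iio_insert _).symm
  have e2 : (Finset.Ici l.succ : Finset (Fin (n + 1))) = insert l.succ (Finset.Ioi l.succ) :=
    (Finset.Ioi_insert _).symm
  have e3 : xx l e u - e l.castSucc = (u : ℂ) * dd l e := by
    unfold xx
    ring
  have e4 : e l.succ - xx l e u = ((1 - u : ℝ) : ℂ) * dd l e := by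
    unfold xx dd
    push_cast
    ring
  unfold fp gp
  rw [e1, e2, Finset.prod_insert (by simp), Finset.prod_insert (by simp), e3, e4, real_mul_cpow hu.1 hd0,
    real_mul_cpow (sub_pos.2 hu.2) hd0, Complex.cpow_add _ _ hd0, Complex.cpow_add _ _ hd0, Complex.cpow_one]
  unfold wt hh gp xx
  push_cast
  ring

/-- the integral as an integral over the segment -/
lemma JJ_eq {l : Fin n} {α e : Fin (n + 1) → ℂ} (hd : 0 < (dd l e).re) :
    JJ α l e = ∫ u in (0 : ℝ)..1, dd l e * fp l α e (xx l e u) := by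
  unfold JJ II GI
  rw [← intervalIntegral.integral_const_mul]
  refine int_congr fun u hu => ?_
  rw [fp_eq hd hu]
  rfl

lemma fp_int {l : Fin n} {α e : Fin (n + 1) → ℂ} (he : e ∈ Dm l) (hd : 0 < (dd l e).re) (ha : -1 < (α l.castSucc).re)
    (hb : -1 < (α l.succ).re) {c : ℝ → ℂ} (hc : ContinuousOn c (Icc 0 1)) :
    IntervalIntegrable (fun u => dd l e * fp l α e (xx l e u) * c u) volume 0 1 := by
  have h1 := (wt_mul_int ha hb ((hh_cont (α := α) he).mul hc)).const_mul (dd l e ^ (1 + α l.castSucc + α l.succ))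
  refine h1.congr_ae ?_
  rw [uIoc_of_le zero_le_one, ← Measure.restrict_congr_set Ioo_ae_eq_Ioc]
  filter_upwards [ae_restrict_mem measurableSet_Ioo] with u hu
  rw [fp_eq hd hu]
  simp only [Pi.mul_apply]
  ring

/-- the real branch of `1 / y` on the segment -/
noncomputable def yi (l : Fin n) (e : Fin (n + 1) → ℂ) (x : ℂ) : ℂ :=
  (∏ i ∈ Finset.Iic l.castSucc, (x - e i) ^ (-(1 / 3) : ℂ)) * ∏ i ∈ Finset.Ici l.succ, -(e i - x) ^ (-(1 / 3) : ℂ)

/-- the exponents with one change -/
noncomputable def ai (i : Fin (n + 1)) : Fin (n + 1) → ℂ := Function.update (fun _ => nu) i (nu - 1)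

lemma ai_re (i k : Fin (n + 1)) : -1 < (ai i k).re := by
  unfold ai
  by_cases h : k = i
  · subst h
    rw [Function.update_self, Complex.sub_re, nu_re', Complex.one_re]
    norm_num
  · rw [Function.update_of_ne h, nu_re']
    norm_num

/-- the derivatives of the basic integrals, up to a factor -/
noncomputable def WW (i : Fin (n + 1)) (l : Fin n) (e : Fin (n + 1) → ℂ) : ℂ := sg l i * JJ (ai i) l e

lemma sg_sq (l : Fin n) (k : Fin (n + 1)) : sg l k * sg l k = 1 := by
  unfold sg
  split_ifs <;> norm_num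

lemma fp_step {l : Fin n} {α e : Fin (n + 1) → ℂ} {x : ℂ} (hok : Ok (Finset.Iic l.castSucc) (Finset.Ici l.succ) e x)
    (k : Fin (n + 1)) : fp l α e x = fp l (Function.update α k (α k - 1)) e x * (sg l k * (x - e k)) := by
  unfold fp sg
  split_ifs with h
  · have h1 : k ∈ Finset.Iic l.castSucc := Finset.mem_Iic.2 h
    have h2 : k ∉ Finset.Ici l.succ := fun h3 => absurd (Finset.mem_Ici.1 h3) (not_le.2 (h.trans_lt (cs_lt l)))
    rw [one_mul, gp_upd_left h1 h2 hok]
  · have h1 : k ∉ Finset.Iic l.castSucc := fun h3 => h (Finset.mem_Iic.1 h3)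
    have h2 : k ∈ Finset.Ici l.succ := by
      rw [Finset.mem_Ici]
      rw [not_le] at h
      exact succ_le_of h
    have h3 := gp_upd_right (α := α) h2 h1 hok
    rw [← h3]
    ring

/-- the product with all exponents `-1/3` -/
lemma yi_eq (l : Fin n) (e : Fin (n + 1) → ℂ) (x : ℂ) :
    yi l e x = (∏ k, sg l k) * fp l (fun _ => nu - 1) e x := by
  have h1 : nu - 1 = -(1 / 3) := by
    unfold nu
    norm_num
  have h2 : ∏ k, sg l k = ∏ k ∈ (Finset.Ici l.succ : Finset (Fin (n + 1))), (-1 : ℂ) := by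
    have h3 : (Finset.univ : Finset (Fin (n + 1))) = Finset.Iic l.castSucc ∪ Finset.Ici l.succ := by
      ext k
      simp only [Finset.mem_univ, Finset.mem_union, Finset.mem_Iic, Finset.mem_Ici, true_iff]
      by_cases h : k ≤ l.castSucc
      · exact Or.inl h
      · exact Or.inr (succ_le_of (not_le.1 h))
    have h4 : Disjoint (Finset.Iic l.castSucc : Finset (Fin (n + 1))) (Finset.Ici l.succ) := by
      rw [Finset.disjoint_left]
      intro k hk hk'
      exact absurd (Finset.mem_Ici.1 hk') (not_le.2 ((Finset.mem_Iic.1 hk).trans_lt (cs_lt l)))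
    rw [h3, Finset.prod_union h4]
    have h5 : ∏ k ∈ (Finset.Iic l.castSucc : Finset (Fin (n + 1))), sg l k = 1 :=
      Finset.prod_eq_one fun k hk => if_pos (Finset.mem_Iic.1 hk)
    rw [h5, one_mul]
    refine Finset.prod_congr rfl fun k hk => ?_
    exact if_neg (not_le.2 ((cs_lt l).trans_le (Finset.mem_Ici.1 hk)))
  rw [h2]
  unfold yi fp gp
  rw [h1]
  have h6 : ∏ i ∈ (Finset.Ici l.succ : Finset (Fin (n + 1))), -(e i - x) ^ (-(1 / 3) : ℂ) =
      (∏ i ∈ (Finset.Ici l.succ : Finset (Fin (n + 1))), (-1 : ℂ)) *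
        ∏ i ∈ (Finset.Ici l.succ : Finset (Fin (n + 1))), (e i - x) ^ (-(1 / 3) : ℂ) := by
    rw [← Finset.prod_mul_distrib]
    exact Finset.prod_congr rfl fun i _ => by ring
  rw [h6]
  ring

/-- general exponents: raising the exponents in a set by one -/
lemma fp_raise {l : Fin n} {e : Fin (n + 1) → ℂ} {x : ℂ} (hok : Ok (Finset.Iic l.castSucc) (Finset.Ici l.succ) e x)
    (S : Finset (Fin (n + 1))) (α : Fin (n + 1) → ℂ) :
    fp l (fun k => if k ∈ S then α k + 1 else α k) e x = fp l α e x * ∏ k ∈ S, (sg l k * (x - e k)) := by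
  induction S using Finset.induction_on with
  | empty => simp
  | insert k S hk ih =>
    rw [Finset.prod_insert hk, fp_step hok k]
    have h1 : Function.update (fun k' => if k' ∈ insert k S then α k' + 1 else α k') k
        ((if k ∈ insert k S then α k + 1 else α k) - 1) = fun k => if k ∈ S then α k + 1 else α k := by
      funext j
      by_cases h : j = k
      · subst h
        rw [Function.update_self, if_pos (Finset.mem_insert_self _ _), if_neg hk, add_sub_cancel_right]
      · rw [Function.update_of_ne h]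
        simp only [Finset.mem_insert, h, false_or]
    rw [h1, ih]
    ring

lemma fp_ai {l : Fin n} {e : Fin (n + 1) → ℂ} {x : ℂ} (hok : Ok (Finset.Iic l.castSucc) (Finset.Ici l.succ) e x)
    (i : Fin (n + 1)) : sg l i * fp l (ai i) e x = yi l e x * ∏ k ∈ Finset.univ.erase i, (x - e k) := by
  have h1 : ai i = fun k => if k ∈ Finset.univ.erase i then (nu - 1) + 1 else nu - 1 := by
    funext k
    unfold ai
    by_cases h : k = i
    · subst h
      rw [Function.update_self, if_neg (Finset.notMem_erase _ _)]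
    · rw [Function.update_of_ne h, if_pos (Finset.mem_erase.2 ⟨h, Finset.mem_univ _⟩)]
      ring
  rw [h1, fp_raise hok (Finset.univ.erase i) (fun _ => nu - 1), yi_eq, Finset.prod_mul_distrib,
    ← Finset.mul_prod_erase Finset.univ (fun k => sg l k) (Finset.mem_univ i)]
  ring

end Pool.Agent.E8helper42.TG
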