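import Pool.Agent.E8helper42.TG.Nz

/-!
# The walls: two neighbouring points come together
-/

set_option autoImplicit false
set_option linter.unusedSectionVars false

open Complex Set MeasureTheory Filter Topology intervalIntegral

namespace Pool.Agent.E8helper42.TG

open Pool.Agent.Y890.HE (Ord Ord_open Ord_convex Ord_real Ord_nonempty real_zero)

variable {n : ℕ}

/-- the centre: the points `l` and `l + 1` are equal -/
noncomputable def cI (l : Fin n) (i : Fin (n + 1)) : ℝ := if i = l.succ then (l : ℝ) else (i : ℝ)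

/-- the neighbourhood of the wall -/
def NB (l : Fin n) (r : ℝ) : Set (Fin (n + 1) → ℂ) := Metric.ball (fun i => ((cI l i : ℝ) : ℂ)) r

lemma NB_coord {l : Fin n} {r : ℝ} {e : Fin (n + 1) → ℂ} (he : e ∈ NB l r) (i : Fin (n + 1)) :
    ‖e i - ((cI l i : ℝ) : ℂ)‖ < r := by
  unfold NB at he
  rw [Metric.mem_ball, dist_eq_norm] at he
  exact (norm_le_pi_norm (e - fun i => ((cI l i : ℝ) : ℂ)) i).trans_lt he

lemma NB_re {l : Fin n} {r : ℝ} {e : Fin (n + 1) → ℂ} (he : e ∈ NB l r) (i : Fin (n + 1)) :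
    cI l i - r < (e i).re ∧ (e i).re < cI l i + r := by
  have h1 := (Complex.abs_re_le_norm _).trans_lt (NB_coord he i)
  rw [Complex.sub_re, Complex.ofReal_re, abs_lt] at h1
  constructor <;> linarith [h1.1, h1.2]

lemma cI_gap {l : Fin n} {i k : Fin (n + 1)} (hik : i < k) (h : ¬ (i = l.castSucc ∧ k = l.succ)) :
    cI l i + 1 ≤ cI l k := by
  unfold cI
  have h1 := Fin.lt_def.1 hik
  split_ifs with h2 h3 h3
  · exfalso
    rw [h2, h3] at hik
    exact lt_irrefl _ hik
  · rw [h2] at h1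
    simp only [Fin.val_succ] at h1
    exact_mod_cast (by omega : (l : ℕ) + 1 ≤ k)
  · have h4 : i ≠ l.castSucc := fun h5 => h ⟨h5, h3⟩
    have h5 : (i : ℕ) ≠ l := fun h6 => h4 (Fin.ext (by simpa using h6))
    rw [h3] at h1
    simp only [Fin.val_succ] at h1
    exact_mod_cast (by omega : (i : ℕ) + 1 ≤ l)
  · exact_mod_cast (by omega : (i : ℕ) + 1 ≤ k)

lemma NB_lt {l : Fin n} {e : Fin (n + 1) → ℂ} (he : e ∈ NB l (1 / 16)) {i k : Fin (n + 1)} (hik : i < k)
    (h : ¬ (i = l.castSucc ∧ k = l.succ)) : (e i).re + 7 / 8 < (e k).re := by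
  have h1 := cI_gap hik h
  have h2 := (NB_re he i).2
  have h3 := (NB_re he k).1
  linarith

/-- the part with increasing real parts -/
lemma NB_Ord {l : Fin n} {e : Fin (n + 1) → ℂ} (he : e ∈ NB l (1 / 16)) (hd : 0 < (dd l e).re) : e ∈ Ord n := by
  intro i k hik
  by_cases h : i = l.castSucc ∧ k = l.succ
  · rw [h.1, h.2]
    unfold dd at hd
    rw [Complex.sub_re] at hd
    linarith
  · linarith [NB_lt he hik h]

lemma NB_Dm {l m : Fin n} (h1 : (m : ℕ) ≠ l + 1) (h2 : (m : ℕ) + 1 ≠ l) : NB l (1 / 16) ⊆ Dm m := by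
  intro e he
  refine ⟨⟨fun i hi => ?_, fun i hi => ?_⟩, ⟨fun i hi => ?_, fun i hi => ?_⟩⟩
  · rw [Finset.mem_Iio] at hi
    linarith [NB_lt he hi (fun h => h1 (by
      have := congrArg Fin.val h.2
      simpa using this))]
  · rw [Finset.mem_Ioi] at hi
    linarith [NB_lt he ((cs_lt m).trans hi) (fun h => by
      have e1 := congrArg Fin.val h.1
      have e2 := congrArg Fin.val h.2
      have e3 := Fin.lt_def.1 hi
      simp only [Fin.val_castSucc, Fin.val_succ] at e1 e2 e3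
      omega)]
  · rw [Finset.mem_Iio] at hi
    linarith [NB_lt he (hi.trans (cs_lt m)) (fun h => by
      have e1 := congrArg Fin.val h.1
      have e2 := congrArg Fin.val h.2
      have e3 := Fin.lt_def.1 hi
      simp only [Fin.val_castSucc, Fin.val_succ] at e1 e2 e3
      omega)]
  · rw [Finset.mem_Ioi] at hi
    linarith [NB_lt he hi (fun h => h2 (by
      have := congrArg Fin.val h.1
      simpa using this))]

lemma NB_dd {l m : Fin n} (h : m ≠ l) {e : Fin (n + 1) → ℂ} (he : e ∈ NB l (1 / 16)) : 0 < (dd m e).re := by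
  have h1 := NB_lt he (cs_lt m) (fun h' => h (Fin.castSucc_injective _ h'.1))
  unfold dd
  rw [Complex.sub_re]
  linarith

/-- integrals over real segments -/
lemma GI_real {X : Type} [Fintype X] {Lf Rt : Finset X} {α : X → ℂ} {a b : ℂ} {A B : (X → ℂ) → ℂ} {e : X → ℂ}
    {A' B' : ℝ} (hA : A e = A') (hB : B e = B') (hAB : A' < B') :
    (B e - A e) ^ (1 + a + b) * GI Lf Rt α a b A B e =
      ∫ x in A'..B', ((x : ℂ) - A') ^ a * ((B' : ℂ) - x) ^ b * gp Lf Rt α e x := by
  have hc : B' - A' ≠ 0 := (sub_pos.2 hAB).ne'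
  have hc' : ((B' - A' : ℝ) : ℂ) ≠ 0 := by exact_mod_cast hc
  have h1 := intervalIntegral.integral_comp_add_mul (a := 0) (b := 1)
    (fun x : ℝ => ((x : ℂ) - A') ^ a * ((B' : ℂ) - x) ^ b * gp Lf Rt α e x) hc A'
  rw [mul_zero, add_zero, mul_one, add_sub_cancel] at h1
  have h2 : ∫ x in A'..B', ((x : ℂ) - A') ^ a * ((B' : ℂ) - x) ^ b * gp Lf Rt α e x =
      ((B' - A' : ℝ) : ℂ) * ∫ u in (0 : ℝ)..1, ((((A' + (B' - A') * u : ℝ) : ℂ) - A') ^ a *
        ((B' : ℂ) - ((A' + (B' - A') * u : ℝ) : ℂ)) ^ b * gp Lf Rt α e ((A' + (B' - A') * u : ℝ) : ℂ)) := by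
    rw [h1, Complex.real_smul, ← mul_assoc, ← Complex.ofReal_mul, mul_inv_cancel₀ hc, Complex.ofReal_one, one_mul]
  rw [h2]
  unfold GI
  rw [← intervalIntegral.integral_const_mul, ← intervalIntegral.integral_const_mul]
  refine int_congr fun u hu => ?_
  have e1 : (((A' + (B' - A') * u : ℝ) : ℂ) - A') = (u : ℂ) * ((B' - A' : ℝ) : ℂ) := by
    push_cast
    ring
  have e2 : (B' : ℂ) - ((A' + (B' - A') * u : ℝ) : ℂ) = ((1 - u : ℝ) : ℂ) * ((B' - A' : ℝ) : ℂ) := by
    push_cast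
    ring
  have e3 : A e + u * (B e - A e) = ((A' + (B' - A') * u : ℝ) : ℂ) := by
    rw [hA, hB]
    push_cast
    ring
  have e4 : B e - A e = ((B' - A' : ℝ) : ℂ) := by
    rw [hA, hB]
    push_cast
    ring
  rw [e1, e2, e3, e4, real_mul_cpow hu.1 hc', real_mul_cpow (sub_pos.2 hu.2) hc', Complex.cpow_add _ _ hc',
    Complex.cpow_add _ _ hc', Complex.cpow_one]
  unfold wt
  push_cast
  ring

/-- the function `y ↦ y ^ nu` is continuous at the points with nonnegative real part -/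
lemma pow_cont {f : ℝ → ℂ} {x : ℝ} (hf : ContinuousAt f x) (h : 0 ≤ (f x).re) : ContinuousAt (fun x => f x ^ nu) x :=
  ContinuousAt.comp (f := f) (g := fun z : ℂ => z ^ nu) (Complex.continuousAt_cpow_const_of_re_pos (Or.inl h) nu_re) hf

/-- the factor `1 / 2` -/
lemma half_pow (y : ℂ) : (y / 2) ^ nu = (1 / 2 : ℂ) ^ nu * y ^ nu := by
  have h := real_mul_nu (x := 1 / 2) (by norm_num) y
  have h1 : ((1 / 2 : ℝ) : ℂ) = 1 / 2 := by push_cast; ring
  rw [h1] at h
  rw [← h]
  congr 1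
  ring

end Pool.Agent.E8helper42.TG
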