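import Pool.Agent.E8helper42.TG.Wall

/-!
# The basic integrals near the walls
-/

set_option autoImplicit false
set_option linter.unusedSectionVars false

open Complex Set MeasureTheory Filter Topology intervalIntegral

namespace Pool.Agent.E8helper42.TG

open Pool.Agent.Y890.HE (Ord Ord_open Ord_convex Ord_real Ord_nonempty real_zero)

variable {n : ℕ}

/-- the constant exponents -/
noncomputable def cn : Fin (n + 1) → ℂ := fun _ => nu

/-- the regular part, seen from the point `l` -/
noncomputable def gR (l : Fin n) (e : Fin (n + 1) → ℂ) (y : ℂ) : ℂ :=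
  gp (Finset.Iio l.castSucc) (Finset.Ioi l.succ) cn e (e l.castSucc + y / 2)

/-- the regular part, seen from the point `l + 1` -/
noncomputable def gL (l : Fin n) (e : Fin (n + 1) → ℂ) (y : ℂ) : ℂ :=
  gp (Finset.Iio l.castSucc) (Finset.Ioi l.succ) cn e (e l.succ - y / 2)

lemma ok_gR {l : Fin n} {e : Fin (n + 1) → ℂ} (he : e ∈ NB l (1 / 16)) {y : ℂ} (hy : ‖y‖ ≤ 1) :
    Ok (Finset.Iio l.castSucc) (Finset.Ioi l.succ) e (e l.castSucc + y / 2) := by
  have h1 := (Complex.abs_re_le_norm y).trans hy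
  rw [abs_le] at h1
  have h2 : (e l.castSucc + y / 2).re = (e l.castSucc).re + y.re / 2 := by simp
  constructor
  · intro i hi
    rw [Finset.mem_Iio] at hi
    have := NB_lt he hi (fun h => (cs_lt l).ne h.2)
    rw [h2]
    linarith [h1.1]
  · intro i hi
    rw [Finset.mem_Ioi] at hi
    have := NB_lt he ((cs_lt l).trans hi) (fun h => hi.ne' h.2)
    rw [h2]
    linarith [h1.2]

lemma ok_gL {l : Fin n} {e : Fin (n + 1) → ℂ} (he : e ∈ NB l (1 / 16)) {y : ℂ} (hy : ‖y‖ ≤ 1) :
    Ok (Finset.Iio l.castSucc) (Finset.Ioi l.succ) e (e l.succ - y / 2) := by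
  have h1 := (Complex.abs_re_le_norm y).trans hy
  rw [abs_le] at h1
  have h2 : (e l.succ - y / 2).re = (e l.succ).re - y.re / 2 := by simp
  constructor
  · intro i hi
    rw [Finset.mem_Iio] at hi
    have := NB_lt he (hi.trans (cs_lt l)) (fun h => hi.ne h.1)
    rw [h2]
    linarith [h1.2]
  · intro i hi
    rw [Finset.mem_Ioi] at hi
    have := NB_lt he hi (fun h => (cs_lt l).ne' h.1)
    rw [h2]
    linarith [h1.1]

lemma dd_small {l : Fin n} {r : ℝ} {e : Fin (n + 1) → ℂ} (he : e ∈ NB l r) : ‖dd l e‖ < 2 * r := by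
  have h1 := NB_coord he l.castSucc
  have h2 := NB_coord he l.succ
  have e1 : cI l l.castSucc = l := by
    unfold cI
    rw [if_neg (cs_lt l).ne]
    simp
  have e2 : cI l l.succ = l := by
    unfold cI
    rw [if_pos rfl]
  rw [e1] at h1
  rw [e2] at h2
  have h3 : dd l e = (e l.succ - ((l : ℝ) : ℂ)) - (e l.castSucc - ((l : ℝ) : ℂ)) := by
    unfold dd
    ring
  rw [h3]
  refine (norm_sub_le _ _).trans_lt ?_
  linarith

lemma NB_open (l : Fin n) (r : ℝ) : IsOpen (NB l r) := Metric.isOpen_ball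

/-- the contour integral is analytic -/
lemma Circ_an {l : Fin n} {g : (Fin (n + 1) → ℂ) → ℂ → ℂ} {c : (Fin (n + 1) → ℂ) → ℂ → ℂ}
    (hg : ∀ e y, g e y = gp (Finset.Iio l.castSucc) (Finset.Ioi l.succ) cn e (c e y))
    (hc : Continuous fun p : (Fin (n + 1) → ℂ) × ℂ => c p.1 p.2) (hd : ∀ y, Differentiable ℂ fun e => c e y)
    (hok : ∀ e ∈ NB l (1 / 16), ∀ y : ℂ, ‖y‖ ≤ 1 → Ok (Finset.Iio l.castSucc) (Finset.Ioi l.succ) e (c e y)) :
    AnalyticOnNhd ℂ (fun e => Circ (2 * dd l e) (g e)) (NB l (1 / 16)) := by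
  have hexp : ∀ θ : ℝ, ‖Complex.exp (θ * I)‖ = 1 := fun θ => Complex.norm_exp_ofReal_mul_I θ
  have hexp' : ∀ θ : ℝ, ‖Complex.exp (-(θ * I))‖ = 1 := fun θ => by
    rw [Complex.exp_neg, norm_inv, hexp, inv_one]
  have hslit : ∀ e ∈ NB l (1 / 16), ∀ θ : ℝ, 1 - 2 * dd l e * Complex.exp (-(θ * I)) ∈ slitPlane := by
    intro e he θ
    apply slit_of_re
    have h1 : ‖2 * dd l e * Complex.exp (-(θ * I))‖ < 1 := by
      rw [norm_mul, norm_mul, hexp', mul_one]
      have := dd_small he
      simp only [Complex.norm_ofNat]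
      linarith
    have h2 := (Complex.re_le_norm _).trans_lt h1
    rw [Complex.sub_re, Complex.one_re]
    linarith
  have hddc : Continuous fun e : Fin (n + 1) → ℂ => dd l e := by
    unfold dd
    fun_prop
  have hddd : Differentiable ℂ fun e : Fin (n + 1) → ℂ => dd l e := by
    unfold dd
    fun_prop
  have h := an_int (NB_open l (1 / 16)) (a := 0) (b := 2 * Real.pi) (by positivity) (ω := fun _ => 1)
    (intervalIntegrable_const) (F := fun θ e => f1 (2 * dd l e) (g e) (θ * I)) (by
      rintro ⟨θ, e⟩ ⟨-, he⟩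
      refine ContinuousAt.continuousWithinAt ?_
      simp only [f1, hg]
      refine ContinuousAt.mul (ContinuousAt.mul (ContinuousAt.mul (by fun_prop) ?_) ?_) (by fun_prop)
      · exact ContinuousAt.cpow (by fun_prop) continuousAt_const (hslit e he θ)
      · exact gp_contAt (c := fun p : ℝ × (Fin (n + 1) → ℂ) => p.2)
          (x := fun p : ℝ × (Fin (n + 1) → ℂ) => c p.2 (Complex.exp (p.1 * I))) (by fun_prop)
          (hc.comp (f := fun p : ℝ × (Fin (n + 1) → ℂ) => (p.2, Complex.exp (p.1 * I)))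
            (by fun_prop)).continuousAt (hok e he _ (hexp θ).le)) (by
      intro θ _ e he
      simp only [f1, hg]
      refine DifferentiableAt.mul (DifferentiableAt.mul (DifferentiableAt.mul (by fun_prop) ?_) ?_) (by fun_prop)
      · exact DifferentiableAt.cpow_const (by fun_prop) (hslit e he θ)
      · exact gp_diffAt (c := fun e : Fin (n + 1) → ℂ => e) (x := fun e : Fin (n + 1) → ℂ => c e (Complex.exp (θ * I)))
          (fun i => by fun_prop) (hd _).differentiableAt (hok e he _ (hexp θ).le))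
  simp only [one_mul] at h
  unfold Circ
  exact fun e he => analyticAt_const.mul (h e he)

lemma gR_diff {l : Fin n} {e : Fin (n + 1) → ℂ} (he : e ∈ NB l (1 / 16)) (y : ℂ) (hy : ‖y‖ ≤ 1) :
    DifferentiableAt ℂ (gR l e) y :=
  gp_diffAt (c := fun _ : ℂ => e) (x := fun y : ℂ => e l.castSucc + y / 2) (fun i => by fun_prop) (by fun_prop)
    (ok_gR he hy)

lemma gL_diff {l : Fin n} {e : Fin (n + 1) → ℂ} (he : e ∈ NB l (1 / 16)) (y : ℂ) (hy : ‖y‖ ≤ 1) :
    DifferentiableAt ℂ (gL l e) y :=
  gp_diffAt (c := fun _ : ℂ => e) (x := fun y : ℂ => e l.succ - y / 2) (fun i => by fun_prop) (by fun_prop)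
    (ok_gL he hy)

/-- the closed product -/
noncomputable def fm (m : Fin n) (e : Fin (n + 1) → ℂ) (x : ℝ) : ℂ :=
  gp (Finset.Iic m.castSucc) (Finset.Ici m.succ) cn e x

lemma fm_eq (m : Fin n) (e : Fin (n + 1) → ℂ) (x : ℝ) : fm m e x =
    ((x : ℂ) - e m.castSucc) ^ nu * (e m.succ - (x : ℂ)) ^ nu *
      gp (Finset.Iio m.castSucc) (Finset.Ioi m.succ) cn e x := by
  have e1 : (Finset.Iic m.castSucc : Finset (Fin (n + 1))) = insert m.castSucc (Finset.Iio m.castSucc) :=
    (Finset.Iio_insert _).symm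
  have e2 : (Finset.Ici m.succ : Finset (Fin (n + 1))) = insert m.succ (Finset.Ioi m.succ) :=
    (Finset.Ioi_insert _).symm
  unfold fm gp
  rw [e1, e2, Finset.prod_insert (by simp), Finset.prod_insert (by simp)]
  unfold cn
  ring

/-- the basic integrals for real configurations -/
lemma Ph_real {a : Fin (n + 1) → ℝ} (ha : StrictMono a) (m : Fin n) :
    Ph m (fun i => (a i : ℂ)) = ∫ x in (a m.castSucc)..(a m.succ), fm m (fun i => (a i : ℂ)) x := by
  have h := GI_real (Lf := Finset.Iio m.castSucc) (Rt := Finset.Ioi m.succ) (α := cn) (a := nu) (b := nu)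
    (A := fun e : Fin (n + 1) → ℂ => e m.castSucc) (B := fun e => e m.succ) (e := fun i => (a i : ℂ))
    (A' := a m.castSucc) (B' := a m.succ) rfl rfl (ha (cs_lt m))
  unfold Ph JJ II
  simp only [fm_eq]
  exact h

lemma fm_cont {a : Fin (n + 1) → ℝ} (ha : StrictMono a) (m : Fin n) :
    ContinuousOn (fm m (fun i => (a i : ℂ))) (Icc (a m.castSucc) (a m.succ)) := by
  intro x hx
  refine ContinuousAt.continuousWithinAt ?_
  unfold fm gp cn
  refine ContinuousAt.mul ?_ ?_
  · refine tendsto_finsetProd _ fun i hi => ?_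
    refine pow_cont (f := fun x : ℝ => (x : ℂ) - (a i : ℂ)) (by fun_prop) ?_
    rw [Complex.sub_re, Complex.ofReal_re, Complex.ofReal_re]
    have := ha.monotone (Finset.mem_Iic.1 hi)
    linarith [hx.1]
  · refine tendsto_finsetProd _ fun i hi => ?_
    refine pow_cont (f := fun x : ℝ => (a i : ℂ) - (x : ℂ)) (by fun_prop) ?_
    rw [Complex.sub_re, Complex.ofReal_re, Complex.ofReal_re]
    have := ha.monotone (Finset.mem_Ici.1 hi)
    linarith [hx.2]

lemma real_strict {a : Fin (n + 1) → ℝ} (h : (fun i => (a i : ℂ)) ∈ Ord n) : StrictMono a := by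
  intro i k hik
  simpa using h i k hik

/-- the common factor -/
noncomputable def hp : ℂ := 1 / 2 * ((1 / 2 : ℂ) ^ nu * (1 / 2 : ℂ) ^ nu)

/-- `l`, seen from the left end -/
lemma Ph_l_left {l : Fin n} {a : Fin (n + 1) → ℝ} (ha : StrictMono a) :
    Ph l (fun i => (a i : ℂ)) = hp * ∫ y in (0 : ℝ)..(2 * (a l.succ - a l.castSucc)),
      F2 (2 * (a l.succ - a l.castSucc)) (gR l fun i => (a i : ℂ)) y := by
  rw [Ph_real ha]
  have h1 := intervalIntegral.integral_comp_add_mul (a := 0) (b := 2 * (a l.succ - a l.castSucc))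
    (fm l (fun i => (a i : ℂ))) (c := 1 / 2) (by norm_num) (a l.castSucc)
  have e1 : a l.castSucc + 1 / 2 * (2 * (a l.succ - a l.castSucc)) = a l.succ := by ring
  rw [mul_zero, add_zero, e1] at h1
  have h2 : ∫ x in (a l.castSucc)..(a l.succ), fm l (fun i => (a i : ℂ)) x =
      (1 / 2 : ℂ) * ∫ y in (0 : ℝ)..(2 * (a l.succ - a l.castSucc)),
        fm l (fun i => (a i : ℂ)) (a l.castSucc + 1 / 2 * y) := by
    rw [h1, Complex.real_smul]
    push_cast
    ring
  rw [h2]
  unfold hp
  rw [mul_assoc]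
  refine congrArg (fun z : ℂ => 1 / 2 * z) ?_
  rw [← intervalIntegral.integral_const_mul]
  refine intervalIntegral.integral_congr fun y _ => ?_
  rw [fm_eq]
  unfold F2 gR
  have e2 : ((a l.castSucc + 1 / 2 * y : ℝ) : ℂ) - (a l.castSucc : ℂ) = (y : ℂ) / 2 := by
    push_cast
    ring
  have e3 : (a l.succ : ℂ) - ((a l.castSucc + 1 / 2 * y : ℝ) : ℂ) =
      (((2 * (a l.succ - a l.castSucc) : ℝ) : ℂ) - y) / 2 := by
    push_cast
    ring
  have e4 : ((a l.castSucc + 1 / 2 * y : ℝ) : ℂ) = (a l.castSucc : ℂ) + (y : ℂ) / 2 := by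
    push_cast
    ring
  rw [e2, e3, half_pow (y : ℂ), half_pow (((2 * (a l.succ - a l.castSucc) : ℝ) : ℂ) - y), e4]
  ring

/-- `l`, seen from the right end -/
lemma Ph_l_right {l : Fin n} {a : Fin (n + 1) → ℝ} (ha : StrictMono a) :
    Ph l (fun i => (a i : ℂ)) = hp * ∫ y in (0 : ℝ)..(2 * (a l.succ - a l.castSucc)),
      F2 (2 * (a l.succ - a l.castSucc)) (gL l fun i => (a i : ℂ)) y := by
  rw [Ph_real ha]
  have h1 := intervalIntegral.integral_comp_sub_mul (a := 0) (b := 2 * (a l.succ - a l.castSucc))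
    (fm l (fun i => (a i : ℂ))) (c := 1 / 2) (by norm_num) (a l.succ)
  have e1 : a l.succ - 1 / 2 * (2 * (a l.succ - a l.castSucc)) = a l.castSucc := by ring
  rw [mul_zero, sub_zero, e1] at h1
  have h2 : ∫ x in (a l.castSucc)..(a l.succ), fm l (fun i => (a i : ℂ)) x =
      (1 / 2 : ℂ) * ∫ y in (0 : ℝ)..(2 * (a l.succ - a l.castSucc)),
        fm l (fun i => (a i : ℂ)) (a l.succ - 1 / 2 * y) := by
    rw [h1, Complex.real_smul]
    push_cast
    ring
  rw [h2]
  unfold hp
  rw [mul_assoc]
  refine congrArg (fun z : ℂ => 1 / 2 * z) ?_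
  rw [← intervalIntegral.integral_const_mul]
  refine intervalIntegral.integral_congr fun y _ => ?_
  rw [fm_eq]
  unfold F2 gL
  have e2 : ((a l.succ - 1 / 2 * y : ℝ) : ℂ) - (a l.castSucc : ℂ) =
      (((2 * (a l.succ - a l.castSucc) : ℝ) : ℂ) - y) / 2 := by
    push_cast
    ring
  have e3 : (a l.succ : ℂ) - ((a l.succ - 1 / 2 * y : ℝ) : ℂ) = (y : ℂ) / 2 := by
    push_cast
    ring
  have e4 : ((a l.succ - 1 / 2 * y : ℝ) : ℂ) = (a l.succ : ℂ) - (y : ℂ) / 2 := by
    push_cast
    ring
  rw [e2, e3, half_pow (y : ℂ), half_pow (((2 * (a l.succ - a l.castSucc) : ℝ) : ℂ) - y), e4]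
  ring

/-- the far part for the right neighbour -/
noncomputable def RR (l m : Fin n) (e : Fin (n + 1) → ℂ) : ℂ :=
  (e m.succ - (e l.castSucc + 1 / 2)) ^ (1 + 0 + nu) *
    GI (Finset.Iic l.succ) (Finset.Ioi m.succ) cn 0 nu (fun e => e l.castSucc + 1 / 2) (fun e => e m.succ) e

/-- the far part for the left neighbour -/
noncomputable def RL (l m : Fin n) (e : Fin (n + 1) → ℂ) : ℂ :=
  (e l.succ - 1 / 2 - e m.castSucc) ^ (1 + nu + 0) *
    GI (Finset.Iio m.castSucc) (Finset.Ici l.castSucc) cn nu 0 (fun e => e m.castSucc) (fun e => e l.succ - 1 / 2) e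

lemma coord_an (i : Fin (n + 1)) (e : Fin (n + 1) → ℂ) : AnalyticAt ℂ (fun e : Fin (n + 1) → ℂ => e i) e :=
  (ContinuousLinearMap.proj (R := ℂ) (φ := fun _ : Fin (n + 1) => ℂ) i).analyticAt e

lemma RR_an {l m : Fin n} (hm : (m : ℕ) = l + 1) : AnalyticOnNhd ℂ (RR l m) (NB l (1 / 16)) := by
  have hms : l.succ < m.succ := Fin.lt_def.2 (by simp only [Fin.val_succ]; omega)
  have key : ∀ e ∈ NB l (1 / 16), ∀ i : Fin (n + 1), i ≤ l.succ → (e i).re + 1 / 4 < (e l.castSucc).re + 1 / 2 := by
    intro e he i hi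
    rcases eq_or_lt_of_le hi with h | h
    · have h1 := dd_small he
      have h2 := (Complex.re_le_norm (dd l e)).trans_lt h1
      unfold dd at h2
      rw [Complex.sub_re] at h2
      rw [h]
      linarith
    · rcases eq_or_lt_of_le (show i ≤ l.castSucc from Fin.le_def.2 (by
        have := Fin.lt_def.1 h
        simp only [Fin.val_succ, Fin.val_castSucc] at *
        omega)) with h' | h'
      · rw [h']
        linarith
      · have := NB_lt he h' (fun h => (cs_lt l).ne h.2)
        linarith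
  have key2 : ∀ e ∈ NB l (1 / 16), ∀ i : Fin (n + 1), l.succ < i → (e l.castSucc).re + 7 / 8 < (e i).re :=
    fun e he i hi => NB_lt he ((cs_lt l).trans hi) fun h => hi.ne' h.2
  have hA : ∀ e : Fin (n + 1) → ℂ, (e l.castSucc + 1 / 2).re = (e l.castSucc).re + 1 / 2 := fun e => by simp
  have hGI : AnalyticOnNhd ℂ (GI (Finset.Iic l.succ) (Finset.Ioi m.succ) cn 0 nu (fun e => e l.castSucc + 1 / 2)
      (fun e => e m.succ)) (NB l (1 / 16)) := by
    refine GI_an (NB_open l _) (by simp) (by rw [nu_re']; norm_num) (by fun_prop) (by fun_prop) (fun e he => ?_)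
      (fun e he => ?_)
    · refine ⟨fun i hi => ?_, fun i hi => ?_⟩
      · rw [Finset.mem_Iic] at hi
        rw [hA]
        linarith [key e he i hi]
      · rw [Finset.mem_Ioi] at hi
        rw [hA]
        linarith [key2 e he i (hms.trans hi)]
    · refine ⟨fun i hi => ?_, fun i hi => ?_⟩
      · rw [Finset.mem_Iic] at hi
        linarith [key e he i hi, key2 e he m.succ hms]
      · rw [Finset.mem_Ioi] at hi
        linarith [NB_lt he hi fun h => hms.ne (Fin.ext (by
          have := congrArg Fin.val h.1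
          simp only [Fin.val_succ, Fin.val_castSucc] at *
          omega))]
  intro e he
  refine AnalyticAt.mul (AnalyticAt.cpow ?_ analyticAt_const ?_) (hGI e he)
  · exact (coord_an _ e).sub ((coord_an _ e).add analyticAt_const)
  · refine slit_of_re ?_
    rw [Complex.sub_re, hA]
    linarith [key2 e he m.succ hms]

lemma RL_an {l m : Fin n} (hm : (m : ℕ) + 1 = l) : AnalyticOnNhd ℂ (RL l m) (NB l (1 / 16)) := by
  have hmc : m.castSucc < l.castSucc := Fin.lt_def.2 (by simp only [Fin.val_castSucc]; omega)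
  have key : ∀ e ∈ NB l (1 / 16), ∀ i : Fin (n + 1), l.castSucc ≤ i → (e l.succ).re - 1 / 2 + 1 / 4 < (e i).re := by
    intro e he i hi
    rcases eq_or_lt_of_le hi with h | h
    · have h1 := dd_small he
      have h2 := (Complex.re_le_norm (dd l e)).trans_lt h1
      unfold dd at h2
      rw [Complex.sub_re] at h2
      rw [← h]
      linarith
    · rcases eq_or_lt_of_le (succ_le_of h) with h' | h'
      · rw [← h']
        linarith
      · have := NB_lt he h' (fun h => (cs_lt l).ne' h.1)
        linarith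
  have key2 : ∀ e ∈ NB l (1 / 16), ∀ i : Fin (n + 1), i < l.castSucc → (e i).re + 7 / 8 < (e l.succ).re :=
    fun e he i hi => NB_lt he (hi.trans (cs_lt l)) fun h => hi.ne h.1
  have hB : ∀ e : Fin (n + 1) → ℂ, (e l.succ - 1 / 2).re = (e l.succ).re - 1 / 2 := fun e => by simp
  have hGI : AnalyticOnNhd ℂ (GI (Finset.Iio m.castSucc) (Finset.Ici l.castSucc) cn nu 0 (fun e => e m.castSucc)
      (fun e => e l.succ - 1 / 2)) (NB l (1 / 16)) := by
    refine GI_an (NB_open l _) (by rw [nu_re']; norm_num) (by simp) (by fun_prop) (by fun_prop) (fun e he => ?_)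
      (fun e he => ?_)
    · refine ⟨fun i hi => ?_, fun i hi => ?_⟩
      · rw [Finset.mem_Iio] at hi
        linarith [NB_lt he hi fun h => (hmc.trans (cs_lt l)).ne h.2]
      · rw [Finset.mem_Ici] at hi
        linarith [key e he i hi, key2 e he m.castSucc hmc]
    · refine ⟨fun i hi => ?_, fun i hi => ?_⟩
      · rw [Finset.mem_Iio] at hi
        rw [hB]
        linarith [key2 e he i (hi.trans hmc)]
      · rw [Finset.mem_Ici] at hi
        rw [hB]
        linarith [key e he i hi]
  intro e he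
  refine AnalyticAt.mul (AnalyticAt.cpow ?_ analyticAt_const ?_) (hGI e he)
  · exact ((coord_an _ e).sub analyticAt_const).sub (coord_an _ e)
  · refine slit_of_re ?_
    rw [Complex.sub_re, hB]
    linarith [key2 e he m.castSucc hmc]

lemma real_dd {l : Fin n} (a : Fin (n + 1) → ℝ) :
    dd l (fun i => (a i : ℂ)) = ((a l.succ - a l.castSucc : ℝ) : ℂ) := by
  unfold dd
  push_cast
  rfl

/-- **the right neighbour** -/
lemma Ph_right_real {l m : Fin n} (hm : (m : ℕ) = l + 1) {a : Fin (n + 1) → ℝ} (ha : StrictMono a)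
    (he : (fun i => (a i : ℂ)) ∈ NB l (1 / 16)) :
    Ph m (fun i => (a i : ℂ)) - Ph l (fun i => (a i : ℂ)) = hp / (pp - 1) *
      Circ (2 * dd l fun i => (a i : ℂ)) (gR l fun i => (a i : ℂ)) + RR l m fun i => (a i : ℂ) := by
  have hms : l.succ < m.succ := Fin.lt_def.2 (by simp only [Fin.val_succ]; omega)
  have hmc : m.castSucc = l.succ := Fin.ext (by simp only [Fin.val_succ, Fin.val_castSucc]; omega)
  have hw0 : 0 < 2 * (a l.succ - a l.castSucc) := by linarith [ha (cs_lt l)]
  have hsm := dd_small he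
  rw [real_dd, Complex.norm_real, Real.norm_of_nonneg (by linarith)] at hsm
  have hw1 : 2 * (a l.succ - a l.castSucc) < 1 := by linarith
  have hgap : a l.castSucc + 7 / 8 < a m.succ := by
    have := NB_lt he ((cs_lt l).trans hms) fun h => hms.ne' h.2
    simpa using this
  have hll := local_lemma hw0 hw1 (fun y hy => gR_diff he y hy)
  have e0 : (2 * dd l fun i => (a i : ℂ)) = ((2 * (a l.succ - a l.castSucc) : ℝ) : ℂ) := by
    rw [real_dd]
    push_cast
    ring
  rw [e0, hll, Ph_l_left (l := l) ha]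
  have hpp : pp - 1 ≠ 0 := sub_ne_zero.2 pp_ne_one
  -- the far part
  have hfar : RR l m (fun i => (a i : ℂ)) = ∫ x in (a l.castSucc + 1 / 2)..(a m.succ), fm m (fun i => (a i : ℂ)) x := by
    have h := GI_real (Lf := Finset.Iic l.succ) (Rt := Finset.Ioi m.succ) (α := cn) (a := 0) (b := nu)
      (A := fun e : Fin (n + 1) → ℂ => e l.castSucc + 1 / 2) (B := fun e => e m.succ) (e := fun i => (a i : ℂ))
      (A' := a l.castSucc + 1 / 2) (B' := a m.succ) (by push_cast; ring) rfl (by linarith)
    unfold RR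
    rw [h]
    refine intervalIntegral.integral_congr fun x _ => ?_
    unfold fm gp
    have e2 : (Finset.Ici m.succ : Finset (Fin (n + 1))) = insert m.succ (Finset.Ioi m.succ) :=
      (Finset.Ioi_insert _).symm
    rw [hmc, e2, Finset.prod_insert (by simp), Complex.cpow_zero]
    unfold cn
    ring
  -- the near part
  have hnear : ∫ x in (a m.castSucc)..(a l.castSucc + 1 / 2), fm m (fun i => (a i : ℂ)) x =
      hp * ∫ y in (2 * (a l.succ - a l.castSucc))..1, F1 (2 * (a l.succ - a l.castSucc)) (gR l fun i => (a i : ℂ)) y := by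
    have h1 := intervalIntegral.integral_comp_add_mul (a := 2 * (a l.succ - a l.castSucc)) (b := 1)
      (fm m (fun i => (a i : ℂ))) (c := 1 / 2) (by norm_num) (a l.castSucc)
    have e1 : a l.castSucc + 1 / 2 * (2 * (a l.succ - a l.castSucc)) = a l.succ := by ring
    rw [mul_one, e1] at h1
    have h2 : ∫ x in (a m.castSucc)..(a l.castSucc + 1 / 2), fm m (fun i => (a i : ℂ)) x =
        (1 / 2 : ℂ) * ∫ y in (2 * (a l.succ - a l.castSucc))..1,
          fm m (fun i => (a i : ℂ)) (a l.castSucc + 1 / 2 * y) := by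
      rw [h1, Complex.real_smul, hmc]
      push_cast
      ring
    rw [h2]
    unfold hp
    rw [mul_assoc]
    refine congrArg (fun z : ℂ => 1 / 2 * z) ?_
    rw [← intervalIntegral.integral_const_mul]
    refine intervalIntegral.integral_congr fun y _ => ?_
    unfold F1 gR fm gp
    have e2 : (Finset.Iic m.castSucc : Finset (Fin (n + 1))) =
        insert l.succ (insert l.castSucc (Finset.Iio l.castSucc)) := by
      ext i
      simp only [hmc, Finset.mem_Iic, Finset.mem_insert, Finset.mem_Iio]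
      constructor
      · intro h
        rcases eq_or_lt_of_le h with h | h
        · exact Or.inl h
        · right
          rcases eq_or_lt_of_le (show i ≤ l.castSucc from Fin.le_def.2 (by
            have := Fin.lt_def.1 h
            simp only [Fin.val_succ, Fin.val_castSucc] at *
            omega)) with h' | h'
          · exact Or.inl h'
          · exact Or.inr h'
      · rintro (h | h | h)
        · exact h.le
        · exact h.le.trans (cs_lt l).le
        · exact h.le.trans (cs_lt l).le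
    have e3 : (Finset.Ici m.succ : Finset (Fin (n + 1))) = Finset.Ioi l.succ := by
      ext i
      simp only [Finset.mem_Ici, Finset.mem_Ioi, Fin.le_def, Fin.lt_def, Fin.val_succ]
      omega
    have e4 : ((a l.castSucc + 1 / 2 * y : ℝ) : ℂ) - (a l.castSucc : ℂ) = (y : ℂ) / 2 := by
      push_cast
      ring
    have e5 : ((a l.castSucc + 1 / 2 * y : ℝ) : ℂ) - (a l.succ : ℂ) =
        ((y : ℂ) - ((2 * (a l.succ - a l.castSucc) : ℝ) : ℂ)) / 2 := by
      push_cast
      ring
    have e6 : ((a l.castSucc + 1 / 2 * y : ℝ) : ℂ) = (a l.castSucc : ℂ) + (y : ℂ) / 2 := by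
      push_cast
      ring
    rw [e2, e3, Finset.prod_insert (by simp), Finset.prod_insert (by simp)]
    simp only [cn]
    rw [e4, e5, half_pow (y : ℂ), half_pow ((y : ℂ) - ((2 * (a l.succ - a l.castSucc) : ℝ) : ℂ)), e6]
    ring
  have hI : ∀ {u v : ℝ}, a m.castSucc ≤ u → u ≤ v → v ≤ a m.succ →
      IntervalIntegrable (fm m (fun i => (a i : ℂ))) volume u v := by
    intro u v h1 h2 h3
    refine ContinuousOn.intervalIntegrable ((fm_cont ha m).mono ?_)
    rw [uIcc_of_le h2]
    exact Icc_subset_Icc h1 h3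
  have hle : a m.castSucc ≤ a l.castSucc + 1 / 2 := by
    rw [hmc]
    linarith
  rw [Ph_real ha m, ← intervalIntegral.integral_add_adjacent_intervals (hI le_rfl hle (by linarith))
    (hI hle (by linarith) le_rfl), hnear, hfar]
  field_simp
  ring

/-- **the left neighbour** -/
lemma Ph_left_real {l m : Fin n} (hm : (m : ℕ) + 1 = l) {a : Fin (n + 1) → ℝ} (ha : StrictMono a)
    (he : (fun i => (a i : ℂ)) ∈ NB l (1 / 16)) :
    Ph m (fun i => (a i : ℂ)) - Ph l (fun i => (a i : ℂ)) = hp / (pp - 1) *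
      Circ (2 * dd l fun i => (a i : ℂ)) (gL l fun i => (a i : ℂ)) + RL l m fun i => (a i : ℂ) := by
  have hmc : m.castSucc < l.castSucc := Fin.lt_def.2 (by simp only [Fin.val_castSucc]; omega)
  have hms : m.succ = l.castSucc := Fin.ext (by simp only [Fin.val_succ, Fin.val_castSucc]; omega)
  have hw0 : 0 < 2 * (a l.succ - a l.castSucc) := by linarith [ha (cs_lt l)]
  have hsm := dd_small he
  rw [real_dd, Complex.norm_real, Real.norm_of_nonneg (by linarith)] at hsm
  have hw1 : 2 * (a l.succ - a l.castSucc) < 1 := by linarith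
  have hgap : a m.castSucc + 7 / 8 < a l.succ := by
    have := NB_lt he (hmc.trans (cs_lt l)) fun h => hmc.ne h.1
    simpa using this
  have hll := local_lemma hw0 hw1 (fun y hy => gL_diff he y hy)
  have e0 : (2 * dd l fun i => (a i : ℂ)) = ((2 * (a l.succ - a l.castSucc) : ℝ) : ℂ) := by
    rw [real_dd]
    push_cast
    ring
  rw [e0, hll, Ph_l_right (l := l) ha]
  have hpp : pp - 1 ≠ 0 := sub_ne_zero.2 pp_ne_one
  -- the far part
  have hfar : RL l m (fun i => (a i : ℂ)) = ∫ x in (a m.castSucc)..(a l.succ - 1 / 2), fm m (fun i => (a i : ℂ)) x := by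
    have h := GI_real (Lf := Finset.Iio m.castSucc) (Rt := Finset.Ici l.castSucc) (α := cn) (a := nu) (b := 0)
      (A := fun e : Fin (n + 1) → ℂ => e m.castSucc) (B := fun e => e l.succ - 1 / 2) (e := fun i => (a i : ℂ))
      (A' := a m.castSucc) (B' := a l.succ - 1 / 2) rfl (by push_cast; ring) (by linarith)
    unfold RL
    rw [h]
    refine intervalIntegral.integral_congr fun x _ => ?_
    unfold fm gp
    have e2 : (Finset.Iic m.castSucc : Finset (Fin (n + 1))) = insert m.castSucc (Finset.Iio m.castSucc) :=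
      (Finset.Iio_insert _).symm
    rw [hms, e2, Finset.prod_insert (by simp), Complex.cpow_zero]
    unfold cn
    ring
  -- the near part
  have hnear : ∫ x in (a l.succ - 1 / 2)..(a m.succ), fm m (fun i => (a i : ℂ)) x =
      hp * ∫ y in (2 * (a l.succ - a l.castSucc))..1, F1 (2 * (a l.succ - a l.castSucc)) (gL l fun i => (a i : ℂ)) y := by
    have h1 := intervalIntegral.integral_comp_sub_mul (a := 2 * (a l.succ - a l.castSucc)) (b := 1)
      (fm m (fun i => (a i : ℂ))) (c := 1 / 2) (by norm_num) (a l.succ)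
    have e1 : a l.succ - 1 / 2 * (2 * (a l.succ - a l.castSucc)) = a l.castSucc := by ring
    rw [mul_one, e1] at h1
    have h2 : ∫ x in (a l.succ - 1 / 2)..(a m.succ), fm m (fun i => (a i : ℂ)) x =
        (1 / 2 : ℂ) * ∫ y in (2 * (a l.succ - a l.castSucc))..1,
          fm m (fun i => (a i : ℂ)) (a l.succ - 1 / 2 * y) := by
      rw [h1, Complex.real_smul, hms]
      push_cast
      ring
    rw [h2]
    unfold hp
    rw [mul_assoc]
    refine congrArg (fun z : ℂ => 1 / 2 * z) ?_
    rw [← intervalIntegral.integral_const_mul]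
    refine intervalIntegral.integral_congr fun y _ => ?_
    unfold F1 gL fm gp
    have e2 : (Finset.Ici m.succ : Finset (Fin (n + 1))) =
        insert l.castSucc (insert l.succ (Finset.Ioi l.succ)) := by
      ext i
      simp only [hms, Finset.mem_Ici, Finset.mem_insert, Finset.mem_Ioi]
      constructor
      · intro h
        rcases eq_or_lt_of_le h with h | h
        · exact Or.inl h.symm
        · right
          rcases eq_or_lt_of_le (succ_le_of h) with h' | h'
          · exact Or.inl h'.symm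
          · exact Or.inr h'
      · rintro (h | h | h)
        · exact h.ge
        · exact (cs_lt l).le.trans h.ge
        · exact (cs_lt l).le.trans h.le
    have e3 : (Finset.Iic m.castSucc : Finset (Fin (n + 1))) = Finset.Iio l.castSucc := by
      ext i
      simp only [Finset.mem_Iic, Finset.mem_Iio, Fin.le_def, Fin.lt_def, Fin.val_castSucc]
      omega
    have e4 : (a l.castSucc : ℂ) - ((a l.succ - 1 / 2 * y : ℝ) : ℂ) =
        ((y : ℂ) - ((2 * (a l.succ - a l.castSucc) : ℝ) : ℂ)) / 2 := by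
      push_cast
      ring
    have e5 : (a l.succ : ℂ) - ((a l.succ - 1 / 2 * y : ℝ) : ℂ) = (y : ℂ) / 2 := by
      push_cast
      ring
    have e6 : ((a l.succ - 1 / 2 * y : ℝ) : ℂ) = (a l.succ : ℂ) - (y : ℂ) / 2 := by
      push_cast
      ring
    rw [e2, e3, Finset.prod_insert (by simp), Finset.prod_insert (by simp)]
    simp only [cn]
    rw [e4, e5, half_pow (y : ℂ), half_pow ((y : ℂ) - ((2 * (a l.succ - a l.castSucc) : ℝ) : ℂ)), e6]
    ring
  have hI : ∀ {u v : ℝ}, a m.castSucc ≤ u → u ≤ v → v ≤ a m.succ →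
      IntervalIntegrable (fm m (fun i => (a i : ℂ))) volume u v := by
    intro u v h1 h2 h3
    refine ContinuousOn.intervalIntegrable ((fm_cont ha m).mono ?_)
    rw [uIcc_of_le h2]
    exact Icc_subset_Icc h1 h3
  have hle : a l.succ - 1 / 2 ≤ a m.succ := by
    rw [hms]
    linarith
  rw [Ph_real ha m, ← intervalIntegral.integral_add_adjacent_intervals (hI le_rfl (by linarith) hle)
    (hI (by linarith) hle le_rfl), hnear, hfar]
  field_simp
  ring

end Pool.Agent.E8helper42.TG
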