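import Pool.Agent.E8helper42.TG.Wall2
import Pool.Agent.E8helper42.TG.Alg2

/-!
# The period matrix near the walls
-/

set_option autoImplicit false
set_option linter.unusedSectionVars false

open Complex Set MeasureTheory Filter Topology intervalIntegral

namespace Pool.Agent.E8helper42.TG

open Pool.Agent.Y890.HE (Ord Ord_open Ord_convex Ord_real Ord_nonempty real_zero)

variable {n : ℕ}

/-- the analytic parts -/
noncomputable def AA (l m : Fin n) (e : Fin (n + 1) → ℂ) : ℂ :=
  if m = l then 0 else if (m : ℕ) = l + 1 then hp / (pp - 1) * Circ (2 * dd l e) (gR l e) + RR l m e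
  else if (m : ℕ) + 1 = l then hp / (pp - 1) * Circ (2 * dd l e) (gL l e) + RL l m e else Ph m e

lemma Ph_an' (m : Fin n) {e : Fin (n + 1) → ℂ} (he : e ∈ Dm m) (hd : 0 < (dd m e).re) : AnalyticAt ℂ (Ph m) e :=
  JJ_an m (α := fun _ => nu) (by rw [nu_re']; norm_num) (by rw [nu_re']; norm_num) e ⟨he, hd⟩

lemma AA_an (l m : Fin n) : AnalyticOnNhd ℂ (AA l m) (NB l (1 / 16)) := by
  unfold AA
  split_ifs with h1 h2 h3
  · exact fun e _ => analyticAt_const
  · refine fun e he => (analyticAt_const.mul (Circ_an (c := fun e y => e l.castSucc + y / 2) (fun e y => rfl)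
      (by fun_prop) (fun y => by fun_prop) (fun e he y hy => ok_gR he hy) e he)).add (RR_an h2 e he)
  · refine fun e he => (analyticAt_const.mul (Circ_an (c := fun e y => e l.succ - y / 2) (fun e y => rfl)
      (by fun_prop) (fun y => by fun_prop) (fun e he y hy => ok_gL he hy) e he)).add (RL_an h3 e he)
  · exact fun e he => Ph_an' m (NB_Dm h2 h3 he) (NB_dd h1 he)

/-- the real side -/
def V0 (l : Fin n) : Set (Fin (n + 1) → ℂ) := NB l (1 / 16) ∩ {e | 0 < (dd l e).re}

lemma V0_open (l : Fin n) : IsOpen (V0 l) :=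
  (NB_open l _).inter (isOpen_lt continuous_const (Complex.continuous_re.comp (by unfold dd; fun_prop)))

lemma V0_convex (l : Fin n) : Convex ℝ (V0 l) := by
  refine (convex_ball _ _).inter ?_
  intro x hx y hy a b ha hb hab
  simp only [mem_ofPred_eq] at *
  have h : (dd l (a • x + b • y)).re = a * (dd l x).re + b * (dd l y).re := by
    unfold dd
    simp
    ring
  rw [h]
  rcases eq_or_lt_of_le ha with h1 | h1
  · have : b = 1 := by linarith
    rw [← h1, this]
    linarith
  · have := mul_pos h1 hx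
    have := mul_nonneg hb hy.le
    linarith

/-- a real point -/
noncomputable def x0 (l : Fin n) (i : Fin (n + 1)) : ℝ := if i = l.succ then (l : ℝ) + 1 / 32 else (i : ℝ)

lemma x0_mem (l : Fin n) : (fun i => (x0 l i : ℂ)) ∈ V0 l := by
  constructor
  · unfold NB
    rw [Metric.mem_ball, dist_pi_lt_iff (by norm_num)]
    intro i
    rw [dist_eq_norm, ← Complex.ofReal_sub, Complex.norm_real]
    unfold x0 cI
    split_ifs
    · rw [add_sub_cancel_left, Real.norm_of_nonneg (by norm_num)]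
      norm_num
    · rw [sub_self, norm_zero]
      norm_num
  · have h1 : x0 l l.succ = (l : ℝ) + 1 / 32 := if_pos rfl
    have h2 : x0 l l.castSucc = (l : ℝ) := by
      unfold x0
      rw [if_neg (cs_lt l).ne]
      simp
    show 0 < ((x0 l l.succ : ℂ) - (x0 l l.castSucc : ℂ)).re
    rw [h1, h2, Complex.sub_re, Complex.ofReal_re, Complex.ofReal_re]
    norm_num

lemma V0_Ord {l : Fin n} {e : Fin (n + 1) → ℂ} (he : e ∈ V0 l) : e ∈ Ord n := NB_Ord he.1 he.2

/-- **the basic integrals near the wall** -/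
theorem Ph_AA (l m : Fin n) : ∀ e ∈ V0 l, Ph m e = AA l m e + tt l m * Ph l e := by
  have h := real_zero (V0_open l) (V0_convex l).isPreconnected (x0_mem l)
    (F := fun e => Ph m e - (AA l m e + tt l m * Ph l e)) (fun e he =>
      (Ph_an m e (V0_Ord he)).sub ((AA_an l m e he.1).add (analyticAt_const.mul (Ph_an l e (V0_Ord he))))) (by
    intro a ha
    have hs := real_strict (V0_Ord ha)
    unfold AA
    split_ifs with h1 h2 h3
    · rw [h1, tt_self]
      ring
    · rw [h2, tt_succ, ← Ph_right_real h2 hs ha.1]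
      ring
    · rw [← h3, tt_succ', ← Ph_left_real h3 hs ha.1]
      ring
    · have ht : tt (l : ℕ) m = 0 := by
        unfold tt
        rw [if_neg]
        intro h4
        have h5 : (m : ℕ) ≠ l := fun h6 => h1 (Fin.ext h6)
        omega
      rw [ht]
      ring)
  intro e he
  exact sub_eq_zero.1 (h e he)

/-- the coefficient of the cubic root -/
noncomputable def Gi (l : Fin n) (i : Fin (n + 1)) (e : Fin (n + 1) → ℂ) : ℂ :=
  (1 + (nu + nu)) * dd l e * dd l (Pi.single i 1) * II (fun _ => nu) l e +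
    dd l e ^ 2 * fderiv ℂ (II (fun _ => nu) l) e (Pi.single i 1)

lemma II_an' (l : Fin n) {e : Fin (n + 1) → ℂ} (he : e ∈ Dm l) : AnalyticAt ℂ (II (fun _ => nu) l) e :=
  II_an l (by rw [nu_re']; norm_num) (by rw [nu_re']; norm_num) e he

lemma Ph_Gi {l : Fin n} {e : Fin (n + 1) → ℂ} (he : e ∈ Dm l) (hd : 0 < (dd l e).re) (i : Fin (n + 1)) :
    fderiv ℂ (Ph l) e (Pi.single i 1) = dd l e ^ (1 / 3 : ℂ) * Gi l i e := by
  have h1 := line_deriv (Ph_an' l he hd).differentiableAt i
  have h2 := (pow_deriv (l := l) hd i (nu + nu)).mul (line_deriv (II_an' l he).differentiableAt i)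
  have h3 : (fun t => Ph l (ln1 e i t)) = fun t => dd l (ln1 e i t) ^ (1 + (nu + nu)) * II (fun _ => nu) l (ln1 e i t) := by
    funext t
    unfold Ph JJ
    rw [add_assoc]
  rw [h3] at h1
  rw [h1.unique h2, ln1_zero]
  have hd0 : dd l e ≠ 0 := slitPlane_ne_zero (slit_of_re hd)
  have e1 : dd l e ^ (nu + nu) = dd l e ^ (1 / 3 : ℂ) * dd l e := by
    have : nu + nu = 1 / 3 + 1 := by
      unfold nu
      norm_num
    rw [this, Complex.cpow_add _ _ hd0, Complex.cpow_one]
  have e2 : dd l e ^ (1 + (nu + nu)) = dd l e ^ (1 / 3 : ℂ) * dd l e ^ 2 := by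
    rw [Complex.cpow_add _ _ hd0, Complex.cpow_one, e1]
    ring
  rw [e2, e1]
  unfold Gi
  ring

/-- the analytic part of the periods -/
noncomputable def AM (l : Fin n) (j : ℕ) (m : Fin n) (e : Fin (n + 1) → ℂ) : ℂ :=
  -(3 / 2) * ∑ i, be j i e * fderiv ℂ (AA l m) e (Pi.single i 1)

/-- the coefficient -/
noncomputable def DD (l : Fin n) (j : ℕ) (e : Fin (n + 1) → ℂ) : ℂ := -(3 / 2) * ∑ i, be j i e * Gi l i e

/-- the matrix near the wall -/
noncomputable def QQ (l : Fin n) (τ : ℂ) (e : Fin (n + 1) → ℂ) : Matrix (Fin n) (Fin n) ℂ :=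
  Matrix.of fun j m => AM l j m e + tt l m * (τ * DD l j e)

lemma WW_fd {m : Fin n} {e : Fin (n + 1) → ℂ} (he : e ∈ Ord n) (i : Fin (n + 1)) :
    WW i m e = -(3 / 2) * fderiv ℂ (Ph m) e (Pi.single i 1) := by
  have h1 := (line_deriv (Ph_an m e he).differentiableAt i).unique (Ph_deriv m (Ord_Dm he m) (Ord_dd he m) i)
  rw [h1]
  unfold nu
  ring

theorem Pm_QQ {l : Fin n} {e : Fin (n + 1) → ℂ} (he : e ∈ V0 l) : Pm e = QQ l (dd l e ^ (1 / 3 : ℂ)) e := by
  have ho := V0_Ord he
  ext j m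
  unfold Pm QQ
  rw [Matrix.of_apply, Matrix.of_apply, PP_eq ho (by omega)]
  have h1 : ∀ i, fderiv ℂ (Ph m) e (Pi.single i 1) = fderiv ℂ (AA l m) e (Pi.single i 1) +
      tt l m * (dd l e ^ (1 / 3 : ℂ) * Gi l i e) := by
    intro i
    have h2 : Ph m =ᶠ[𝓝 e] fun e => AA l m e + tt l m * Ph l e := by
      filter_upwards [(V0_open l).mem_nhds he] with z hz
      exact Ph_AA l m z hz
    have hA := (AA_an l m e he.1).differentiableAt
    have hP := (Ph_an l e ho).differentiableAt
    rw [h2.fderiv_eq, fderiv_fun_add hA (hP.const_mul _), fderiv_const_mul hP,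
      _root_.add_apply, _root_.smul_apply, smul_eq_mul, Ph_Gi (Ord_Dm ho l) he.2]
  unfold AM DD
  simp only [WW_fd ho, h1]
  simp only [Finset.mul_sum, ← Finset.sum_add_distrib]
  refine Finset.sum_congr rfl fun i _ => ?_
  ring

lemma AM_l (l : Fin n) (j : ℕ) (e : Fin (n + 1) → ℂ) : AM l j l e = 0 := by
  have h1 : AA l l = fun _ : Fin (n + 1) → ℂ => (0 : ℂ) := by
    funext e
    unfold AA
    rw [if_pos rfl]
  unfold AM
  rw [h1]
  simp

theorem Pm_Mr {l : Fin n} {e : Fin (n + 1) → ℂ} (he : e ∈ V0 l) :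
    Pm e * Mr n pp l = QQ l (pp * dd l e ^ (1 / 3 : ℂ)) e := by
  ext j m
  have h1 : (Pm e * Mr n pp l) j m = Pm e j m + (pp - 1) * (Pm e j l * tt l m) := by
    unfold Mr
    rw [Matrix.mul_add, Matrix.mul_one, Matrix.add_apply, Matrix.mul_smul, Matrix.smul_apply, smul_eq_mul,
      Matrix.mul_apply]
    congr 2
    rw [Finset.sum_eq_single l]
    · unfold B
      rw [Matrix.of_apply, if_pos rfl]
    · intro k _ hk
      unfold B
      rw [Matrix.of_apply, if_neg (fun h => hk (Fin.ext h)), mul_zero]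
    · intro h
      exact absurd (Finset.mem_univ _) h
  rw [h1, Pm_QQ he]
  unfold QQ
  simp only [Matrix.of_apply]
  rw [AM_l, tt_self]
  ring

end Pool.Agent.E8helper42.TG
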