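import Pool.Agent.E8helper42.TG.Wall3

/-!
# The local monodromy at the walls
-/

set_option autoImplicit false
set_option linter.unusedSectionVars false

open Complex Set MeasureTheory Filter Topology intervalIntegral

namespace Pool.Agent.E8helper42.TG

open Pool.Agent.Y890.HE (Ord Ord_open Ord_convex Ord_real Ord_nonempty real_zero)
open Pool.Agent.Y119.PLM

variable {n : ℕ}

/-! ### analyticity of the values of the relations -/

lemma vt_ana {E X κ : Type} [NormedAddCommGroup E] [NormedSpace ℂ E] {N : κ → ℕ}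
    (P : MvPolynomial (Ix N) (MvPolynomial X ℂ)) {x : E → X → ℂ} {A : E → MT N} {z : E}
    (hx : ∀ i, AnalyticAt ℂ (fun z => x z i) z) (hA : ∀ j a b, AnalyticAt ℂ (fun z => A z j a b) z) :
    AnalyticAt ℂ (fun z => vt P (x z) (A z)) z := by
  unfold vt
  induction P using MvPolynomial.induction_on with
  | C a =>
    simp only [MvPolynomial.eval₂_C]
    exact AnalyticAt.aeval_mvPolynomial (A := ℂ) hx a
  | add p q hp hq =>
    simp only [MvPolynomial.eval₂_add]
    exact hp.add hq
  | mul_X p i hp =>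
    simp only [MvPolynomial.eval₂_mul, MvPolynomial.eval₂_X]
    exact hp.mul (hA _ _ _)

/-! ### analyticity of the matrix near the wall -/

lemma vi_ne' {l : Fin n} {e : Fin (n + 1) → ℂ} (he : e ∈ NB l (1 / 16)) (hd : dd l e ≠ 0) (i : Fin (n + 1)) :
    vi i e ≠ 0 := by
  have key : ∀ i k : Fin (n + 1), i < k → e k - e i ≠ 0 := by
    intro i k hik
    by_cases h : i = l.castSucc ∧ k = l.succ
    · rw [h.1, h.2]
      exact hd
    · have h1 := NB_lt he hik h
      intro h2
      have h3 := congrArg Complex.re h2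
      rw [Complex.sub_re, Complex.zero_re] at h3
      linarith
  refine Finset.prod_ne_zero_iff.2 fun r hr => ?_
  rcases lt_or_gt_of_ne (Finset.ne_of_mem_erase hr) with h | h
  · exact key r i h
  · have := key i r h
    intro h2
    apply this
    linear_combination -h2

lemma dd_an (l : Fin n) (e : Fin (n + 1) → ℂ) : AnalyticAt ℂ (dd l) e :=
  (coord_an _ e).sub (coord_an _ e)

lemma fd_an {f : (Fin (n + 1) → ℂ) → ℂ} {e : Fin (n + 1) → ℂ} (hf : AnalyticAt ℂ f e) (v : Fin (n + 1) → ℂ) :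
    AnalyticAt ℂ (fun e => fderiv ℂ f e v) e :=
  AnalyticAt.fun_comp (g := fun L : (Fin (n + 1) → ℂ) →L[ℂ] ℂ => L v) (f := fderiv ℂ f)
    ((ContinuousLinearMap.apply ℂ ℂ v).analyticAt _) hf.fderiv

lemma AM_an {l m : Fin n} {j : ℕ} {e : Fin (n + 1) → ℂ} (he : e ∈ NB l (1 / 16)) (hd : dd l e ≠ 0) :
    AnalyticAt ℂ (AM l j m) e := by
  unfold AM
  exact analyticAt_const.mul (Finset.analyticAt_fun_sum _ fun i _ =>
    (be_an (vi_ne' he hd i)).mul (fd_an (AA_an l m e he) _))

lemma DD_an {l : Fin n} {j : ℕ} {e : Fin (n + 1) → ℂ} (he : e ∈ NB l (1 / 16)) (hd : dd l e ≠ 0) :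
    AnalyticAt ℂ (DD l j) e := by
  have hI := II_an' l (NB_Dm (l := l) (m := l) (by omega) (by omega) he)
  unfold DD Gi
  refine analyticAt_const.mul (Finset.analyticAt_fun_sum _ fun i _ => (be_an (vi_ne' he hd i)).mul ?_)
  exact (((analyticAt_const.mul (dd_an l e)).mul analyticAt_const).mul hI).add (((dd_an l e).pow 2).mul (fd_an hI _))

/-! ### the logarithmic coordinates -/

/-- the points with `e (l + 1) - e l = exp (3 z)` -/
noncomputable def EE (l : Fin n) (p : ℂ × (Fin (n + 1) → ℂ)) : Fin (n + 1) → ℂ :=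
  Function.update p.2 l.succ (p.2 l.castSucc + Complex.exp (3 * p.1))

/-- the domain -/
def ZZ (l : Fin n) : Set (ℂ × (Fin (n + 1) → ℂ)) := {p | p.1.re < Real.log (1 / 32) / 3 ∧ p.2 ∈ NB l (1 / 32)}

lemma dd_EE (l : Fin n) (p : ℂ × (Fin (n + 1) → ℂ)) : dd l (EE l p) = Complex.exp (3 * p.1) := by
  unfold dd EE
  rw [Function.update_self, Function.update_of_ne (cs_lt l).ne]
  ring

lemma exp_small {l : Fin n} {p : ℂ × (Fin (n + 1) → ℂ)} (hp : p ∈ ZZ l) : ‖Complex.exp (3 * p.1)‖ < 1 / 32 := by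
  rw [Complex.norm_exp]
  have h1 := hp.1
  have h2 : (3 * p.1).re = 3 * p.1.re := by simp
  rw [h2, ← Real.lt_log_iff_exp_lt (by norm_num)]
  linarith

lemma EE_mem {l : Fin n} {p : ℂ × (Fin (n + 1) → ℂ)} (hp : p ∈ ZZ l) : EE l p ∈ NB l (1 / 16) := by
  unfold NB
  rw [Metric.mem_ball, dist_pi_lt_iff (by norm_num)]
  intro i
  rw [dist_eq_norm]
  unfold EE
  by_cases h : i = l.succ
  · subst h
    rw [Function.update_self]
    have h1 := NB_coord hp.2 l.castSucc
    have h2 := exp_small hp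
    have e1 : cI l l.castSucc = l := by
      unfold cI
      rw [if_neg (cs_lt l).ne]
      simp
    have e2 : cI l l.succ = l := by
      unfold cI
      rw [if_pos rfl]
    rw [e1] at h1
    rw [e2]
    have h3 : p.2 l.castSucc + Complex.exp (3 * p.1) - ((l : ℝ) : ℂ) =
        (p.2 l.castSucc - ((l : ℝ) : ℂ)) + Complex.exp (3 * p.1) := by ring
    rw [h3]
    refine (norm_add_le _ _).trans_lt ?_
    linarith
  · rw [Function.update_of_ne h]
    have := NB_coord hp.2 i
    linarith

lemma ZZ_open (l : Fin n) : IsOpen (ZZ l) := by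
  have h1 : IsOpen {p : ℂ × (Fin (n + 1) → ℂ) | p.1.re < Real.log (1 / 32) / 3} :=
    isOpen_lt (by fun_prop) continuous_const
  have h2 : IsOpen {p : ℂ × (Fin (n + 1) → ℂ) | p.2 ∈ NB l (1 / 32)} := (NB_open l _).preimage continuous_snd
  exact h1.inter h2

lemma ZZ_convex (l : Fin n) : Convex ℝ (ZZ l) := by
  intro x hx y hy a b ha hb hab
  refine ⟨?_, (convex_ball _ _) hx.2 hy.2 ha hb hab⟩
  have h : (a • x + b • y).1.re = a * x.1.re + b * y.1.re := by simp
  rw [h]
  have h1 := hx.1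
  have h2 := hy.1
  rcases eq_or_lt_of_le ha with h3 | h3
  · have : b = 1 := by linarith
    rw [← h3, this]
    linarith
  · have h4 := mul_lt_mul_of_pos_left h1 h3
    have h5 := mul_le_mul_of_nonneg_left h2.le hb
    have h6 : a * (Real.log (1 / 32) / 3) + b * (Real.log (1 / 32) / 3) = Real.log (1 / 32) / 3 := by
      rw [← add_mul, hab, one_mul]
    linarith

lemma fst_an (p : ℂ × (Fin (n + 1) → ℂ)) : AnalyticAt ℂ (fun p : ℂ × (Fin (n + 1) → ℂ) => p.1) p :=
  (ContinuousLinearMap.fst ℂ ℂ (Fin (n + 1) → ℂ)).analyticAt p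

lemma snd_an (i : Fin (n + 1)) (p : ℂ × (Fin (n + 1) → ℂ)) :
    AnalyticAt ℂ (fun p : ℂ × (Fin (n + 1) → ℂ) => p.2 i) p :=
  AnalyticAt.fun_comp (g := fun e : Fin (n + 1) → ℂ => e i) (f := Prod.snd) (coord_an i _)
    ((ContinuousLinearMap.snd ℂ ℂ (Fin (n + 1) → ℂ)).analyticAt p)

lemma EE_ani (l : Fin n) (i : Fin (n + 1)) (p : ℂ × (Fin (n + 1) → ℂ)) : AnalyticAt ℂ (fun p => EE l p i) p := by
  unfold EE
  by_cases h : i = l.succ
  · subst h
    simp only [Function.update_self]
    exact (snd_an _ p).add ((analyticAt_const.mul (fst_an p)).cexp)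
  · simp only [Function.update_of_ne h]
    exact snd_an _ p

lemma EE_an (l : Fin n) (p : ℂ × (Fin (n + 1) → ℂ)) : AnalyticAt ℂ (EE l) p :=
  analyticAt_pi_iff.2 fun i => EE_ani l i p

/-- the tuple -/
noncomputable def PmT (n : ℕ) (e : Fin (n + 1) → ℂ) : MT (fun _ : Unit => n) := fun _ => Pm e

lemma Psi_an (l : Fin n) (R : MvPolynomial (Ix (fun _ : Unit => n)) (MvPolynomial (Fin (n + 1)) ℂ)) :
    AnalyticOnNhd ℂ (fun p => vt R (EE l p) (fun _ => QQ l (Complex.exp p.1) (EE l p))) (ZZ l) := by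
  intro p hp
  refine vt_ana R (fun i => EE_ani l i p) fun _ a b => ?_
  have he := EE_mem hp
  have hd : dd l (EE l p) ≠ 0 := by
    rw [dd_EE]
    exact Complex.exp_ne_zero _
  unfold QQ
  simp only [Matrix.of_apply]
  refine AnalyticAt.add ?_ (analyticAt_const.mul (AnalyticAt.mul (fst_an p).cexp ?_))
  · exact AnalyticAt.fun_comp (g := AM l a b) (f := EE l) (AM_an he hd) (EE_an l p)
  · exact AnalyticAt.fun_comp (g := DD l a) (f := EE l) (DD_an he hd) (EE_an l p)

lemma pi_gt : (3 : ℝ) < Real.pi := Real.pi_gt_three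

/-- **The local monodromy.** -/
theorem Mr_mem (l : Fin n) : c1 n (Mr n pp l) ∈ GalT (Ord n) (PmT n) := by
  intro R hR
  -- zero near the real points
  have hZ : ∀ p ∈ ZZ l, vt R (EE l p) (fun _ => QQ l (Complex.exp p.1) (EE l p)) = 0 := by
    have h0 : ((((Real.log (1 / 32) / 3 - 1 : ℝ) : ℂ), fun i => ((cI l i : ℝ) : ℂ)) : ℂ × (Fin (n + 1) → ℂ)) ∈ ZZ l := by
      refine ⟨?_, Metric.mem_ball_self (by norm_num)⟩
      show (((Real.log (1 / 32) / 3 - 1 : ℝ) : ℂ)).re < _
      rw [Complex.ofReal_re]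
      linarith
    refine (Psi_an l R).eqOn_zero_of_preconnected_of_eventuallyEq_zero (ZZ_convex l).isPreconnected h0 ?_
    have hopen : IsOpen {p : ℂ × (Fin (n + 1) → ℂ) | -(1 / 2) < p.1.im ∧ p.1.im < 1 / 2} := by
      have h1 : IsOpen {p : ℂ × (Fin (n + 1) → ℂ) | -(1 / 2) < p.1.im} := isOpen_lt continuous_const (by fun_prop)
      have h2 : IsOpen {p : ℂ × (Fin (n + 1) → ℂ) | p.1.im < 1 / 2} := isOpen_lt (by fun_prop) continuous_const
      exact h1.inter h2
    filter_upwards [(ZZ_open l).mem_nhds h0, hopen.mem_nhds (show _ ∧ _ by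
      constructor
      · show _ < (((Real.log (1 / 32) / 3 - 1 : ℝ) : ℂ)).im
        rw [Complex.ofReal_im]
        norm_num
      · show (((Real.log (1 / 32) / 3 - 1 : ℝ) : ℂ)).im < _
        rw [Complex.ofReal_im]
        norm_num)] with p hp him
    have him3 : (3 * p.1).im = 3 * p.1.im := by simp
    have hp3 := pi_gt
    have hV : EE l p ∈ V0 l := by
      refine ⟨EE_mem hp, ?_⟩
      show 0 < (dd l (EE l p)).re
      rw [dd_EE, Complex.exp_re]
      refine mul_pos (Real.exp_pos _) (Real.cos_pos_of_mem_Ioo ⟨?_, ?_⟩)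
      · rw [him3]
        linarith [him.1]
      · rw [him3]
        linarith [him.2]
    have hroot : dd l (EE l p) ^ (1 / 3 : ℂ) = Complex.exp p.1 := by
      rw [dd_EE, Complex.cpow_def_of_ne_zero (Complex.exp_ne_zero _), Complex.log_exp]
      · congr 1
        ring
      · rw [him3]
        linarith [him.1]
      · rw [him3]
        linarith [him.2]
    have h1 := hR _ (V0_Ord hV)
    have h2 : PmT n (EE l p) = fun _ => QQ l (Complex.exp p.1) (EE l p) := by
      funext _
      show Pm (EE l p) = _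
      rw [Pm_QQ hV, hroot]
    rw [h2] at h1
    exact h1
  -- the other branch
  have han : AnalyticOnNhd ℂ (fun e => vt R e (PmT n e * c1 n (Mr n pp l))) (Ord n) := by
    intro e he
    refine vt_ana R (fun i => coord_an i e) fun _ a b => ?_
    show AnalyticAt ℂ (fun e => (Pm e * Mr n pp l) a b) e
    have h2 : (fun e => (Pm e * Mr n pp l) a b) = fun e : Fin (n + 1) → ℂ => ∑ k, PP a k e * Mr n pp l k b := by
      funext e
      rw [Matrix.mul_apply]
      rfl
    rw [h2]
    exact Finset.analyticAt_fun_sum _ fun k _ => (PP_an (by omega) k e he).mul analyticAt_const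
  have hV1 : IsOpen (NB l (1 / 64) ∩ {e | 0 < (dd l e).re}) :=
    (NB_open l _).inter (isOpen_lt continuous_const (Complex.continuous_re.comp (by unfold dd; fun_prop)))
  have hsub : NB l (1 / 64) ⊆ NB l (1 / 32) := Metric.ball_subset_ball (by norm_num)
  have hsub' : NB l (1 / 64) ⊆ NB l (1 / 16) := Metric.ball_subset_ball (by norm_num)
  have hne : (NB l (1 / 64) ∩ {e | 0 < (dd l e).re}).Nonempty := by
    refine ⟨fun i => ((if i = l.succ then (l : ℝ) + 1 / 128 else (i : ℝ) : ℝ) : ℂ), ?_, ?_⟩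
    · unfold NB
      rw [Metric.mem_ball, dist_pi_lt_iff (by norm_num)]
      intro i
      rw [dist_eq_norm, ← Complex.ofReal_sub, Complex.norm_real]
      unfold cI
      split_ifs
      · rw [add_sub_cancel_left, Real.norm_of_nonneg (by norm_num)]
        norm_num
      · rw [sub_self, norm_zero]
        norm_num
    · show 0 < (((if l.succ = l.succ then (l : ℝ) + 1 / 128 else (l.succ : ℝ) : ℝ) : ℂ) -
        ((if l.castSucc = l.succ then (l : ℝ) + 1 / 128 else (l.castSucc : ℝ) : ℝ) : ℂ)).re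
      rw [if_pos rfl, if_neg (cs_lt l).ne, Complex.sub_re, Complex.ofReal_re, Complex.ofReal_re]
      simp
  refine eq_on (Ord_convex n).isPreconnected han hV1 hne (fun e he => NB_Ord (hsub' he.1) he.2) ?_
  intro e he
  have hd0 : dd l e ≠ 0 := slitPlane_ne_zero (slit_of_re he.2)
  have hsm := dd_small he.1
  set z' : ℂ := Complex.log (dd l e) / 3 + 2 * Real.pi * I / 3 with hz'
  have e1 : Complex.exp (3 * z') = dd l e := by
    rw [hz']
    have : 3 * (Complex.log (dd l e) / 3 + 2 * Real.pi * I / 3) = Complex.log (dd l e) + 2 * Real.pi * I := by ring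
    rw [this, Complex.exp_periodic, Complex.exp_log hd0]
  have e2 : Complex.exp z' = pp * dd l e ^ (1 / 3 : ℂ) := by
    rw [hz', Complex.exp_add, Complex.cpow_def_of_ne_zero hd0]
    unfold pp
    rw [mul_comm]
    congr 2
    ring
  have hmem : ((z', e) : ℂ × (Fin (n + 1) → ℂ)) ∈ ZZ l := by
    refine ⟨?_, hsub he.1⟩
    show z'.re < _
    have h3 : z'.re = Real.log ‖dd l e‖ / 3 := by
      rw [hz', Complex.add_re]
      have h4 : (Complex.log (dd l e) / 3).re = Real.log ‖dd l e‖ / 3 := by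
        rw [show (3 : ℂ) = ((3 : ℝ) : ℂ) by norm_num, Complex.div_ofReal_re, Complex.log_re]
      have h5 : (2 * Real.pi * I / 3 : ℂ).re = 0 := by
        rw [show (3 : ℂ) = ((3 : ℝ) : ℂ) by norm_num, Complex.div_ofReal_re]
        simp
      rw [h4, h5, add_zero]
    rw [h3]
    have := Real.log_lt_log (norm_pos_iff.2 hd0) (show ‖dd l e‖ < 1 / 32 by linarith)
    linarith
  have e3 : EE l (z', e) = e := by
    unfold EE
    simp only
    rw [e1]
    have h4 : e l.castSucc + dd l e = e l.succ := by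
      unfold dd
      ring
    rw [h4, Function.update_eq_self]
  have h5 := hZ _ hmem
  have h6 : PmT n e * c1 n (Mr n pp l) = fun _ => QQ l (Complex.exp z') e := by
    funext _
    show Pm e * Mr n pp l = _
    rw [Pm_Mr ⟨hsub' he.1, he.2⟩, e2]
  rw [h6]
  rw [e3] at h5
  exact h5

/-- **The group of the relations between the periods.** -/
theorem gal_full (hn : ¬ 3 ∣ n + 1) : ∀ g : MT (fun _ : Unit => n), (∀ j, (g j).det = 1) → g ∈ GalT (Ord n) (PmT n) :=
  sl_gal hn pp_quad fun l hl => Mr_mem ⟨l, hl⟩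

end Pool.Agent.E8helper42.TG
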