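import Mathlib
import Pool.Agent.HopfPinch.AnS1
import Pool.Agent.Y785.MV.Osg

/-!
# Integrals with weights
-/

set_option autoImplicit false
set_option linter.unusedSectionVars false

open Complex Set MeasureTheory Filter Topology intervalIntegral

namespace Pool.Agent.E8helper42.TG

/-- the weight -/
noncomputable def wt (a b : ℂ) (u : ℝ) : ℂ := (u : ℂ) ^ a * (1 - (u : ℂ)) ^ b

lemma wt_int {a b : ℂ} (ha : -1 < a.re) (hb : -1 < b.re) : IntervalIntegrable (wt a b) volume 0 1 := by
  have h := Complex.betaIntegral_convergent (u := a + 1) (v := b + 1) (by simp; linarith) (by simp; linarith)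
  simp only [add_sub_cancel_right] at h
  exact h

lemma wt_cont {a b : ℂ} (ha : 0 < a.re) (hb : 0 < b.re) : ContinuousOn (wt a b) (Icc 0 1) := by
  intro u hu
  refine ContinuousAt.continuousWithinAt ?_
  unfold wt
  refine ContinuousAt.mul ?_ ?_
  · exact ContinuousAt.comp (f := fun y : ℝ => (y : ℂ)) (g := fun z : ℂ => z ^ a)
      (Complex.continuousAt_cpow_const_of_re_pos (Or.inl (by rw [Complex.ofReal_re]; exact hu.1)) ha) (by fun_prop)
  · exact ContinuousAt.comp (f := fun y : ℝ => 1 - (y : ℂ)) (g := fun z : ℂ => z ^ b)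
      (Complex.continuousAt_cpow_const_of_re_pos (Or.inl (by
        rw [Complex.sub_re, Complex.ofReal_re, Complex.one_re]; linarith [hu.2])) hb) (by fun_prop)

lemma wt_deriv {a b : ℂ} {u : ℝ} (hu : u ∈ Ioo (0 : ℝ) 1) :
    HasDerivAt (wt a b) (a * wt (a - 1) b u - b * wt a (b - 1) u) u := by
  have h0 : (u : ℂ) ∈ slitPlane := by
    rw [mem_slitPlane_iff]
    left
    rw [Complex.ofReal_re]
    exact hu.1
  have h1 : 1 - (u : ℂ) ∈ slitPlane := by
    rw [mem_slitPlane_iff]
    left
    rw [Complex.sub_re, Complex.one_re, Complex.ofReal_re]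
    linarith [hu.2]
  have e0 : HasDerivAt (fun y : ℝ => (y : ℂ)) 1 u := Complex.ofRealCLM.hasDerivAt
  have e1 : HasDerivAt (fun y : ℝ => 1 - (y : ℂ)) (-1) u := by simpa using e0.const_sub 1
  have d0 : HasDerivAt (fun y : ℝ => (y : ℂ) ^ a) (a * (u : ℂ) ^ (a - 1) * 1) u := by
    have := (hasStrictDerivAt_cpow_const (c := a) h0).hasDerivAt
    exact this.comp u e0
  have d1 : HasDerivAt (fun y : ℝ => (1 - (y : ℂ)) ^ b) (b * (1 - (u : ℂ)) ^ (b - 1) * (-1)) u := by
    have := (hasStrictDerivAt_cpow_const (c := b) h1).hasDerivAt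
    exact this.comp u e1
  refine (d0.mul d1).congr_deriv ?_
  unfold wt
  ring

lemma wt_left {a b : ℂ} {u : ℝ} (hu : u ∈ Ioo (0 : ℝ) 1) : (u : ℂ) * wt (a - 1) b u = wt a b u := by
  unfold wt
  have h0 : (u : ℂ) ≠ 0 := by exact_mod_cast hu.1.ne'
  rw [Complex.cpow_sub _ _ h0, Complex.cpow_one]
  field_simp

lemma wt_right {a b : ℂ} {u : ℝ} (hu : u ∈ Ioo (0 : ℝ) 1) : (1 - (u : ℂ)) * wt a (b - 1) u = wt a b u := by
  unfold wt
  have h0 : (1 - (u : ℂ)) ≠ 0 := by
    have : (1 - u : ℝ) ≠ 0 := by linarith [hu.2]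
    exact_mod_cast this
  rw [Complex.cpow_sub _ _ h0, Complex.cpow_one]
  field_simp

/-- integrals of functions which are equal on the open interval -/
lemma int_congr {f g : ℝ → ℂ} (h : ∀ u ∈ Ioo (0 : ℝ) 1, f u = g u) : ∫ u in (0 : ℝ)..1, f u = ∫ u in (0 : ℝ)..1, g u := by
  rw [intervalIntegral.integral_of_le zero_le_one, intervalIntegral.integral_of_le zero_le_one,
    integral_Ioc_eq_integral_Ioo, integral_Ioc_eq_integral_Ioo]
  exact setIntegral_congr_fun measurableSet_Ioo h

lemma wt_mul_int {a b : ℂ} (ha : -1 < a.re) (hb : -1 < b.re) {h : ℝ → ℂ} (hc : ContinuousOn h (Icc 0 1)) :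
    IntervalIntegrable (fun u => wt a b u * h u) volume 0 1 :=
  (wt_int ha hb).mul_continuousOn (by rw [uIcc_of_le zero_le_one]; exact hc)

/-- integration by parts -/
lemma ibp {a b : ℂ} (ha : 0 < a.re) (hb : 0 < b.re) {h h' : ℝ → ℂ} (hc : ContinuousOn h (Icc 0 1))
    (hc' : ContinuousOn h' (Icc 0 1)) (hd : ∀ u ∈ Ioo (0 : ℝ) 1, HasDerivAt h (h' u) u) :
    ∫ u in (0 : ℝ)..1, wt a b u * h' u = b * (∫ u in (0 : ℝ)..1, wt a (b - 1) u * h u) -
      a * ∫ u in (0 : ℝ)..1, wt (a - 1) b u * h u := by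
  have ha' : a ≠ 0 := by
    rintro rfl
    simp at ha
  have hb' : b ≠ 0 := by
    rintro rfl
    simp at hb
  have i1 := wt_mul_int (a := a) (b := b) (by linarith) (by linarith) hc'
  have i2 := wt_mul_int (a := a - 1) (b := b) (by simp; linarith) (by linarith) hc
  have i3 := wt_mul_int (a := a) (b := b - 1) (by linarith) (by simp; linarith) hc
  have h1 := intervalIntegral.integral_eq_sub_of_hasDerivAt_of_le (a := 0) (b := 1) (f := fun u => wt a b u * h u)
    (f' := fun u => (a * (wt (a - 1) b u * h u) - b * (wt a (b - 1) u * h u)) + wt a b u * h' u) zero_le_one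
    ((wt_cont ha hb).mul hc) (fun u hu => ((wt_deriv hu).mul (hd u hu)).congr_deriv (by ring))
    (((i2.const_mul a).sub (i3.const_mul b)).add i1)
  rw [intervalIntegral.integral_add ((i2.const_mul a).sub (i3.const_mul b)) i1,
    intervalIntegral.integral_sub (i2.const_mul a) (i3.const_mul b), intervalIntegral.integral_const_mul,
    intervalIntegral.integral_const_mul] at h1
  have e0 : wt a b 0 = 0 := by
    unfold wt
    rw [Complex.ofReal_zero, Complex.zero_cpow ha', zero_mul]
  have e1 : wt a b 1 = 0 := by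
    unfold wt
    rw [Complex.ofReal_one, sub_self, Complex.zero_cpow hb', mul_zero]
  rw [e0, e1, zero_mul, zero_mul, sub_zero] at h1
  linear_combination h1

section
variable {X : Type} [Fintype X]

/-- analytic dependence on parameters -/
theorem an_int {V : Set (X → ℂ)} (hV : IsOpen V) {a b : ℝ} (hab : a ≤ b) {ω : ℝ → ℂ}
    (hω : IntervalIntegrable ω volume a b) {F : ℝ → (X → ℂ) → ℂ}
    (hc : ContinuousOn (fun p : ℝ × (X → ℂ) => F p.1 p.2) (Icc a b ×ˢ V))
    (hd : ∀ u ∈ Icc a b, ∀ e ∈ V, DifferentiableAt ℂ (F u) e) :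
    AnalyticOnNhd ℂ (fun e => ∫ u in a..b, ω u * F u e) V := by
  classical
  refine Pool.Agent.Y785.MV.Osg.t _ _ hV _ ?_
  intro z0 hz0
  obtain ⟨r, hr, hball⟩ := Metric.nhds_basis_closedBall.mem_iff.1 (hV.mem_nhds hz0)
  obtain ⟨M, hM⟩ := (isCompact_Icc.prod (isCompact_closedBall z0 r)).exists_bound_of_continuousOn
    (hc.mono (prod_mono le_rfl hball))
  set G : ℝ → (X → ℂ) → ℂ := fun u e => if u ∈ Icc a b then ω u * F u e else 0 with hG
  have hGI : ∀ e, ∫ u in a..b, ω u * F u e = ∫ u in Ioc a b, G u e := by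
    intro e
    rw [intervalIntegral.integral_of_le hab]
    refine setIntegral_congr_fun measurableSet_Ioc fun u hu => ?_
    rw [hG]
    simp only
    rw [if_pos (Ioc_subset_Icc_self hu)]
  have hωi : Integrable ω (volume.restrict (Ioc a b)) := (intervalIntegrable_iff_integrableOn_Ioc_of_le hab).1 hω
  have hM0 : 0 ≤ M := (norm_nonneg _).trans (hM (a, z0) ⟨left_mem_Icc.2 hab, Metric.mem_closedBall_self hr.le⟩)
  have key := Pool.Agent.HP.differentiableOn_integral (volume.restrict (Ioc a b)) G (Metric.ball z0 r)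
    Metric.isOpen_ball (fun e he => by
      have he' := hball (Metric.ball_subset_closedBall he)
      have h1 : ContinuousOn (fun u => F u e) (Icc a b) := by
        refine hc.comp (f := fun u : ℝ => (u, e)) (by fun_prop) fun u hu => ⟨hu, he'⟩
      have h2 : AEStronglyMeasurable (fun u => ω u * F u e) (volume.restrict (Ioc a b)) :=
        hωi.aestronglyMeasurable.mul ((h1.mono Ioc_subset_Icc_self).aestronglyMeasurable measurableSet_Ioc)
      refine h2.congr ?_
      filter_upwards [ae_restrict_mem measurableSet_Ioc] with u hu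
      rw [hG]
      simp only
      rw [if_pos (Ioc_subset_Icc_self hu)])
    (fun u e he => by
      rw [hG]
      simp only
      split_ifs with hu
      · exact ((hd u hu e (hball (Metric.ball_subset_closedBall he))).const_mul _).differentiableWithinAt
      · exact differentiableWithinAt_const _)
    (fun u => ‖ω u‖ * M) (hωi.norm.mul_const M) (by
      intro u e he
      rw [hG]
      simp only
      split_ifs with hu
      · rw [norm_mul]
        exact mul_le_mul_of_nonneg_left (hM (u, e) ⟨hu, Metric.ball_subset_closedBall he⟩) (norm_nonneg _)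
      · rw [norm_zero]
        positivity)
  refine DifferentiableAt.differentiableWithinAt ?_
  have h3 : (fun e => ∫ u in a..b, ω u * F u e) = fun e => ∫ u in Ioc a b, G u e := funext hGI
  rw [h3]
  exact (key z0 (Metric.mem_ball_self hr)).differentiableAt (Metric.isOpen_ball.mem_nhds (Metric.mem_ball_self hr))

/-- differentiation under the integral -/
theorem dint {V : Set (X → ℂ)} (hV : IsOpen V) {ω : ℝ → ℂ}
    (hω : IntervalIntegrable ω volume 0 1) {F : ℝ → (X → ℂ) → ℂ}
    (hc : ContinuousOn (fun p : ℝ × (X → ℂ) => F p.1 p.2) (Icc 0 1 ×ˢ V))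
    (hd : ∀ u ∈ Icc (0 : ℝ) 1, ∀ e ∈ V, DifferentiableAt ℂ (F u) e) {e : X → ℂ} (he : e ∈ V) (v : X → ℂ)
    {F' : ℝ → ℂ} (hFc : ContinuousOn F' (Icc 0 1))
    (hF' : ∀ u ∈ Icc (0 : ℝ) 1, HasDerivAt (fun t : ℂ => F u (e + t • v)) (F' u) 0) :
    HasDerivAt (fun t : ℂ => ∫ u in (0 : ℝ)..1, ω u * F u (e + t • v)) (∫ u in (0 : ℝ)..1, ω u * F' u) 0 := by
  have hω' : IntegrableOn ω (Ioc 0 1) := (intervalIntegrable_iff_integrableOn_Ioc_of_le zero_le_one).1 hω
  have hline : Continuous fun t : ℂ => e + t • v := by fun_prop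
  have hlined : Differentiable ℂ fun t : ℂ => e + t • v := by fun_prop
  have hV' : IsOpen {t : ℂ | e + t • v ∈ V} := hV.preimage hline
  obtain ⟨r, hr, hball⟩ := Metric.nhds_basis_closedBall.mem_iff.1
    (hV'.mem_nhds (show (0 : ℂ) ∈ {t : ℂ | e + t • v ∈ V} by simpa using he))
  have hc2 : ContinuousOn (fun p : ℝ × ℂ => F p.1 (e + p.2 • v)) (Icc 0 1 ×ˢ Metric.closedBall 0 r) := by
    refine hc.comp (f := fun p : ℝ × ℂ => (p.1, e + p.2 • v)) (by fun_prop) ?_
    rintro ⟨u, t⟩ ⟨hu, ht⟩
    exact ⟨hu, hball ht⟩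
  obtain ⟨M, hM⟩ := (isCompact_Icc.prod (isCompact_closedBall (0 : ℂ) r)).exists_bound_of_continuousOn hc2
  have hM0 : 0 ≤ M := (norm_nonneg _).trans (hM (0, 0) ⟨left_mem_Icc.2 zero_le_one, Metric.mem_closedBall_self hr.le⟩)
  have hdiff : ∀ u ∈ Icc (0 : ℝ) 1, ∀ t ∈ Metric.closedBall (0 : ℂ) r,
      DifferentiableAt ℂ (fun t : ℂ => F u (e + t • v)) t := by
    intro u hu t ht
    exact DifferentiableAt.comp t (hd u hu _ (hball ht)) hlined.differentiableAt
  have hr2 : 0 < r / 2 := by positivity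
  have h := intervalIntegral.hasDerivAt_integral_of_dominated_loc_of_deriv_le (μ := volume) (a := (0 : ℝ)) (b := 1)
    (F := fun (t : ℂ) u => ω u * F u (e + t • v))
    (F' := fun (t : ℂ) u => ω u * deriv (fun t : ℂ => F u (e + t • v)) t) (x₀ := 0)
    (s := Metric.ball 0 (r / 2)) (bound := fun u => ‖ω u‖ * (M / (r / 2))) (Metric.ball_mem_nhds _ hr2) (by
      filter_upwards [Metric.ball_mem_nhds (0 : ℂ) hr] with t ht
      rw [uIoc_of_le zero_le_one]
      refine hω'.aestronglyMeasurable.mul (ContinuousOn.aestronglyMeasurable ?_ measurableSet_Ioc)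
      refine hc.comp (f := fun u : ℝ => (u, e + t • v)) (by fun_prop) fun u hu =>
        ⟨Ioc_subset_Icc_self hu, hball (Metric.ball_subset_closedBall ht)⟩) (by
      refine hω.mul_continuousOn ?_
      rw [uIcc_of_le zero_le_one]
      refine hc.comp (f := fun u : ℝ => (u, e + (0 : ℂ) • v)) (by fun_prop) fun u hu =>
        ⟨hu, by simpa using he⟩) (by
      rw [uIoc_of_le zero_le_one]
      have h1 : ∀ u ∈ Ioc (0 : ℝ) 1, ω u * deriv (fun t : ℂ => F u (e + t • v)) 0 = ω u * F' u :=
        fun u hu => by rw [(hF' u (Ioc_subset_Icc_self hu)).deriv]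
      have h2 : AEStronglyMeasurable (fun u => ω u * F' u) (volume.restrict (Ioc 0 1)) :=
        hω'.aestronglyMeasurable.mul ((hFc.mono Ioc_subset_Icc_self).aestronglyMeasurable measurableSet_Ioc)
      refine h2.congr ?_
      filter_upwards [ae_restrict_mem measurableSet_Ioc] with u hu
      exact (h1 u hu).symm) (Eventually.of_forall fun u hu t ht => by
      rw [uIoc_of_le zero_le_one] at hu
      rw [norm_mul]
      refine mul_le_mul_of_nonneg_left ?_ (norm_nonneg _)
      have hsub : Metric.closedBall t (r / 2) ⊆ Metric.closedBall 0 r := by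
        intro y hy
        rw [Metric.mem_ball] at ht
        rw [Metric.mem_closedBall] at hy ⊢
        linarith [dist_triangle y t 0]
      refine Complex.norm_deriv_le_of_forall_mem_sphere_norm_le hr2 ?_ ?_
      · refine DifferentiableOn.diffContOnCl_ball (U := Metric.closedBall 0 r) (fun y hy =>
          (hdiff u (Ioc_subset_Icc_self hu) y hy).differentiableWithinAt) hsub
      · intro y hy
        exact hM (u, y) ⟨Ioc_subset_Icc_self hu, hsub (Metric.sphere_subset_closedBall hy)⟩)
      (hω.norm.mul_const _) (Eventually.of_forall fun u hu t ht => by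
      rw [uIoc_of_le zero_le_one] at hu
      refine HasDerivAt.const_mul _ ?_
      refine (hdiff u (Ioc_subset_Icc_self hu) t ?_).hasDerivAt
      refine Metric.ball_subset_closedBall (Metric.ball_subset_ball (by linarith) ht))
  refine h.2.congr_deriv ?_
  refine int_congr fun u hu => ?_
  rw [(hF' u (Ioo_subset_Icc_self hu)).deriv]

end

end Pool.Agent.E8helper42.TG
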